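import Pool.Agent.Lib.MP_1c9ad1_nt.Reduce
import Mathlib.Data.Nat.Prime.Int
import Mathlib.RingTheory.Int.Basic

/-!
# Domination of primitive representation numbers up to `2p` forces isometry
-/

namespace Pool.Agent.Lib.MP_1c9ad1_nt

theorem uniq {p : ℕ} (hp : p.Prime) {κ k σ s : ℤ}
    (e : 4 * (p : ℤ) * κ + σ ^ 2 = 4 * (p : ℤ) * k + s ^ 2) (hk : 1 ≤ k)
    (hκ0 : 0 ≤ κ) (h : (p ≠ 2 ∧ κ + |σ| < p) ∨ (κ = 1 ∧ |σ| ≤ 2)) : k = κ ∧ s ^ 2 = σ ^ 2 := by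
  have hp2 : (2 : ℤ) ≤ p := by exact_mod_cast hp.two_le
  suffices hs : s ^ 2 = σ ^ 2 by
    refine ⟨?_, hs⟩
    have : (4 * (p : ℤ)) * (κ - k) = 0 := by rw [hs] at e; linarith
    rcases mul_eq_zero.mp this with h1 | h1 <;> omega
  rcases h with ⟨hodd, hlt⟩ | ⟨rfl, hσ⟩
  · have hpr : Prime (p : ℤ) := Nat.prime_iff_prime_int.mp hp
    have hmul : (s - σ) * (s + σ) = 4 * (p : ℤ) * (κ - k) := by linear_combination (-1 : ℤ) * e
    have hpar : (2 : ℤ) ∣ s - σ := by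
      rcases Int.emod_two_eq_zero_or_one s with h1 | h1 <;>
      rcases Int.emod_two_eq_zero_or_one σ with h2 | h2
      · omega
      · exfalso
        obtain ⟨s', hs'⟩ : ∃ s', s = 2 * s' := ⟨s / 2, by omega⟩
        obtain ⟨σ', hσ'⟩ : ∃ σ', σ = 2 * σ' + 1 := ⟨σ / 2, by omega⟩
        have h3 : 4 * (s' ^ 2 - σ' ^ 2 - σ') - 1 = 4 * ((p : ℤ) * (κ - k)) := by
          rw [hs', hσ'] at hmul; linarith
        omega
      · exfalso
        obtain ⟨s', hs'⟩ : ∃ s', s = 2 * s' + 1 := ⟨s / 2, by omega⟩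
        obtain ⟨σ', hσ'⟩ : ∃ σ', σ = 2 * σ' := ⟨σ / 2, by omega⟩
        have h3 : 4 * (s' ^ 2 + s' - σ' ^ 2) + 1 = 4 * ((p : ℤ) * (κ - k)) := by
          rw [hs', hσ'] at hmul; linarith
        omega
      · omega
    have hpar2 : (2 : ℤ) ∣ s + σ := by omega
    have hdvd : (p : ℤ) ∣ (s - σ) * (s + σ) := by
      rw [hmul]; exact ⟨4 * (κ - k), by ring⟩
    have hcop : IsCoprime (2 : ℤ) (p : ℤ) := by
      have : Nat.Coprime 2 p := (Nat.coprime_primes Nat.prime_two hp).mpr (Ne.symm hodd)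
      exact_mod_cast Nat.isCoprime_iff_coprime.mpr this
    have key : ∀ t : ℤ, (2 * (p : ℤ)) ∣ t → |t| ≤ |s| + |σ| → t = 0 := by
      rintro t ⟨m, rfl⟩ hle
      by_contra hne
      have hm : m ≠ 0 := by rintro rfl; simp at hne
      have hm1 : 1 ≤ |m| := Int.one_le_abs hm
      have h2p : 2 * (p : ℤ) ≤ |s| + |σ| := by
        have : |2 * (p : ℤ) * m| = 2 * (p : ℤ) * |m| := by
          rw [abs_mul, abs_of_nonneg (by positivity)]
        rw [this] at hle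
        nlinarith
      have hs2 : s ^ 2 = |s| ^ 2 := (sq_abs s).symm
      have hσ2 : σ ^ 2 = |σ| ^ 2 := (sq_abs σ).symm
      rw [hs2, hσ2] at e
      have h0 : 0 ≤ |σ| := abs_nonneg σ
      have hκ : κ + |σ| ≤ p := hlt.le
      have h3 : (2 * (p : ℤ) - |σ|) ^ 2 ≤ |s| ^ 2 := by
        have hge : 2 * (p : ℤ) - |σ| ≤ |s| := by linarith
        exact pow_le_pow_left₀ (by linarith) hge 2
      have h4 : 4 * (p : ℤ) * κ ≥ 4 * (p : ℤ) * (1 + p - |σ|) := by nlinarith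
      have h5 : κ ≥ 1 + p - |σ| := by
        have h6 : (0 : ℤ) < 4 * p := by linarith
        exact le_of_mul_le_mul_left h4 h6
      linarith
    rcases hpr.dvd_or_dvd hdvd with h1 | h1
    · have := key (s - σ) (hcop.mul_dvd hpar h1) (abs_sub s σ)
      have : s = σ := by linarith
      rw [this]
    · have := key (s + σ) (hcop.mul_dvd hpar2 h1) (abs_add_le s σ)
      have : s = -σ := by linarith
      rw [this]; ring
  · have h1 : σ ^ 2 ≤ 4 := by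
      rw [← sq_abs]
      nlinarith [abs_nonneg σ]
    have h2 : k ≤ 1 := by nlinarith [sq_nonneg s]
    have h3 : k = 1 := le_antisymm h2 hk
    subst h3
    linarith

namespace Red

variable {p : ℕ} {F : TF}

theorem u_sq (h : Red p F) : F.u ^ 2 ≤ F.c ^ 2 := by
  have := h.hu
  have h1 := h.hc
  rw [← sq_abs F.u]
  exact pow_le_pow_left₀ (abs_nonneg _) this 2

theorem r1 (h : Red p F) : 3 * (F.c * F.b) ≤ F.d := by
  have h1 := h.u_sq
  have h2 := h.hcb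
  have h3 := h.hc
  simp only [TF.d]
  nlinarith

theorem r2 (h : Red p F) : 3 * F.c ^ 2 ≤ F.d := by
  have h1 := h.r1
  have h2 := h.hcb
  have h3 := h.hc
  nlinarith

theorem keyA (h : Red p F) : F.d * F.Q 0 1 0 = F.A1 ^ 2 + 4 * (p : ℤ) * F.c := by
  have := F.key 0 1 0
  rw [h.hN] at this
  rw [this]; simp only [TF.s, TF.k]; ring

theorem keyB (h : Red p F) : F.d * F.Q 0 0 1 = F.A2 ^ 2 + 4 * (p : ℤ) * F.b := by
  have := F.key 0 0 1
  rw [h.hN] at this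
  rw [this]; simp only [TF.s, TF.k]; ring

theorem A1_sq (h : Red p F) : 4 * F.A1 ^ 2 ≤ F.d ^ 2 := by
  have := h.hA1
  rw [← sq_abs F.A1]
  nlinarith [abs_nonneg F.A1]

theorem A2_sq (h : Red p F) : 4 * F.A2 ^ 2 ≤ F.d ^ 2 := by
  have := h.hA2
  rw [← sq_abs F.A2]
  nlinarith [abs_nonneg F.A2]

theorem r3 (h : Red p F) : 3 * F.d ^ 2 ≤ 16 * (p : ℤ) * F.c := by
  have h1 := h.keyA
  have h2 := h.A1_sq
  have h3 := h.hmin
  have h4 := h.hd
  nlinarith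

theorem d_le (hp : 2 ≤ p) (h : Red p F) : F.d ≤ 2 * p := by
  by_contra hcon
  push Not at hcon
  have hp' : (2 : ℤ) ≤ p := by exact_mod_cast hp
  have h1 := h.r3
  have h2 := h.r2
  have h3 := h.hc
  have h4 := h.hd
  -- 3 d^2 ≤ 16 p c < 8 d c, so 3 d < 8 c, 9 d^2 < 64 c^2 ≤ 64 d / 3, so 27 d < 64, d ≤ 2 < 4 ≤ 2p
  have h5 : 3 * F.d ^ 2 < 8 * F.d * F.c := by nlinarith
  have h6 : 3 * F.d < 8 * F.c := by
    have : F.d * (3 * F.d) < F.d * (8 * F.c) := by linarith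
    exact lt_of_mul_lt_mul_left this h4.le
  have h7 : 9 * F.d ^ 2 < 64 * F.c ^ 2 := by nlinarith
  have h8 : F.d * (27 * F.d) < F.d * 64 := by nlinarith
  have h9 : 27 * F.d < 64 := lt_of_mul_lt_mul_left h8 h4.le
  linarith

theorem cond (hp : p.Prime) (h : Red p F) :
    (p ≠ 2 ∧ 2 * F.b + F.d < 2 * p) ∨ (F.b = 1 ∧ F.c = 1 ∧ F.d ≤ 4) := by
  have h1 := h.r1
  have h2 := h.r2
  have h3 := h.r3
  have h4 := h.u_sq
  have hc := h.hc
  have hcb := h.hcb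
  have hd : F.d = 4 * F.b * F.c - F.u ^ 2 := rfl
  rcases le_or_gt 7 F.d with h7 | h7
  · left
    have h5 : 4 * F.d + 4 * F.c ^ 2 + 8 * F.c * F.d < 3 * F.d ^ 2 := by
      rcases le_or_gt F.c 1 with hc1 | hc1
      · have : F.c = 1 := le_antisymm hc1 hc
        rw [this]; nlinarith
      · have hdc : 3 * F.c * 2 ≤ F.d := by nlinarith
        have : F.d * (16 + 24 * F.c) < F.d * (9 * F.d) := by
          apply mul_lt_mul_of_pos_left _ h.hd
          nlinarith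
        nlinarith
    have h6 : 2 * F.b + F.d < 2 * p := by
      have : (8 * F.c) * (2 * F.b + F.d) < (8 * F.c) * (2 * p) := by nlinarith
      exact lt_of_mul_lt_mul_left this (by positivity)
    refine ⟨?_, h6⟩
    rintro rfl
    push_cast at h6
    linarith
  · right
    have hb : F.c * F.b ≤ 2 := by nlinarith
    have hb1 : F.b ≤ 2 := by nlinarith
    have hc1 : F.c ≤ 1 := by nlinarith
    have hc' : F.c = 1 := le_antisymm hc1 hc
    have hu : F.u ^ 2 ≤ 1 := by rw [hc'] at h4; simpa using h4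
    rcases (show F.b = 1 ∨ F.b = 2 by omega) with hb' | hb'
    · refine ⟨hb', hc', ?_⟩
      rw [hd, hb', hc']; nlinarith [sq_nonneg F.u]
    · exfalso
      rw [hb', hc'] at hd
      linarith

theorem condb (hp : p.Prime) (h : Red p F) {σ : ℤ} (hσ : 2 * |σ| ≤ F.d) :
    (p ≠ 2 ∧ F.b + |σ| < p) ∨ (F.b = 1 ∧ |σ| ≤ 2) := by
  rcases h.cond hp with ⟨h1, h2⟩ | ⟨h1, h2, h3⟩
  · left; exact ⟨h1, by linarith⟩
  · right; exact ⟨h1, by linarith⟩

theorem condc (hp : p.Prime) (h : Red p F) {σ : ℤ} (hσ : 2 * |σ| ≤ F.d) :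
    (p ≠ 2 ∧ F.c + |σ| < p) ∨ (F.c = 1 ∧ |σ| ≤ 2) := by
  rcases h.cond hp with ⟨h1, h2⟩ | ⟨h1, h2, h3⟩
  · left; exact ⟨h1, by linarith [h.hcb]⟩
  · right; exact ⟨h2, by linarith⟩

/-- `Q'(v2') ≤ 2 p` -/
theorem n1_le (hp : 2 ≤ p) (h : Red p F) : F.Q 0 1 0 ≤ 2 * p := by
  have h1 := h.keyA
  have h2 := h.A1_sq
  have h3 := h.d_le hp
  have h4 := h.r2
  have hc := h.hc
  have hd := h.hd
  have hp' : (2 : ℤ) ≤ p := by exact_mod_cast hp
  -- 4 p c ≤ 4 p d / 3, A1^2 ≤ d^2 / 4 ≤ d p / 2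
  have h5 : 3 * F.c ≤ F.d := by nlinarith
  have : F.d * F.Q 0 1 0 ≤ F.d * (2 * p) := by nlinarith
  exact le_of_mul_le_mul_left this hd

theorem n2_le (hp : 2 ≤ p) (h : Red p F) : F.Q 0 0 1 ≤ 2 * p := by
  have h1 := h.keyB
  have h2 := h.A2_sq
  have h3 := h.d_le hp
  have h4 := h.r1
  have hc := h.hc
  have hcb := h.hcb
  have hd := h.hd
  have hp' : (2 : ℤ) ≤ p := by exact_mod_cast hp
  have h5 : 3 * F.b ≤ F.d := by nlinarith
  have : F.d * F.Q 0 0 1 ≤ F.d * (2 * p) := by nlinarith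
  exact le_of_mul_le_mul_left this hd

end Red

theorem exists_not {T : Type*} {S S' : Set T} (hfin : S'.Finite) (hle : S'.ncard ≤ S.ncard)
    {t0 : T} (ht0 : t0 ∈ S') (P : T → Prop) (hP : ∀ t ∈ S, P t → t ∈ S' ∧ t ≠ t0) :
    ∃ t ∈ S, ¬ P t := by
  by_contra hcon
  push Not at hcon
  have hsub : S ⊆ S' \ {t0} := fun t ht => by
    obtain ⟨h1, h2⟩ := hP t ht (hcon t ht)
    exact ⟨h1, by simpa using h2⟩
  have h1 : S.ncard ≤ (S' \ {t0}).ncard := Set.ncard_le_ncard hsub (hfin.subset Set.sdiff_subset)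
  have h2 := Set.ncard_sdiff_singleton_add_one ht0 hfin
  omega

end Pool.Agent.Lib.MP_1c9ad1_nt
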