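import Pool.Agent.Lib.MP_1c9ad1_nt.Lattice

/-!
# Adjoints of ternary forms
-/

namespace Pool.Agent.Lib.MP_1c9ad1_nt

/-- coefficients of an integral ternary form `a x^2 + b y^2 + c z^2 + u y z + v x z + w x y`. -/
@[ext]
structure TF where
  (a b c u v w : ℤ)

namespace TF

/-- half discriminant -/
def N (F : TF) : ℤ :=
  4 * F.a * F.b * F.c + F.u * F.v * F.w - F.a * F.u ^ 2 - F.b * F.v ^ 2 - F.c * F.w ^ 2

/-- the adjoint form -/
def Q (F : TF) (x y z : ℤ) : ℤ :=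
  (4 * F.b * F.c - F.u ^ 2) * x ^ 2 + (4 * F.a * F.c - F.v ^ 2) * y ^ 2
    + (4 * F.a * F.b - F.w ^ 2) * z ^ 2 + 2 * (F.u * F.v - 2 * F.c * F.w) * x * y
    + 2 * (F.u * F.w - 2 * F.b * F.v) * x * z + 2 * (F.v * F.w - 2 * F.a * F.u) * y * z

def d (F : TF) : ℤ := 4 * F.b * F.c - F.u ^ 2
def A1 (F : TF) : ℤ := F.u * F.v - 2 * F.c * F.w
def A2 (F : TF) : ℤ := F.u * F.w - 2 * F.b * F.v
def s (F : TF) (x y z : ℤ) : ℤ := F.d * x + F.A1 * y + F.A2 * z
def k (F : TF) (y z : ℤ) : ℤ := F.c * y ^ 2 - F.u * y * z + F.b * z ^ 2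

theorem key (F : TF) (x y z : ℤ) :
    F.d * F.Q x y z = F.s x y z ^ 2 + 4 * F.N * F.k y z := by
  simp only [N, Q, d, A1, A2, s, k]; ring

theorem key2 (F : TF) (y z : ℤ) :
    4 * F.c * F.k y z = F.d * z ^ 2 + (2 * F.c * y - F.u * z) ^ 2 := by
  simp only [d, k]; ring

theorem Q_neg (F : TF) (x y z : ℤ) : F.Q (-x) (-y) (-z) = F.Q x y z := by
  simp only [Q]; ring

end TF

/-- A rank three lattice with a positive definite form which in every basis is the adjoint of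
an integral ternary form of half-discriminant `p`. -/
structure Gr (p : ℕ) (L : Type*) [AddCommGroup L] (q : L → ℤ) : Prop where
  exB : ∃ v1 v2 v3 : L, B3 v1 v2 v3
  form : ∀ v1 v2 v3 : L, B3 v1 v2 v3 →
    ∃ F : TF, F.N = p ∧ ∀ x y z : ℤ, q (x • v1 + y • v2 + z • v3) = F.Q x y z
  pos : ∀ v : L, v ≠ 0 → 0 < q v

/-- number of primitive vectors of given value. -/
noncomputable def cnt {L : Type*} [AddCommGroup L] (q : L → ℤ) (n : ℤ) : ℕ :=
  Set.ncard {v : L | IsPrim v ∧ q v = n}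

section

variable {p : ℕ} {L : Type*} [AddCommGroup L] {q : L → ℤ} {v1 v2 v3 : L} {F : TF}

theorem B3.ne1 (h : B3 v1 v2 v3) : v1 ≠ 0 := by
  rintro rfl
  have := h.2 1 0 0 (by simp)
  omega

theorem B3.ne_of_coord (h : B3 v1 v2 v3) {x y z : ℤ} (hne : ¬(x = 0 ∧ y = 0 ∧ z = 0)) :
    x • v1 + y • v2 + z • v3 ≠ 0 := fun e => hne (h.2 x y z e)

theorem Gr.d_pos (hL : Gr p L q) (h : B3 v1 v2 v3)
    (hF : ∀ x y z : ℤ, q (x • v1 + y • v2 + z • v3) = F.Q x y z) : 0 < F.d := by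
  have h1 := hL.pos _ (h.ne_of_coord (x := 1) (y := 0) (z := 0) (by simp))
  rw [hF] at h1
  simp only [TF.Q, TF.d] at *
  linarith

theorem Gr.c_pos (hp : 0 < p) (hL : Gr p L q) (h : B3 v1 v2 v3) (hN : F.N = p)
    (hF : ∀ x y z : ℤ, q (x • v1 + y • v2 + z • v3) = F.Q x y z) : 0 < F.c := by
  have hd := hL.d_pos h hF
  have h1 := hL.pos _ (h.ne_of_coord (x := -F.A1) (y := F.d) (z := 0) (by
    rintro ⟨-, h2, -⟩; omega))
  rw [hF] at h1
  have h2 := F.key (-F.A1) F.d 0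
  have h3 : F.s (-F.A1) F.d 0 = 0 := by simp only [TF.s]; ring
  have h4 : F.k F.d 0 = F.c * F.d ^ 2 := by simp only [TF.k]; ring
  rw [h3, h4, hN] at h2
  have h5 : 0 < F.d * F.Q (-F.A1) F.d 0 := mul_pos hd h1
  have h6 : 0 < (4 * (p : ℤ) * F.d ^ 2) * F.c := by nlinarith
  have h7 : 0 < 4 * (p : ℤ) * F.d ^ 2 := by positivity
  exact (mul_pos_iff_of_pos_left h7).mp h6

theorem Gr.b_pos (hp : 0 < p) (hL : Gr p L q) (h : B3 v1 v2 v3) (hN : F.N = p)
    (hF : ∀ x y z : ℤ, q (x • v1 + y • v2 + z • v3) = F.Q x y z) : 0 < F.b := by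
  have hd := hL.d_pos h hF
  have hc := hL.c_pos hp h hN hF
  simp only [TF.d] at hd
  nlinarith [sq_nonneg F.u]

theorem TF.k_nonneg (hd : 0 < F.d) (hc : 0 < F.c) (y z : ℤ) : 0 ≤ F.k y z := by
  have := F.key2 y z
  nlinarith [sq_nonneg (2 * F.c * y - F.u * z), sq_nonneg z,
    mul_nonneg hd.le (sq_nonneg z)]

theorem TF.k_pos (hd : 0 < F.d) (hc : 0 < F.c) {y z : ℤ} (h : ¬(y = 0 ∧ z = 0)) :
    0 < F.k y z := by
  have h1 := F.key2 y z
  have h2 : 0 < F.d * z ^ 2 + (2 * F.c * y - F.u * z) ^ 2 := by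
    by_cases hz : z = 0
    · subst hz
      have hy : y ≠ 0 := fun h' => h ⟨h', rfl⟩
      have : 0 < (2 * F.c * y - F.u * 0) ^ 2 := by
        have : 2 * F.c * y - F.u * 0 ≠ 0 := by
          simp [hc.ne', hy]
        positivity
      nlinarith
    · have : 0 < F.d * z ^ 2 := by positivity
      nlinarith [sq_nonneg (2 * F.c * y - F.u * z)]
  rw [← h1] at h2
  exact (mul_pos_iff_of_pos_left (by positivity)).mp h2

/-- coordinates -/
theorem Gr.finite (hp : 0 < p) (hL : Gr p L q) (n : ℤ) : {v : L | q v = n}.Finite := by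
  obtain ⟨v1, v2, v3, h⟩ := hL.exB
  obtain ⟨F, hN, hF⟩ := hL.form v1 v2 v3 h
  have hd := hL.d_pos h hF
  have hc := hL.c_pos hp h hN hF
  -- finiteness in coordinates
  have hfin : {t : ℤ × ℤ × ℤ | F.Q t.1 t.2.1 t.2.2 = n}.Finite := by
    let K : ℤ := (F.c + 1) * F.d * n
    let f : ℤ × ℤ × ℤ → ℤ × ℤ × ℤ :=
      fun t => (F.s t.1 t.2.1 t.2.2, 2 * F.c * t.2.1 - F.u * t.2.2, t.2.2)
    have hinj : Function.Injective f := by
      rintro ⟨x, y, z⟩ ⟨x', y', z'⟩ e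
      simp only [f, Prod.mk.injEq] at e
      obtain ⟨e1, e2, rfl⟩ := e
      have hy : y = y' := by
        have : F.c * (y - y') = 0 := by linarith
        rcases mul_eq_zero.mp this with h1 | h1 <;> omega
      subst hy
      have hx : x = x' := by
        simp only [TF.s] at e1
        have : F.d * (x - x') = 0 := by linarith
        rcases mul_eq_zero.mp this with h1 | h1 <;> omega
      subst hx
      rfl
    refine Set.Finite.subset ((Set.finite_Icc ((-K, -K, -K) : ℤ × ℤ × ℤ) (K, K, K)).preimage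
      hinj.injOn) ?_
    rintro ⟨x, y, z⟩ hn
    simp only [Set.mem_ofPred_eq] at hn
    have h1 := F.key x y z
    have h2 := F.key2 y z
    rw [hN, hn] at h1
    have hk := TF.k_nonneg hd hc y z
    have hp' : (1 : ℤ) ≤ p := by exact_mod_cast hp
    have hpk : F.k y z ≤ p * F.k y z := by nlinarith
    have hs : F.s x y z ^ 2 ≤ F.d * n := by nlinarith [sq_nonneg (F.s x y z)]
    have hdn : 0 ≤ F.d * n := le_trans (sq_nonneg _) hs
    have hk4 : 4 * F.k y z ≤ F.d * n := by nlinarith [sq_nonneg (F.s x y z)]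
    have hck : 4 * F.c * F.k y z ≤ F.c * (F.d * n) := by nlinarith
    have hK1 : F.d * n ≤ K := by simp only [K]; nlinarith
    have hK2 : F.c * (F.d * n) ≤ K := by simp only [K]; nlinarith
    have hz2 : z ^ 2 ≤ F.d * z ^ 2 := by nlinarith [sq_nonneg z]
    have e1 : F.s x y z ^ 2 ≤ K := hs.trans hK1
    have e2 : (2 * F.c * y - F.u * z) ^ 2 ≤ K := by
      nlinarith [sq_nonneg z, mul_nonneg hd.le (sq_nonneg z)]
    have e3 : z ^ 2 ≤ K := by nlinarith [sq_nonneg (2 * F.c * y - F.u * z)]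
    have aux : ∀ t : ℤ, t ^ 2 ≤ K → -K ≤ t ∧ t ≤ K := by
      intro t ht
      constructor <;> nlinarith [sq_nonneg (t - 1), sq_nonneg (t + 1), sq_nonneg t]
    obtain ⟨a1, a2⟩ := aux _ e1
    obtain ⟨b1, b2⟩ := aux _ e2
    obtain ⟨c1, c2⟩ := aux _ e3
    simp only [Set.mem_preimage, f, Set.mem_Icc, Prod.mk_le_mk]
    exact ⟨⟨a1, b1, c1⟩, a2, b2, c2⟩
  refine (hfin.image (fun t => t.1 • v1 + t.2.1 • v2 + t.2.2 • v3)).subset ?_
  intro v hv
  obtain ⟨x, y, z, rfl⟩ := h.1 v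
  refine ⟨(x, y, z), ?_, rfl⟩
  simp only [Set.mem_ofPred_eq] at hv ⊢
  rw [← hF]; exact hv

theorem Gr.finite' (hp : 0 < p) (hL : Gr p L q) (n : ℤ) :
    {v : L | IsPrim v ∧ q v = n}.Finite :=
  (hL.finite hp n).subset fun _ h => h.2

end

end Pool.Agent.Lib.MP_1c9ad1_nt
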