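import Mathlib.Tactic
import Mathlib.Data.Int.GCD
import Mathlib.SetTheory.Cardinal.Finite
import Mathlib.Data.Set.Card

/-!
# Rank three lattices with a quadratic form, elementary basis changes
-/

namespace Pool.Agent.Lib.MP_1c9ad1_nt

/-- `v1, v2, v3` is a basis of the abelian group `L` (elementary formulation). -/
def B3 {L : Type*} [AddCommGroup L] (v1 v2 v3 : L) : Prop :=
  (∀ w : L, ∃ x y z : ℤ, w = x • v1 + y • v2 + z • v3) ∧
  (∀ x y z : ℤ, x • v1 + y • v2 + z • v3 = 0 → x = 0 ∧ y = 0 ∧ z = 0)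

/-- `v` is primitive in `L`: it is not a proper multiple of an element of `L`. -/
def IsPrim {L : Type*} [AddCommGroup L] (v : L) : Prop :=
  ∀ (m : ℤ) (w : L), v = m • w → IsUnit m

section basis

variable {L : Type*} [AddCommGroup L] {v1 v2 v3 : L}

theorem B3.inj (h : B3 v1 v2 v3) {x y z x' y' z' : ℤ}
    (e : x • v1 + y • v2 + z • v3 = x' • v1 + y' • v2 + z' • v3) : x = x' ∧ y = y' ∧ z = z' := by
  have := h.2 (x - x') (y - y') (z - z') (by
    have : (x - x') • v1 + (y - y') • v2 + (z - z') • v3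
        = (x • v1 + y • v2 + z • v3) - (x' • v1 + y' • v2 + z' • v3) := by
      simp only [sub_smul]; abel
    rw [this, e, sub_self])
  omega

/-- General change of the first two vectors by a matrix of determinant one. -/
theorem B3.change12 (h : B3 v1 v2 v3) (p q r s : ℤ) (hdet : p * s - q * r = 1) :
    B3 (p • v1 + q • v2) (r • v1 + s • v2) v3 := by
  constructor
  · intro w
    obtain ⟨x, y, z, rfl⟩ := h.1 w
    refine ⟨x * s - y * r, y * p - x * q, z, ?_⟩
    match_scalars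
    · linear_combination (-x) * hdet
    · linear_combination (-y) * hdet
    · ring
  · intro x y z e
    have e' : (x * p + y * r) • v1 + (x * q + y * s) • v2 + z • v3 = 0 := by
      rw [← e]
      simp only [smul_add, smul_smul, add_smul]
      abel
    obtain ⟨e1, e2, e3⟩ := h.2 _ _ _ e'
    refine ⟨?_, ?_, e3⟩
    · linear_combination (-x) * hdet + s * e1 - r * e2
    · linear_combination (-y) * hdet - q * e1 + p * e2

theorem B3.rot (h : B3 v1 v2 v3) : B3 v2 v3 v1 := by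
  constructor
  · intro w
    obtain ⟨x, y, z, rfl⟩ := h.1 w
    exact ⟨y, z, x, by abel⟩
  · intro x y z e
    obtain ⟨e1, e2, e3⟩ := h.2 z x y (by rw [← e]; abel)
    exact ⟨e2, e3, e1⟩

theorem B3.swap23 (h : B3 v1 v2 v3) : B3 v1 v3 v2 := by
  constructor
  · intro w
    obtain ⟨x, y, z, rfl⟩ := h.1 w
    exact ⟨x, z, y, by abel⟩
  · intro x y z e
    obtain ⟨e1, e2, e3⟩ := h.2 x z y (by rw [← e]; abel)
    exact ⟨e1, e3, e2⟩

theorem B3.swap12 (h : B3 v1 v2 v3) : B3 v2 v1 v3 := h.rot.swap23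

theorem B3.neg1 (h : B3 v1 v2 v3) : B3 (-v1) v2 v3 := by
  constructor
  · intro w
    obtain ⟨x, y, z, rfl⟩ := h.1 w
    exact ⟨-x, y, z, by simp⟩
  · intro x y z e
    obtain ⟨e1, e2, e3⟩ := h.2 (-x) y z (by rw [← e]; simp)
    exact ⟨by omega, e2, e3⟩

theorem B3.neg2 (h : B3 v1 v2 v3) : B3 v1 (-v2) v3 := h.swap12.neg1.swap12

theorem B3.neg3 (h : B3 v1 v2 v3) : B3 v1 v2 (-v3) := h.swap23.neg2.swap23

theorem B3.change23 (h : B3 v1 v2 v3) (p q r s : ℤ) (hdet : p * s - q * r = 1) :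
    B3 v1 (p • v2 + q • v3) (r • v2 + s • v3) :=
  (h.rot.change12 p q r s hdet).rot.rot

/-- add multiples of the first vector to the others -/
theorem B3.add1 (h : B3 v1 v2 v3) (m n : ℤ) : B3 v1 (m • v1 + v2) (n • v1 + v3) := by
  have h1 := h.change12 1 0 m 1 (by ring)
  have h2 := h1.swap23.change12 1 0 n 1 (by ring)
  have h3 := h2.swap23
  simpa using h3

/-- in a basis, primitivity says that the coordinates are coprime. -/
theorem B3.prim_iff (h : B3 v1 v2 v3) (x y z : ℤ) :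
    IsPrim (x • v1 + y • v2 + z • v3) ↔ ∀ m : ℤ, m ∣ x → m ∣ y → m ∣ z → IsUnit m := by
  constructor
  · intro hp m ⟨x', hx⟩ ⟨y', hy⟩ ⟨z', hz⟩
    refine hp m (x' • v1 + y' • v2 + z' • v3) ?_
    simp only [smul_add, smul_smul, ← hx, ← hy, ← hz]
  · intro hp m w e
    obtain ⟨x', y', z', rfl⟩ := h.1 w
    simp only [smul_add, smul_smul] at e
    obtain ⟨e1, e2, e3⟩ := h.inj e
    exact hp m ⟨x', e1⟩ ⟨y', e2⟩ ⟨z', e3⟩

/-- every nonzero integral combination of two vectors is a multiple of a unimodular one. -/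
theorem bezout_pair (y z : ℤ) (h : ¬(y = 0 ∧ z = 0)) :
    ∃ g y' z' r s : ℤ, 0 < g ∧ y = g * y' ∧ z = g * z' ∧ y' * s - z' * r = 1 := by
  have hg : 0 < (Int.gcd y z : ℤ) := by
    have : 0 < Int.gcd y z := by
      apply Nat.pos_of_ne_zero
      intro h0
      exact h (Int.gcd_eq_zero_iff.mp h0)
    exact_mod_cast this
  obtain ⟨y', hy⟩ := Int.gcd_dvd_left y z
  obtain ⟨z', hz⟩ := Int.gcd_dvd_right y z
  refine ⟨(Int.gcd y z : ℤ), y', z', -Int.gcdB y z, Int.gcdA y z, hg, hy, hz, ?_⟩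
  have hb := Int.gcd_eq_gcd_ab y z
  have : (Int.gcd y z : ℤ) * (y' * Int.gcdA y z - z' * -Int.gcdB y z) = (Int.gcd y z : ℤ) * 1 := by
    rw [mul_one]
    conv_rhs => rw [hb]
    conv_rhs => rw [show y * Int.gcdA y z = (Int.gcd y z : ℤ) * y' * Int.gcdA y z by rw [← hy]]
    conv_rhs => rw [show z * Int.gcdB y z = (Int.gcd y z : ℤ) * z' * Int.gcdB y z by rw [← hz]]
    ring
  exact mul_left_cancel₀ hg.ne' this

/-- adapt the last two vectors to a second vector -/
theorem B3.adapt (h : B3 v1 v2 v3) (w : L) (hw : ∀ x : ℤ, w ≠ x • v1) :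
    ∃ (i g : ℤ) (w2 w3 : L), 0 < g ∧ w = i • v1 + g • w2 ∧ B3 v1 w2 w3 := by
  obtain ⟨x, y, z, rfl⟩ := h.1 w
  have hyz : ¬(y = 0 ∧ z = 0) := by
    rintro ⟨rfl, rfl⟩
    exact hw x (by simp)
  obtain ⟨g, y', z', r, s, hg, hy, hz, hdet⟩ := bezout_pair y z hyz
  refine ⟨x, g, y' • v2 + z' • v3, r • v2 + s • v3, hg, ?_, h.change23 y' z' r s hdet⟩
  simp only [smul_add, smul_smul, ← hy, ← hz]
  abel

/-- a primitive vector is the first vector of a basis. -/
theorem B3.ext_prim (h : B3 v1 v2 v3) (v : L) (hv : IsPrim v) : ∃ w2 w3 : L, B3 v w2 w3 := by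
  obtain ⟨x, y, z, rfl⟩ := h.1 v
  by_cases hyz : y = 0 ∧ z = 0
  · obtain ⟨rfl, rfl⟩ := hyz
    have hx : IsUnit x := by
      refine hv x v1 (by simp)
    rcases Int.isUnit_iff.mp hx with rfl | rfl
    · exact ⟨v2, v3, by simpa using h⟩
    · exact ⟨v2, v3, by simpa using h.neg1⟩
  · obtain ⟨g, y', z', r, s, hg, hy, hz, hdet⟩ := bezout_pair y z hyz
    have hB := h.change23 y' z' r s hdet
    -- now v = x v1 + g w2
    have hxg : ¬(x = 0 ∧ g = 0) := fun hh => hg.ne' hh.2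
    obtain ⟨g2, x', g', r2, s2, hg2, hx', hg', hdet2⟩ := bezout_pair x g hxg
    have hu : IsUnit g2 := by
      rw [h.prim_iff] at hv
      refine hv g2 ⟨x', hx'⟩ ?_ ?_
      · rw [hy]; exact Dvd.dvd.mul_right ⟨g', hg'⟩ _
      · rw [hz]; exact Dvd.dvd.mul_right ⟨g', hg'⟩ _
    have hg21 : g2 = 1 := by
      rcases Int.isUnit_iff.mp hu with h1 | h1 <;> omega
    subst hg21
    rw [one_mul] at hx' hg'
    have hC := hB.change12 x' g' r2 s2 hdet2
    refine ⟨r2 • v1 + s2 • (y' • v2 + z' • v3), r • v2 + s • v3, ?_⟩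
    convert hC using 1
    rw [← hx', ← hg']
    simp only [smul_add, smul_smul, ← hy, ← hz]
    abel

end basis

end Pool.Agent.Lib.MP_1c9ad1_nt
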