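import Pool.Agent.Lib.MP_1c9ad1_nt.Dom

/-!
# Domination of primitive representation numbers up to `2p` forces isometry
-/

namespace Pool.Agent.Lib.MP_1c9ad1_nt

theorem TF.Q_100 (F : TF) (x : ℤ) : F.Q x 0 0 = F.d * x ^ 2 := by
  simp only [TF.Q, TF.d]; ring

theorem cop_one_left (y z : ℤ) : Cop (1, y, z) := fun _ h _ _ => isUnit_of_dvd_one h

theorem cop_one_mid (x z : ℤ) : Cop (x, 1, z) := fun _ _ h _ => isUnit_of_dvd_one h

theorem cop_one_right (x y : ℤ) : Cop (x, y, 1) := fun _ _ _ h => isUnit_of_dvd_one h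

variable {p : ℕ} {L L' : Type*} [AddCommGroup L] [AddCommGroup L'] {q : L → ℤ} {q' : L' → ℤ}
  {v1' v2' v3' : L'} {F' : TF}

theorem stepB (hp : p.Prime) (hL : Gr p L q) (hL' : Gr p L' q') (hH' : Has p q' v1' v2' v3' F')
    (hR : Red p F') (dom : ∀ n : ℤ, 1 ≤ n → n ≤ 2 * p → cnt q' n ≤ cnt q n) :
    ∃ v1 w2 w3 : L, ∃ F : TF, ∃ i g : ℤ, Has p q v1 w2 w3 F ∧ F.d = F'.d ∧ 0 < g ∧
      F.c * g ^ 2 = F'.c ∧ F.d * i + F.A1 * g = F'.A1 ∧ 2 * |F.A1| ≤ F.d := by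
  have hp0 : 0 < p := hp.pos
  -- a vector of norm d
  have hd := hR.hd
  have hdom1 := dom F'.d (by omega) (hR.d_le hp.two_le)
  rw [cnt_eq hH'.bas hH'.hF] at hdom1
  have hmem : ((1, 0, 0) : ℤ × ℤ × ℤ) ∈ Sol F' F'.d := by
    refine ⟨cop_one_left 0 0, ?_⟩
    simp [TF.Q_100]
  have hpos : 0 < (Sol F' F'.d).ncard :=
    (Set.ncard_pos (Sol_finite hp0 hL' hH'.bas hH'.hF _)).mpr ⟨_, hmem⟩
  have hne : {v : L | IsPrim v ∧ q v = F'.d}.Nonempty := by
    apply Set.nonempty_of_ncard_ne_zero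
    unfold cnt at hdom1
    omega
  obtain ⟨v1, hv1, hq1⟩ := hne
  obtain ⟨e1, e2, e3, he⟩ := hL.exB
  obtain ⟨f2, f3, hf⟩ := he.ext_prim v1 hv1
  obtain ⟨F0, hN0, hF0⟩ := hL.form _ _ _ hf
  have hd0 : F0.d = F'.d := by
    have := hF0 1 0 0
    rw [F0.Q_100] at this
    have h1 : (1:ℤ) • v1 + (0:ℤ) • f2 + (0:ℤ) • f3 = v1 := by module
    rw [h1, hq1] at this
    linarith
  -- second vector
  have hn1 : (1 : ℤ) ≤ F'.Q 0 1 0 := by have := hR.hmin; omega
  have hdom2 := dom _ hn1 (hR.n1_le hp.two_le)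
  rw [cnt_eq hH'.bas hH'.hF, cnt_eq hf hF0] at hdom2
  obtain ⟨⟨x, y, z⟩, ⟨_, ht2⟩, htP⟩ := exists_not (Sol_finite hp0 hL' hH'.bas hH'.hF _) hdom2
    (t0 := (0, 1, 0)) ⟨cop_one_mid 0 0, rfl⟩ (fun t => t.2.1 = 0 ∧ t.2.2 = 0) (by
      rintro ⟨x, y, z⟩ ⟨h1, h2⟩ ⟨h3, h4⟩
      simp only at h3 h4
      subst h3 h4
      refine ⟨⟨h1, ?_⟩, by simp⟩
      simp only [TF.Q_100] at h2 ⊢
      rw [← hd0]; exact h2)
  simp only at ht2 htP
  have hw : ∀ m : ℤ, x • v1 + y • f2 + z • f3 ≠ m • v1 := by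
    intro m e
    have e' : x • v1 + y • f2 + z • f3 = m • v1 + (0:ℤ) • f2 + (0:ℤ) • f3 := by
      rw [e]; module
    obtain ⟨_, h2, h3⟩ := hf.inj e'
    exact htP ⟨h2, h3⟩
  obtain ⟨i, g, w2, w3, hg, hv2, hw23⟩ := hf.adapt _ hw
  have hq2 : q (i • v1 + g • w2) = F'.Q 0 1 0 := by
    rw [← hv2, hF0]; exact ht2
  -- normalise w2
  obtain ⟨F1, hN1, hF1⟩ := hL.form _ _ _ hw23
  have hH1 : Has p q v1 w2 w3 F1 := ⟨hw23, hN1, hF1⟩
  have hd1 : 0 < F1.d := hL.d_pos hw23 hF1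
  obtain ⟨m, hm⟩ := near F1.d hd1 F1.A1
  have hH2 := hH1.add1 m 0
  set F2 := F1.add1 m 0 with hF2def
  have e1 : F2.d = F1.d := by simp only [hF2def, TF.d, TF.add1]
  have e2 : F2.A1 = F1.A1 + m * F1.d := by simp only [hF2def, TF.d, TF.A1, TF.add1]; ring
  have hd2 : F2.d = F'.d := by
    have := hH2.hF 1 0 0
    rw [F2.Q_100] at this
    have h1 : (1:ℤ) • v1 + (0:ℤ) • (m • v1 + w2) + (0:ℤ) • ((0:ℤ) • v1 + w3) = v1 := by module
    rw [h1, hq1] at this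
    linarith
  have hc2 := hL.c_pos hp0 hH2.bas hH2.hN hH2.hF
  have hq3 : F2.Q (i - m * g) g 0 = F'.Q 0 1 0 := by
    rw [← hq2, ← hH2.hF]
    congr 1
    module
  have hkey := F2.key (i - m * g) g 0
  have hkey' := hR.keyA
  rw [hq3, hH2.hN, hd2] at hkey
  have hk2 : F2.k g 0 = F2.c * g ^ 2 := by simp only [TF.k]; ring
  have hs2 : F2.s (i - m * g) g 0 = F2.d * (i - m * g) + F2.A1 * g := by
    simp only [TF.s]; ring
  rw [hk2, hs2] at hkey
  have hkpos : 1 ≤ F2.c * g ^ 2 := by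
    have : 0 < F2.c * g ^ 2 := by positivity
    omega
  obtain ⟨hu1, hu2⟩ := uniq hp (κ := F'.c) (k := F2.c * g ^ 2) (σ := F'.A1)
    (s := F2.d * (i - m * g) + F2.A1 * g) (by linarith) hkpos hR.hc.le (hR.condc hp hR.hA1)
  have hm' : 2 * |F2.A1| ≤ F2.d := by rw [e1, e2]; exact hm
  rcases sq_eq_sq_iff_eq_or_eq_neg.mp hu2 with h | h
  · exact ⟨v1, _, _, F2, i - m * g, g, hH2, hd2, hg, hu1, h, hm'⟩
  · refine ⟨v1, _, _, F2.neg2, -(i - m * g), g, hH2.neg2, ?_, hg, ?_, ?_, ?_⟩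
    · rw [← hd2]; simp only [TF.d, TF.neg2]; ring
    · rw [← hu1]; simp only [TF.neg2]
    · have e3 : F2.neg2.d = F2.d := by simp only [TF.d, TF.neg2]; ring
      have e4 : F2.neg2.A1 = -F2.A1 := by simp only [TF.A1, TF.neg2]; ring
      rw [e3, e4]; linarith
    · have e3 : F2.neg2.d = F2.d := by simp only [TF.d, TF.neg2]; ring
      have e4 : F2.neg2.A1 = -F2.A1 := by simp only [TF.A1, TF.neg2]; ring
      rw [e3, e4, abs_neg]; exact hm'

/-- the case `g ≥ 2` is impossible -/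
theorem stepG (hp : p.Prime) (hL' : Gr p L' q') (hH' : Has p q' v1' v2' v3' F')
    (hR : Red p F') (dom : ∀ n : ℤ, 1 ≤ n → n ≤ 2 * p → cnt q' n ≤ cnt q n)
    {v1 w2 w3 : L} {F : TF} {i g : ℤ} (hL : Gr p L q) (hH : Has p q v1 w2 w3 F) (hd : F.d = F'.d)
    (hg : 0 < g) (hc : F.c * g ^ 2 = F'.c) (hs : F.d * i + F.A1 * g = F'.A1)
    (hA1 : 2 * |F.A1| ≤ F.d) : g = 1 := by
  by_contra hg1
  have hg2 : 2 ≤ g := by omega
  have hp0 : 0 < p := hp.pos
  have hp2 : (2 : ℤ) ≤ p := by exact_mod_cast hp.two_le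
  have hFc := hL.c_pos hp0 hH.bas hH.hN hH.hF
  have hFd := hR.hd
  set σ := F.A1 * g with hσ
  -- the value n3
  set n3 := F'.Q (-i) 1 0 with hn3
  have hkey3 : F'.d * n3 = σ ^ 2 + 4 * (p : ℤ) * F'.c := by
    have := F'.key (-i) 1 0
    rw [hR.hN] at this
    rw [hn3, this]
    have h1 : F'.s (-i) 1 0 = σ := by
      simp only [TF.s]
      rw [← hd, ← hs]; ring
    have h2 : F'.k 1 0 = F'.c := by simp only [TF.k]; ring
    rw [h1, h2]
  have hr2 := hR.r2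
  have hr3 := hR.r3
  have hcg : g ^ 2 ≤ F'.c := by rw [← hc]; nlinarith
  have hc4 : 4 ≤ F'.c := by nlinarith
  have hσ2 : 4 * σ ^ 2 ≤ F'.c * F'.d ^ 2 := by
    have h1 : 4 * F.A1 ^ 2 ≤ F'.d ^ 2 := by
      rw [← sq_abs F.A1, ← hd]
      nlinarith [abs_nonneg F.A1]
    have h2 : σ ^ 2 = F.A1 ^ 2 * g ^ 2 := by rw [hσ]; ring
    rw [h2]
    nlinarith [sq_nonneg F.A1, sq_nonneg g]
  have hσ3 : 9 * σ ^ 2 ≤ 4 * (p : ℤ) * F'.d := by
    have h1 : 12 * σ ^ 2 ≤ 16 * (p : ℤ) * F'.c ^ 2 := by nlinarith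
    have h2 : 3 * (16 * (p : ℤ) * F'.c ^ 2) ≤ 16 * (p : ℤ) * F'.d := by nlinarith
    linarith
  have hn3le : n3 ≤ 2 * p := by
    have : F'.d * n3 ≤ F'.d * (2 * p) := by
      rw [hkey3]
      nlinarith
    exact le_of_mul_le_mul_left this hFd
  have hn3pos : 1 ≤ n3 := by
    have : 0 < F'.d * n3 := by
      rw [hkey3]
      have : 0 < 4 * (p : ℤ) * F'.c := by
        have := hR.hc
        positivity
      nlinarith [sq_nonneg σ]
    have := (mul_pos_iff_of_pos_left hFd).mp this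
    omega
  -- uniqueness condition
  have hcondodd : p ≠ 2 ∧ F'.c + |σ| < p := by
    have h1 : p ≠ 2 := by
      rcases hR.cond hp with h | h
      · exact h.1
      · omega
    refine ⟨h1, ?_⟩
    -- 16 c (c + |σ|) < 16 c p
    have h2 : 2 * |σ| ≤ g * F'.d := by
      rw [hσ, abs_mul, abs_of_pos hg, ← hd]
      nlinarith
    have h3 : 16 * F'.c ^ 2 + 8 * F'.c * (g * F'.d) < 3 * F'.d ^ 2 := by
      -- 3 g^4 c0^2 ≤ d, c = c0 g^2
      have hc0 : 1 ≤ F.c := hFc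
      have h4 : 3 * (F.c * g ^ 2) ^ 2 ≤ F'.d := by rw [hc]; exact hr2
      have h5 : F'.c * g * 2 ≤ F'.c ^ 2 := by
        have : g * 2 ≤ F'.c := by nlinarith
        nlinarith
      -- 8 c g d ≤ 4 c^2 d ≤ (4/3) d^2
      have h6 : 8 * F'.c * (g * F'.d) ≤ 4 * F'.c ^ 2 * F'.d := by nlinarith
      have h7 : 3 * (4 * F'.c ^ 2 * F'.d) ≤ 4 * F'.d ^ 2 := by nlinarith
      have h8 : 48 ≤ F'.d := by nlinarith
      have h9 : 3 * (16 * F'.c ^ 2) ≤ 16 * F'.d := by nlinarith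
      nlinarith
    have h5 : (16 * F'.c) * (F'.c + |σ|) < (16 * F'.c) * p := by
      have hcpos := hR.hc
      nlinarith [abs_nonneg σ]
    exact lt_of_mul_lt_mul_left h5 (by linarith)
  have hdom3 := dom n3 hn3pos hn3le
  rw [cnt_eq hH'.bas hH'.hF, cnt_eq hH.bas hH.hF] at hdom3
  -- injection of Sol F n3 into Sol F' n3 minus (-i,1,0)
  have hfin' := Sol_finite hp0 hL' hH'.bas hH'.hF n3
  have ht0 : ((-i, 1, 0) : ℤ × ℤ × ℤ) ∈ Sol F' n3 := ⟨cop_one_mid _ _, rfl⟩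
  -- description of Sol F n3
  have hdesc : ∀ x y z : ℤ, (x, y, z) ∈ Sol F n3 →
      z = 0 ∧ (y = 0 ∨ y = g ∨ y = -g) := by
    rintro x y z ⟨_, h2⟩
    simp only at h2
    by_cases hyz : y = 0 ∧ z = 0
    · exact ⟨hyz.2, Or.inl hyz.1⟩
    have hk := TF.k_pos (F := F) (by rw [hd]; exact hFd) hFc hyz
    have hkey := F.key x y z
    rw [h2, hH.hN, hd, hkey3] at hkey
    obtain ⟨hu1, hu2⟩ := uniq hp (κ := F'.c) (k := F.k y z) (σ := σ) (s := F.s x y z)
      (by linarith) (by omega) hR.hc.le (Or.inl hcondodd)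
    have hkey2 := F.key2 y z
    rw [hu1, hd] at hkey2
    have hz : z = 0 := by
      by_contra hz
      have hz1 : 1 ≤ z ^ 2 := by
        have : 0 < z ^ 2 := by positivity
        omega
      -- 4 c0 c < d
      have h3 : 4 * F.c * F'.c < F'.d := by
        have hg4 : 4 ≤ g ^ 2 := by nlinarith
        have : 4 * F.c ≤ F'.c := by
          rw [← hc, mul_comm 4 F.c]
          exact mul_le_mul_of_nonneg_left hg4 hFc.le
        nlinarith
      nlinarith [sq_nonneg (2 * F.c * y - F.u * z)]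
    subst hz
    refine ⟨rfl, Or.inr ?_⟩
    have h4 : F.k y 0 = F.c * y ^ 2 := by simp only [TF.k]; ring
    rw [h4, ← hc] at hu1
    have h5 : y ^ 2 = g ^ 2 := mul_left_cancel₀ hFc.ne' hu1
    exact sq_eq_sq_iff_eq_or_eq_neg.mp h5
  have hle : (Sol F n3).ncard ≤ (Sol F' n3 \ {(-i, 1, 0)}).ncard := by
    refine Set.ncard_le_ncard_of_injOn
      (fun t => ((t.1 - i * (t.2.1 / g), t.2.1 / g, 0) : ℤ × ℤ × ℤ)) ?_ ?_
      (hfin'.subset Set.sdiff_subset)
    · rintro ⟨x, y, z⟩ ht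
      obtain ⟨hz, hy⟩ := hdesc x y z ht
      subst hz
      obtain ⟨h1, h2⟩ := ht
      simp only at h2
      have hkey := F.key x y 0
      rw [h2, hH.hN, hd] at hkey
      -- y = g * e with e ∈ {0, 1, -1}
      obtain ⟨e, he, hee⟩ : ∃ e : ℤ, y = g * e ∧ (e = 0 ∨ e = 1 ∨ e = -1) := by
        rcases hy with rfl | rfl | rfl
        · exact ⟨0, by ring, by simp⟩
        · exact ⟨1, by ring, by simp⟩
        · exact ⟨-1, by ring, by simp⟩
      subst he
      have hdiv : g * e / g = e := Int.mul_ediv_cancel_left e hg.ne'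
      simp only [hdiv]
      have hQ : F'.Q (x - i * e) e 0 = n3 := by
        have hk' := F'.key (x - i * e) e 0
        rw [hR.hN] at hk'
        have h3 : F'.s (x - i * e) e 0 = F.s x (g * e) 0 := by
          simp only [TF.s]
          rw [← hs, ← hd]; ring
        have h4 : F'.k e 0 = F.k (g * e) 0 := by
          simp only [TF.k]
          rw [← hc]; ring
        rw [h3, h4, ← hkey] at hk'
        exact mul_left_cancel₀ hFd.ne' hk'
      refine ⟨⟨?_, hQ⟩, ?_⟩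
      · intro m hm1 hm2 _
        simp only at hm1 hm2
        refine h1 m ?_ ?_ ?_
        · have : x = (x - i * e) + i * e := by ring
          simp only
          rw [this]
          exact dvd_add hm1 (Dvd.dvd.mul_left hm2 _)
        · exact Dvd.dvd.mul_left hm2 _
        · exact dvd_zero _
      · simp only [Set.mem_singleton_iff, Prod.mk.injEq, and_true, not_and]
        intro h5 h6
        subst h6
        have hx : x = 0 := by linarith
        subst hx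
        have := h1 g (dvd_zero _) (Dvd.intro _ rfl) (dvd_zero _)
        rw [Int.isUnit_iff] at this
        omega
    · rintro ⟨x, y, z⟩ ht ⟨x', y', z'⟩ ht' e
      obtain ⟨hz, hy⟩ := hdesc x y z ht
      obtain ⟨hz', hy'⟩ := hdesc x' y' z' ht'
      simp only [Prod.mk.injEq, and_true] at e
      obtain ⟨e1, e2⟩ := e
      have hdvd : ∀ y : ℤ, (y = 0 ∨ y = g ∨ y = -g) → g ∣ y := by
        rintro y (rfl | rfl | rfl)
        · exact dvd_zero _
        · exact dvd_rfl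
        · exact (dvd_neg).mpr dvd_rfl
      have hyy : y = y' := by
        rw [← Int.mul_ediv_cancel' (hdvd y hy), ← Int.mul_ediv_cancel' (hdvd y' hy'), e2]
      subst hyy
      have hxx : x = x' := by linarith
      subst hxx hz hz'
      rfl
  have := Set.ncard_sdiff_singleton_add_one ht0 hfin'
  omega

end Pool.Agent.Lib.MP_1c9ad1_nt
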