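import Pool.Agent.Lib.MP_1c9ad1_nt.Main2

/-!
# Domination of primitive representation numbers up to `2p` forces isometry: conclusion
-/

namespace Pool.Agent.Lib.MP_1c9ad1_nt

variable {p : ℕ} {L L' : Type*} [AddCommGroup L] [AddCommGroup L'] {q : L → ℤ} {q' : L' → ℤ}
  {v1' v2' v3' : L'} {F' : TF}

theorem TF.Q_ext {F F' : TF} (hN : F.N = F'.N) (hd : F.d = F'.d) (hd0 : F'.d ≠ 0)
    (hA1 : F.A1 = F'.A1) (hA2 : F.A2 = F'.A2) (hb : F.b = F'.b) (hc : F.c = F'.c)
    (hu : F.u = F'.u) (x y z : ℤ) : F.Q x y z = F'.Q x y z := by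
  have h1 := F.key x y z
  have h2 := F'.key x y z
  have h3 : F.s x y z = F'.s x y z := by simp only [TF.s]; rw [hd, hA1, hA2]
  have h4 : F.k y z = F'.k y z := by simp only [TF.k]; rw [hb, hc, hu]
  rw [h3, h4, hN, hd, ← h2] at h1
  exact mul_left_cancel₀ hd0 h1

theorem TF.Q_ext2 {F F' : TF} (hN : F.N = F'.N) (hd : F.d = F'.d) (hd0 : F'.d ≠ 0)
    (hA1 : F.A1 = F'.A1) (hc : F.c = F'.c) (x y : ℤ) : F.Q x y 0 = F'.Q x y 0 := by
  have h1 := F.key x y 0
  have h2 := F'.key x y 0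
  have h3 : F.s x y 0 = F'.s x y 0 := by simp only [TF.s]; rw [hd, hA1]; ring
  have h4 : F.k y 0 = F'.k y 0 := by simp only [TF.k]; rw [hc]; ring
  rw [h3, h4, hN, hd, ← h2] at h1
  exact mul_left_cancel₀ hd0 h1

/-- the third vector -/
theorem stepC (hp : p.Prime) (hL : Gr p L q) (hL' : Gr p L' q') (hH' : Has p q' v1' v2' v3' F')
    (hR : Red p F') (dom : ∀ n : ℤ, 1 ≤ n → n ≤ 2 * p → cnt q' n ≤ cnt q n) :
    ∃ v1 v2 v3 : L, ∃ F : TF, Has p q v1 v2 v3 F ∧ F.d = F'.d ∧ F.c = F'.c ∧ F.b = F'.b ∧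
      F.A1 = F'.A1 ∧ F.A2 = F'.A2 ∧ F.u ^ 2 = F'.u ^ 2 := by
  have hp0 : 0 < p := hp.pos
  obtain ⟨v1, w2, w3, F, i, g, hH, hd, hg, hc, hs, hA1⟩ := stepB hp hL hL' hH' hR dom
  have hg1 := stepG hp hL' hH' hR dom hL hH hd hg hc hs hA1
  subst hg1
  have hH1 := hH.add1 i 0
  set F1 := F.add1 i 0 with hF1def
  set v2 := i • v1 + w2 with hv2
  set w3' := (0:ℤ) • v1 + w3 with hw3'
  have hd1 : F1.d = F'.d := by rw [← hd]; simp only [hF1def, TF.d, TF.add1]
  have hc1 : F1.c = F'.c := by rw [← hc]; simp only [hF1def, TF.add1]; ring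
  have hA11 : F1.A1 = F'.A1 := by
    rw [← hs]; simp only [hF1def, TF.d, TF.A1, TF.add1]; ring
  have hdne : F'.d ≠ 0 := hR.hd.ne'
  have hF1d : 0 < F1.d := by rw [hd1]; exact hR.hd
  have hF1c : 0 < F1.c := by rw [hc1]; exact hR.hc
  -- value n2
  have hkeyB := hR.keyB
  have hn2pos : 1 ≤ F'.Q 0 0 1 := by
    have h := hH'.hF 0 0 1
    rw [← h]
    have := hL'.pos _ (hH'.bas.ne_of_coord (x := 0) (y := 0) (z := 1) (by simp))
    omega
  have hdom := dom _ hn2pos (hR.n2_le hp.two_le)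
  rw [cnt_eq hH'.bas hH'.hF, cnt_eq hH1.bas hH1.hF] at hdom
  obtain ⟨⟨x, y, z⟩, ⟨_, ht2⟩, htP⟩ := exists_not (Sol_finite hp0 hL' hH'.bas hH'.hF _) hdom
    (t0 := (0, 0, 1)) ⟨cop_one_right 0 0, rfl⟩ (fun t => t.2.2 = 0) (by
      rintro ⟨x, y, z⟩ ⟨h1, h2⟩ h3
      simp only at h3
      subst h3
      refine ⟨⟨h1, ?_⟩, by simp⟩
      simp only at h2 ⊢
      rw [← h2]
      exact (TF.Q_ext2 (hH1.hN.trans hR.hN.symm) hd1 hdne hA11 hc1 x y).symm)
  simp only at ht2 htP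
  have hk := TF.k_pos (F := F1) hF1d hF1c (y := y) (z := z) (fun h => htP h.2)
  have hkey := F1.key x y z
  rw [ht2, hH1.hN, hd1, hkeyB] at hkey
  obtain ⟨hu1, hu2⟩ := uniq hp (κ := F'.b) (k := F1.k y z) (σ := F'.A2) (s := F1.s x y z)
    (by linarith) (by omega) (by have := hR.hc; have := hR.hcb; omega) (hR.condb hp hR.hA2)
  have hz2 : z ^ 2 = 1 := by
    have h1 := F1.key2 y z
    rw [hu1, hd1, hc1] at h1
    have h2 := hR.u_sq
    have h3 := hR.r2
    have h4 : F'.d = 4 * F'.b * F'.c - F'.u ^ 2 := rfl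
    have hzpos : 0 < z ^ 2 := by positivity
    have h5 : z ^ 2 < 2 := by
      by_contra hcon
      push Not at hcon
      have hd' := hR.hd
      nlinarith [sq_nonneg (2 * F'.c * y - F1.u * z)]
    omega
  -- choose the sign
  obtain ⟨x, y, z, hz, hq3, hs3⟩ : ∃ x y z : ℤ, (z = 1 ∨ z = -1) ∧ F1.Q x y z = F'.Q 0 0 1 ∧
      F1.s x y z = F'.A2 := by
    have hz : z = 1 ∨ z = -1 := by
      have h := sq_eq_sq_iff_eq_or_eq_neg.mp (hz2.trans (one_pow 2).symm)
      exact h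
    rcases sq_eq_sq_iff_eq_or_eq_neg.mp hu2 with h | h
    · exact ⟨x, y, z, hz, ht2, h⟩
    · refine ⟨-x, -y, -z, by omega, ?_, ?_⟩
      · rw [F1.Q_neg]; exact ht2
      · have : F1.s (-x) (-y) (-z) = - F1.s x y z := by simp only [TF.s]; ring
        rw [this, h]; ring
  -- the new basis
  obtain ⟨v3, F2, hH2, e1, e2, e3, e4, e5⟩ : ∃ v3 : L, ∃ F2 : TF, Has p q v1 v2 v3 F2 ∧
      F2.d = F1.d ∧ F2.c = F1.c ∧ F2.A1 = F1.A1 ∧ F2.A2 = F1.s x y z ∧
      F2.Q 0 0 1 = F1.Q x y z := by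
    rcases hz with rfl | rfl
    · have hK := (hH1.add3 y).add1 0 x
      have e : (0:ℤ) • v1 + v2 = v2 := by module
      rw [e] at hK
      refine ⟨_, _, hK, ?_, ?_, ?_, ?_, ?_⟩
      · simp only [TF.d, TF.add1, TF.add3]; ring
      · simp only [TF.add1, TF.add3]
      · simp only [TF.A1, TF.add1, TF.add3]; ring
      · simp only [TF.A1, TF.A2, TF.s, TF.d, TF.add1, TF.add3]; ring
      · simp only [TF.Q, TF.add1, TF.add3]; ring
    · have hK := (hH1.neg3.add3 y).add1 0 x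
      have e : (0:ℤ) • v1 + v2 = v2 := by module
      rw [e] at hK
      refine ⟨_, _, hK, ?_, ?_, ?_, ?_, ?_⟩
      · simp only [TF.d, TF.add1, TF.add3, TF.neg3]; ring
      · simp only [TF.add1, TF.add3, TF.neg3]
      · simp only [TF.A1, TF.add1, TF.add3, TF.neg3]; ring
      · simp only [TF.A1, TF.A2, TF.s, TF.d, TF.add1, TF.add3, TF.neg3]; ring
      · simp only [TF.Q, TF.add1, TF.add3, TF.neg3]; ring
  have hb2 : F2.b = F'.b := by
    have h1 := F2.key 0 0 1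
    have h2 : F2.s 0 0 1 = F2.A2 := by simp only [TF.s]; ring
    have h3 : F2.k 0 1 = F2.b := by simp only [TF.k]; ring
    rw [h2, h3, hH2.hN, e5, e4, hs3, hq3, e1, hd1, hkeyB] at h1
    have h4 : (4 * (p : ℤ)) * F2.b = (4 * (p : ℤ)) * F'.b := by linarith
    have h5 : (4 * (p : ℤ)) ≠ 0 := by
      have : (0 : ℤ) < p := by exact_mod_cast hp0
      positivity
    exact mul_left_cancel₀ h5 h4
  refine ⟨v1, v2, v3, F2, hH2, e1.trans hd1, e2.trans hc1, hb2, e3.trans hA11,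
    e4.trans hs3, ?_⟩
  have h1 : F2.d = 4 * F2.b * F2.c - F2.u ^ 2 := rfl
  have h2 : F'.d = 4 * F'.b * F'.c - F'.u ^ 2 := rfl
  rw [e1.trans hd1, hb2, e2.trans hc1] at h1
  linarith

/-- Main theorem on lattices. -/
theorem Gr.isometric_of_dom (hp : p.Prime) (hL : Gr p L q) (hL' : Gr p L' q')
    (dom : ∀ n : ℤ, 1 ≤ n → n ≤ 2 * p → cnt q' n ≤ cnt q n) :
    ∃ v1 v2 v3 : L, ∃ v1' v2' v3' : L', B3 v1 v2 v3 ∧ B3 v1' v2' v3' ∧
      ∀ x y z : ℤ, q (x • v1 + y • v2 + z • v3) = q' (x • v1' + y • v2' + z • v3') := by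
  have hp0 : 0 < p := hp.pos
  obtain ⟨v1', v2', v3', F', hH', hR⟩ := hL'.exists_red hp0
  obtain ⟨v1, v2, v3, F, hH, hd, hc, hb, hA1, hA2, hu⟩ := stepC hp hL hL' hH' hR dom
  have hNN : F.N = F'.N := hH.hN.trans hR.hN.symm
  have hdne : F'.d ≠ 0 := hR.hd.ne'
  by_cases hu1 : F.u = F'.u
  · refine ⟨v1, v2, v3, v1', v2', v3', hH.bas, hH'.bas, ?_⟩
    intro x y z
    rw [hH.hF, hH'.hF]
    exact TF.Q_ext hNN hd hdne hA1 hA2 hb hc hu1 x y z
  · have hu2 : F.u = -F'.u := by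
      rcases sq_eq_sq_iff_eq_or_eq_neg.mp hu with h | h
      · exact absurd h hu1
      · exact h
    have hune : F'.u ≠ 0 := by
      intro h
      apply hu1
      rw [hu2, h]; ring
    -- d divides 4 p u
    have hdiv : F'.d ∣ 4 * (p : ℤ) * F'.u := by
      have h1 := F.key 0 1 1
      have h2 := F'.key 0 1 1
      have h3 : F.s 0 1 1 = F'.s 0 1 1 := by simp only [TF.s]; rw [hd, hA1, hA2]
      have h4 : F.k 1 1 = F'.k 1 1 + 2 * F'.u := by
        simp only [TF.k]; rw [hb, hc, hu2]; ring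
      have h5 := F.key 0 1 0
      have h6 := F'.key 0 1 0
      have h7 : F.s 0 1 0 = F'.s 0 1 0 := by simp only [TF.s]; rw [hd, hA1, hA2]
      have h8 : F.k 1 0 = F'.k 1 0 := by simp only [TF.k]; rw [hb, hc, hu2]; ring
      have h9 := F.key 0 0 1
      have h10 := F'.key 0 0 1
      have h11 : F.s 0 0 1 = F'.s 0 0 1 := by simp only [TF.s]; rw [hd, hA1, hA2]
      have h12 : F.k 0 1 = F'.k 0 1 := by simp only [TF.k]; rw [hb, hc, hu2]; ring
      rw [h3, h4, hH.hN, hd] at h1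
      rw [h7, h8, hH.hN, hd] at h5
      rw [h11, h12, hH.hN, hd] at h9
      rw [hR.hN] at h2 h6 h10
      refine ⟨(F.v * F.w - 2 * F.a * F.u) - (F'.v * F'.w - 2 * F'.a * F'.u), ?_⟩
      have h13 : F.Q 0 1 1 = F.Q 0 1 0 + F.Q 0 0 1 + 2 * (F.v * F.w - 2 * F.a * F.u) := by
        simp only [TF.Q]; ring
      have h14 : F'.Q 0 1 1
          = F'.Q 0 1 0 + F'.Q 0 0 1 + 2 * (F'.v * F'.w - 2 * F'.a * F'.u) := by
        simp only [TF.Q]; ring
      rw [h13] at h1
      rw [h14] at h2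
      linarith
    have hr2 := hR.r2
    have hr3 := hR.r3
    have husq := hR.u_sq
    have hdpos := hR.hd
    have hcpos := hR.hc
    by_cases hpd : (p : ℤ) ∣ F'.d
    · -- d = p, A1 = A2 = 0
      have hpr : Prime (p : ℤ) := Nat.prime_iff_prime_int.mp hp
      have hp2 : (2 : ℤ) ≤ p := by exact_mod_cast hp.two_le
      obtain ⟨e, he⟩ := hpd
      have he1 : 1 ≤ e := by
        by_contra hcon
        push Not at hcon
        have : e ≤ 0 := by omega
        nlinarith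
      have he2 : e = 1 := by
        by_contra hcon
        have he3 : 2 ≤ e := by omega
        rw [he] at hr2 hr3
        have h1 : (p : ℤ) * (3 * p * e ^ 2) ≤ (p : ℤ) * (16 * F'.c) := by nlinarith
        have h2 : 3 * p * e ^ 2 ≤ 16 * F'.c := le_of_mul_le_mul_left h1 (by linarith)
        -- 3 p e^2 ≤ 16 c, 3 c^2 ≤ p e
        have h3 : 6 * (p * e) ≤ 16 * F'.c := by nlinarith
        have h4 : 18 * F'.c ^ 2 ≤ 16 * F'.c := by nlinarith
        have h5 : F'.c < 1 := by nlinarith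
        omega
      rw [he2, mul_one] at he
      have hA2z : F'.A2 = 0 := by
        have h1 := hR.keyB
        have h2 : (p : ℤ) ∣ F'.A2 ^ 2 := by
          refine ⟨F'.Q 0 0 1 - 4 * F'.b, ?_⟩
          rw [he] at h1; linarith
        have h3 : (p : ℤ) ∣ F'.A2 := hpr.dvd_of_dvd_pow h2
        have h4 := hR.hA2
        rw [he] at h4
        by_contra hne
        have h5 := Int.le_of_dvd (abs_pos.mpr hne) ((dvd_abs _ _).mpr h3)
        linarith [abs_pos.mpr hne]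
      have hK := hH.neg3
      refine ⟨v1, v2, -v3, v1', v2', v3', hK.bas, hH'.bas, ?_⟩
      intro x y z
      rw [hK.hF, hH'.hF]
      refine TF.Q_ext (hK.hN.trans hR.hN.symm) ?_ hdne ?_ ?_ ?_ ?_ ?_ x y z
      · rw [← hd]; simp only [TF.d, TF.neg3]; ring
      · rw [← hA1]; simp only [TF.A1, TF.neg3]; ring
      · have : F.neg3.A2 = -F.A2 := by simp only [TF.A2, TF.neg3]; ring
        rw [this, hA2, hA2z]; ring
      · exact hb
      · exact hc
      · have : F.neg3.u = -F.u := rfl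
        rw [this, hu2]; ring
    · exfalso
      have hcop : IsCoprime F'.d (p : ℤ) := by
        rw [isCoprime_comm]
        rw [Int.isCoprime_iff_gcd_eq_one]
        have := (Nat.Prime.coprime_iff_not_dvd hp).mpr (fun h => hpd (Int.natCast_dvd.mpr h))
        simpa [Int.gcd] using this
      have h1 : F'.d ∣ 4 * F'.u := by
        have : F'.d ∣ (p : ℤ) * (4 * F'.u) := by
          convert hdiv using 1; ring
        exact hcop.dvd_of_dvd_mul_left this
      have h2 : F'.d ≤ |4 * F'.u| :=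
        Int.le_of_dvd (abs_pos.mpr (by omega)) ((dvd_abs _ _).mpr h1)
      have h3 : |4 * F'.u| = 4 * |F'.u| := by rw [abs_mul]; norm_num
      have h4 := hR.hu
      have h5 : F'.c < 2 := by nlinarith
      have h6 : F'.c = 1 := by omega
      have h7 : |F'.u| = 1 := by
        have := Int.one_le_abs hune
        omega
      have h8 : F'.u ^ 2 = 1 := by rw [← sq_abs, h7]; norm_num
      have h9 : F'.d = 4 * F'.b * F'.c - F'.u ^ 2 := rfl
      rw [h6, h8] at h9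
      have h10 := hR.r1
      rw [h6] at h10
      have h11 : F'.d = 3 := by omega
      rw [h11] at h1
      rcases (abs_eq (by norm_num)).mp h7 with h | h <;> rw [h] at h1 <;> omega

end Pool.Agent.Lib.MP_1c9ad1_nt
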