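import Pool.Agent.Lib.MP_1c9ad1_nt.Form

/-!
# Reduced bases
-/

namespace Pool.Agent.Lib.MP_1c9ad1_nt

/-- coprime integer triples -/
def Cop (t : ℤ × ℤ × ℤ) : Prop := ∀ m : ℤ, m ∣ t.1 → m ∣ t.2.1 → m ∣ t.2.2 → IsUnit m

/-- primitive solutions in coordinates -/
def Sol (F : TF) (n : ℤ) : Set (ℤ × ℤ × ℤ) := {t | Cop t ∧ F.Q t.1 t.2.1 t.2.2 = n}

section

variable {p : ℕ} {L : Type*} [AddCommGroup L] {q : L → ℤ} {v1 v2 v3 : L} {F : TF}

theorem cnt_eq (h : B3 v1 v2 v3) (hF : ∀ x y z : ℤ, q (x • v1 + y • v2 + z • v3) = F.Q x y z)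
    (n : ℤ) : cnt q n = (Sol F n).ncard := by
  unfold cnt
  symm
  refine Set.ncard_congr (fun t _ => t.1 • v1 + t.2.1 • v2 + t.2.2 • v3) ?_ ?_ ?_
  · rintro ⟨x, y, z⟩ ⟨h1, h2⟩
    refine ⟨?_, ?_⟩
    · rw [h.prim_iff]; exact h1
    · rw [hF]; exact h2
  · rintro ⟨x, y, z⟩ ⟨x', y', z'⟩ _ _ e
    obtain ⟨rfl, rfl, rfl⟩ := h.inj e
    rfl
  · intro v hv
    obtain ⟨x, y, z, rfl⟩ := h.1 v
    refine ⟨(x, y, z), ⟨?_, ?_⟩, rfl⟩
    · have := hv.1
      rw [h.prim_iff] at this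
      exact this
    · have := hv.2
      rw [hF] at this
      exact this

theorem Sol_finite (hp : 0 < p) (hL : Gr p L q) (h : B3 v1 v2 v3)
    (hF : ∀ x y z : ℤ, q (x • v1 + y • v2 + z • v3) = F.Q x y z) (n : ℤ) :
    (Sol F n).Finite := by
  have hfin := hL.finite hp n
  refine Set.Finite.of_finite_image (f := fun t : ℤ × ℤ × ℤ => t.1 • v1 + t.2.1 • v2 + t.2.2 • v3)
    (hfin.subset ?_) ?_
  · rintro _ ⟨⟨x, y, z⟩, ⟨_, h2⟩, rfl⟩
    rw [Set.mem_ofPred_eq, hF]; exact h2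
  · rintro ⟨x, y, z⟩ _ ⟨x', y', z'⟩ _ e
    obtain ⟨rfl, rfl, rfl⟩ := h.inj e
    rfl

theorem Gr.q_smul (hL : Gr p L q) (m : ℤ) (v : L) : q (m • v) = m ^ 2 * q v := by
  obtain ⟨v1, v2, v3, h⟩ := hL.exB
  obtain ⟨F, _, hF⟩ := hL.form v1 v2 v3 h
  obtain ⟨x, y, z, rfl⟩ := h.1 v
  have : m • (x • v1 + y • v2 + z • v3) = (m * x) • v1 + (m * y) • v2 + (m * z) • v3 := by
    module
  rw [this, hF, hF]
  simp only [TF.Q]; ring

/-- explicit transformations -/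
def TF.add1 (F : TF) (m n : ℤ) : TF :=
  ⟨F.a - F.w * m - F.v * n + F.b * m ^ 2 + F.c * n ^ 2 + F.u * m * n, F.b, F.c, F.u,
    F.v - F.u * m - 2 * F.c * n, F.w - 2 * F.b * m - F.u * n⟩

def TF.add3 (F : TF) (m : ℤ) : TF :=
  ⟨F.a, F.b - F.u * m + F.c * m ^ 2, F.c, F.u - 2 * F.c * m, F.v, F.w - F.v * m⟩

def TF.swap (F : TF) : TF := ⟨F.a, F.c, F.b, F.u, F.w, F.v⟩

def TF.neg2 (F : TF) : TF := ⟨F.a, F.b, F.c, -F.u, F.v, -F.w⟩

def TF.neg3 (F : TF) : TF := ⟨F.a, F.b, F.c, -F.u, -F.v, F.w⟩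

/-- `F` is the form of `q` in the basis `v1, v2, v3`. -/
structure Has (p : ℕ) (q : L → ℤ) (v1 v2 v3 : L) (F : TF) : Prop where
  bas : B3 v1 v2 v3
  hN : F.N = p
  hF : ∀ x y z : ℤ, q (x • v1 + y • v2 + z • v3) = F.Q x y z

theorem Has.add1 (h : Has p q v1 v2 v3 F) (m n : ℤ) :
    Has p q v1 (m • v1 + v2) (n • v1 + v3) (F.add1 m n) where
  bas := h.bas.add1 m n
  hN := by rw [← h.hN]; simp only [TF.N, TF.add1]; ring
  hF := by
    intro x y z
    have : x • v1 + y • (m • v1 + v2) + z • (n • v1 + v3)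
        = (x + m * y + n * z) • v1 + y • v2 + z • v3 := by module
    rw [this, h.hF]
    simp only [TF.Q, TF.add1]; ring

theorem Has.add3 (h : Has p q v1 v2 v3 F) (m : ℤ) :
    Has p q v1 v2 (m • v2 + v3) (F.add3 m) where
  bas := by
    have := h.bas.change23 1 0 m 1 (by ring)
    simpa using this
  hN := by rw [← h.hN]; simp only [TF.N, TF.add3]; ring
  hF := by
    intro x y z
    have : x • v1 + y • v2 + z • (m • v2 + v3)
        = x • v1 + (y + m * z) • v2 + z • v3 := by module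
    rw [this, h.hF]
    simp only [TF.Q, TF.add3]; ring

theorem Has.swap (h : Has p q v1 v2 v3 F) : Has p q v1 v3 v2 F.swap where
  bas := h.bas.swap23
  hN := by rw [← h.hN]; simp only [TF.N, TF.swap]; ring
  hF := by
    intro x y z
    have : x • v1 + y • v3 + z • v2 = x • v1 + z • v2 + y • v3 := by module
    rw [this, h.hF]
    simp only [TF.Q, TF.swap]; ring

theorem Has.neg2 (h : Has p q v1 v2 v3 F) : Has p q v1 (-v2) v3 F.neg2 where
  bas := h.bas.neg2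
  hN := by rw [← h.hN]; simp only [TF.N, TF.neg2]; ring
  hF := by
    intro x y z
    have : x • v1 + y • (-v2) + z • v3 = x • v1 + (-y) • v2 + z • v3 := by module
    rw [this, h.hF]
    simp only [TF.Q, TF.neg2]; ring

theorem Has.neg3 (h : Has p q v1 v2 v3 F) : Has p q v1 v2 (-v3) F.neg3 where
  bas := h.bas.neg3
  hN := by rw [← h.hN]; simp only [TF.N, TF.neg3]; ring
  hF := by
    intro x y z
    have : x • v1 + y • v2 + z • (-v3) = x • v1 + y • v2 + (-z) • v3 := by module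
    rw [this, h.hF]
    simp only [TF.Q, TF.neg3]; ring

/-- reduced data -/
structure Red (p : ℕ) (F : TF) : Prop where
  hN : F.N = p
  hd : 0 < F.d
  hc : 0 < F.c
  hu : |F.u| ≤ F.c
  hcb : F.c ≤ F.b
  hA1 : 2 * |F.A1| ≤ F.d
  hA2 : 2 * |F.A2| ≤ F.d
  hmin : F.d ≤ F.Q 0 1 0

/-- nearest integer division -/
theorem near (d : ℤ) (hd : 0 < d) (A : ℤ) : ∃ m : ℤ, 2 * |A + m * d| ≤ d := by
  refine ⟨-((2 * A + d) / (2 * d)), ?_⟩
  have h1 := Int.mul_ediv_add_emod (2 * A + d) (2 * d)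
  have h2 := Int.emod_nonneg (2 * A + d) (show (2 * d) ≠ 0 by omega)
  have h3 := Int.emod_lt_of_pos (2 * A + d) (show 0 < 2 * d by omega)
  rw [← abs_two, ← abs_mul, abs_le, abs_two]
  constructor <;> nlinarith

theorem Gr.exists_red (hp : 0 < p) (hL : Gr p L q) :
    ∃ v1 v2 v3 : L, ∃ F : TF, Has p q v1 v2 v3 F ∧ Red p F := by
  classical
  obtain ⟨e1, e2, e3, he⟩ := hL.exB
  -- minimal vector
  have hex : ∃ n : ℕ, ∃ v : L, v ≠ 0 ∧ q v = n := by
    refine ⟨(q e1).toNat, e1, he.ne1, ?_⟩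
    have := hL.pos e1 he.ne1
    omega
  obtain ⟨v1, hv1, hq1⟩ := Nat.find_spec hex
  have hmin : ∀ v : L, v ≠ 0 → q v1 ≤ q v := by
    intro v hv
    have h1 := hL.pos v hv
    have h2 := Nat.find_min' hex ⟨v, hv, (Int.toNat_of_nonneg h1.le).symm⟩
    omega
  have hprim : IsPrim v1 := by
    intro m w e
    have hw : w ≠ 0 := by
      rintro rfl
      exact hv1 (by simpa using e)
    have h1 := hmin w hw
    rw [e, hL.q_smul] at h1
    have h2 := hL.pos w hw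
    have h3 : m ≠ 0 := by
      rintro rfl
      exact hv1 (by simpa using e)
    have h4 : m ^ 2 ≤ 1 := by nlinarith
    rw [Int.isUnit_iff]
    have h5 : m ≤ 1 := by nlinarith
    have h6 : -1 ≤ m := by nlinarith
    omega
  obtain ⟨f2, f3, hf⟩ := he.ext_prim v1 hprim
  -- minimise b + c
  have hex2 : ∃ n : ℕ, ∃ w2 w3 : L, ∃ F : TF, Has p q v1 w2 w3 F ∧ F.b + F.c = n := by
    obtain ⟨F, hN, hF⟩ := hL.form v1 f2 f3 hf
    have h1 := hL.b_pos hp hf hN hF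
    have h2 := hL.c_pos hp hf hN hF
    exact ⟨(F.b + F.c).toNat, f2, f3, F, ⟨hf, hN, hF⟩, by omega⟩
  obtain ⟨w2, w3, F, hH, hbc⟩ := Nat.find_spec hex2
  have hminbc : ∀ w2' w3' : L, ∀ F' : TF, Has p q v1 w2' w3' F' → F.b + F.c ≤ F'.b + F'.c := by
    intro w2' w3' F' hH'
    have h1 := hL.b_pos hp hH'.bas hH'.hN hH'.hF
    have h2 := hL.c_pos hp hH'.bas hH'.hN hH'.hF
    have h3 := Nat.find_min' hex2 ⟨w2', w3', F', hH', by
      show F'.b + F'.c = ((F'.b + F'.c).toNat : ℤ)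
      omega⟩
    omega
  clear hbc
  -- consequences
  have hu1 : |F.u| ≤ F.c := by
    have h1 := hminbc _ _ _ (hH.add3 1)
    have h2 := hminbc _ _ _ (hH.add3 (-1))
    simp only [TF.add3] at h1 h2
    rw [abs_le]; constructor <;> linarith
  have hu2 : |F.u| ≤ F.b := by
    have h1 := hminbc _ _ _ (hH.swap.add3 1)
    have h2 := hminbc _ _ _ (hH.swap.add3 (-1))
    simp only [TF.add3, TF.swap] at h1 h2
    rw [abs_le]; constructor <;> linarith
  -- order b and c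
  obtain ⟨w2', w3', G, hG, hGu, hGcb⟩ : ∃ w2' w3' : L, ∃ G : TF, Has p q v1 w2' w3' G ∧
      |G.u| ≤ G.c ∧ G.c ≤ G.b := by
    rcases le_total F.c F.b with h | h
    · exact ⟨w2, w3, F, hH, hu1, h⟩
    · exact ⟨w3, w2, F.swap, hH.swap, hu2, h⟩
  have hd := hL.d_pos hG.bas hG.hF
  obtain ⟨m, hm⟩ := near G.d hd G.A1
  obtain ⟨n, hn⟩ := near G.d hd G.A2
  have hK := hG.add1 m n
  refine ⟨v1, _, _, _, hK, ?_⟩
  have hdK := hL.d_pos hK.bas hK.hF
  have hcK := hL.c_pos hp hK.bas hK.hN hK.hF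
  have ed : (G.add1 m n).d = G.d := by simp only [TF.d, TF.add1]
  have e1' : (G.add1 m n).A1 = G.A1 + m * G.d := by simp only [TF.d, TF.A1, TF.add1]; ring
  have e2' : (G.add1 m n).A2 = G.A2 + n * G.d := by simp only [TF.d, TF.A2, TF.add1]; ring
  refine ⟨hK.hN, hdK, hcK, hGu, hGcb, ?_, ?_, ?_⟩
  · rw [e1', ed]; exact hm
  · rw [e2', ed]; exact hn
  · have h1 := hmin (0 • v1 + (1:ℤ) • (m • v1 + w2') + (0:ℤ) • (n • v1 + w3')) (by
      have := hK.bas.ne_of_coord (x := 0) (y := 1) (z := 0) (by simp)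
      simpa using this)
    have h2 := hK.hF 1 0 0
    have h3 := hK.hF 0 1 0
    have h4 : (G.add1 m n).Q 1 0 0 = (G.add1 m n).d := by simp only [TF.Q, TF.d]; ring
    rw [h4] at h2
    have h5 : (1:ℤ) • v1 + (0:ℤ) • (m • v1 + w2') + (0:ℤ) • (n • v1 + w3') = v1 := by module
    rw [h5] at h2
    rw [← h2, ← h3]
    convert h1 using 2
    module

end

end Pool.Agent.Lib.MP_1c9ad1_nt
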