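import Mathlib.Tactic
import Mathlib.Algebra.Quaternion
import Pool.Agent.Lib.MP_1c9ad1_nt.Reduce

/-!
# Cross product and inner product on trace-zero quaternions
-/

namespace Pool.Agent.Lib.MP_1c9ad1_nt

open Quaternion

variable {a b : ℚ}

/-- cross product of trace-zero quaternions -/
def cr (x y : ℍ[ℚ,a,b]) : ℍ[ℚ,a,b] := (1 / 2 : ℚ) • (x * y - y * x)

/-- inner product -/
def ip (x y : ℍ[ℚ,a,b]) : ℚ := (x * star y + y * star x).re / 2

/-- reduced norm -/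
def nr (x : ℍ[ℚ,a,b]) : ℚ := (x * star x).re

/-- reduced trace -/
def tr (x : ℍ[ℚ,a,b]) : ℚ := (x + star x).re

theorem cr_add_left (x y z : ℍ[ℚ,a,b]) : cr (x + y) z = cr x z + cr y z := by
  simp only [cr, add_mul, mul_add]; module

theorem cr_add_right (x y z : ℍ[ℚ,a,b]) : cr x (y + z) = cr x y + cr x z := by
  simp only [cr, add_mul, mul_add]; module

theorem cr_smul_left (r : ℚ) (x y : ℍ[ℚ,a,b]) : cr (r • x) y = r • cr x y := by
  simp only [cr, smul_mul_assoc, mul_smul_comm]; module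

theorem cr_smul_right (r : ℚ) (x y : ℍ[ℚ,a,b]) : cr x (r • y) = r • cr x y := by
  simp only [cr, smul_mul_assoc, mul_smul_comm]; module

theorem cr_neg_left (x y : ℍ[ℚ,a,b]) : cr (-x) y = -cr x y := by
  simp only [cr, neg_mul, mul_neg]; module

theorem cr_neg_right (x y : ℍ[ℚ,a,b]) : cr x (-y) = -cr x y := by
  simp only [cr, neg_mul, mul_neg]; module

theorem cr_comm (x y : ℍ[ℚ,a,b]) : cr x y = -cr y x := by
  simp only [cr]; module

theorem cr_self (x : ℍ[ℚ,a,b]) : cr x x = 0 := by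
  simp only [cr]; module

theorem ip_comm (x y : ℍ[ℚ,a,b]) : ip x y = ip y x := by
  simp [ip]; ring

theorem ip_self (x : ℍ[ℚ,a,b]) : ip x x = nr x := by
  simp [ip, nr]

theorem ip_add_left (x y z : ℍ[ℚ,a,b]) : ip (x + y) z = ip x z + ip y z := by
  simp [ip]; ring

theorem ip_add_right (x y z : ℍ[ℚ,a,b]) : ip x (y + z) = ip x y + ip x z := by
  simp [ip]; ring

theorem ip_smul_left (r : ℚ) (x y : ℍ[ℚ,a,b]) : ip (r • x) y = r * ip x y := by
  simp [ip]; ring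

theorem ip_smul_right (r : ℚ) (x y : ℍ[ℚ,a,b]) : ip x (r • y) = r * ip x y := by
  simp [ip]; ring

theorem ip_neg_left (x y : ℍ[ℚ,a,b]) : ip (-x) y = -ip x y := by
  simp [ip]; ring

theorem ip_neg_right (x y : ℍ[ℚ,a,b]) : ip x (-y) = -ip x y := by
  simp [ip]; ring

theorem mul_eq_ip_cr (x y : ℍ[ℚ,a,b]) (hx : x.re = 0) (hy : y.re = 0) :
    x * y = ((-(ip x y) : ℚ) : ℍ[ℚ,a,b]) + cr x y := by
  ext <;> simp [ip, cr, hx, hy] <;> ring

theorem cr_re (x y : ℍ[ℚ,a,b]) : (cr x y).re = 0 := by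
  simp [cr]; ring

theorem triple (x y z : ℍ[ℚ,a,b]) (hx : x.re = 0) (hy : y.re = 0) (hz : z.re = 0) :
    cr x (cr y z) = ip x z • y - ip x y • z := by
  ext <;> simp [ip, cr, hx, hy, hz] <;> ring

theorem ip_cr_self_left (x y : ℍ[ℚ,a,b]) : ip x (cr x y) = 0 := by
  simp [ip, cr]; ring

theorem ip_cr_cyc (x y z : ℍ[ℚ,a,b]) (hx : x.re = 0) (hy : y.re = 0) (hz : z.re = 0) :
    ip x (cr y z) = ip y (cr z x) := by
  simp [ip, cr, hx, hy, hz]; ring

/-- the triple product is a multiple of the determinant of coordinates -/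
theorem ip_cr_det (x y z : ℍ[ℚ,a,b]) (hx : x.re = 0) (hy : y.re = 0) (hz : z.re = 0) :
    ip x (cr y z) = a * b * (x.imI * (y.imJ * z.imK - y.imK * z.imJ)
      - x.imJ * (y.imI * z.imK - y.imK * z.imI) + x.imK * (y.imI * z.imJ - y.imJ * z.imI)) := by
  simp [ip, cr, hx, hy, hz]; ring

theorem tr_eq (x : ℍ[ℚ,a,b]) : tr x = 2 * x.re := by
  simp [tr]; ring

theorem nr_eq (x : ℍ[ℚ,a,b]) :
    nr x = x.re ^ 2 - a * x.imI ^ 2 - b * x.imJ ^ 2 + a * b * x.imK ^ 2 := by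
  simp [nr]; ring

theorem nr_mul (x y : ℍ[ℚ,a,b]) : nr (x * y) = nr x * nr y := by
  simp only [nr_eq, QuaternionAlgebra.re_mul, QuaternionAlgebra.imI_mul,
    QuaternionAlgebra.imJ_mul, QuaternionAlgebra.imK_mul]; ring

theorem mul_star_nr (x : ℍ[ℚ,a,b]) : x * star x = ((nr x : ℚ) : ℍ[ℚ,a,b]) := by
  ext <;> simp [nr] <;> ring

theorem star_mul_nr (x : ℍ[ℚ,a,b]) : star x * x = ((nr x : ℚ) : ℍ[ℚ,a,b]) := by
  ext <;> simp [nr] <;> ring

end Pool.Agent.Lib.MP_1c9ad1_nt
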