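import Pool.Agent.Lib.MP_1c9ad1_nt.Quat9

/-!
# Maximal orders: enlargement arguments
-/

namespace Pool.Agent.Lib.MP_1c9ad1_nt

open Quaternion Module

variable {a b : ℚ}

/-- orders: subrings of finite type over `ℤ` spanning the algebra. -/
structure IsOrd (O : Subring ℍ[ℚ,a,b]) : Prop where
  fin : Module.Finite ℤ O
  span : Submodule.span ℚ (O : Set ℍ[ℚ,a,b]) = ⊤

/-- maximal orders -/
structure IsMaxOrd (O : Subring ℍ[ℚ,a,b]) : Prop where
  ord : IsOrd O
  max : ∀ O' : Subring ℍ[ℚ,a,b], IsOrd O' → O ≤ O' → O' = O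

theorem CR.unique {F F' : TF} {f1 f2 f3 : ℍ[ℚ,a,b]} (h : CR F f1 f2 f3)
    (h' : CR F' f1 f2 f3) : F = F' := by
  have e1 := h.c23.symm.trans h'.c23
  have e2 := h.c31.symm.trans h'.c31
  have e3 := h.c12.symm.trans h'.c12
  obtain ⟨a1, a2, a3⟩ := h.ind (2 * F.a - 2 * F'.a) (F.w - F'.w) (F.v - F'.v) (by
    linear_combination (norm := module) (-1 : ℚ) • e1)
  obtain ⟨b1, b2, b3⟩ := h.ind (F.w - F'.w) (2 * F.b - 2 * F'.b) (F.u - F'.u) (by
    linear_combination (norm := module) (-1 : ℚ) • e2)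
  obtain ⟨c1, c2, c3⟩ := h.ind (F.v - F'.v) (F.u - F'.u) (2 * F.c - 2 * F'.c) (by
    linear_combination (norm := module) (-1 : ℚ) • e3)
  ext
  · have : (F.a : ℚ) = F'.a := by linarith
    exact_mod_cast this
  · have : (F.b : ℚ) = F'.b := by linarith
    exact_mod_cast this
  · have : (F.c : ℚ) = F'.c := by linarith
    exact_mod_cast this
  · have : (F.u : ℚ) = F'.u := by linarith
    exact_mod_cast this
  · have : (F.v : ℚ) = F'.v := by linarith
    exact_mod_cast this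
  · have : (F.w : ℚ) = F'.w := by linarith
    exact_mod_cast this

theorem CR.el_inj {F : TF} {f1 f2 f3 : ℍ[ℚ,a,b]} (h : CR F f1 f2 f3)
    {t x y z t' x' y' z' : ℚ}
    (e : el F f1 f2 f3 t x y z = el F f1 f2 f3 t' x' y' z') :
    t = t' ∧ x = x' ∧ y = y' ∧ z = z' := by
  have h1 := h.el_sub_star t x y z
  rw [e, h.el_sub_star] at h1
  obtain ⟨a1, a2, a3⟩ := h.ind (x' - x) (y' - y) (z' - z) (by
    linear_combination (norm := module) (1 : ℚ) • h1)
  have hx : x = x' := by linarith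
  have hy : y = y' := by linarith
  have hz : z = z' := by linarith
  subst hx hy hz
  have hre := congrArg QuaternionAlgebra.re e
  simp [el, h.re1, h.re2, h.re3] at hre
  exact ⟨hre, rfl, rfl, rfl⟩

/-- the order of a basis of the Gross lattice -/
theorem mkOrd_of_B3 (hab : a * b ≠ 0) {O : Subring ℍ[ℚ,a,b]} (hO : IsOrd O)
    {f1 f2 f3 : grossL O} (h : B3 f1 f2 f3) {F : TF} (hC : CR F (f1 : ℍ[ℚ,a,b]) f2 f3) :
    O = mkOrd hC := by
  have := hO.fin
  obtain ⟨F', hC', e⟩ := exists_CR hab O h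
  have := hC'.unique hC
  subst this
  exact e

/-- `F` is the form of the order in some basis. -/
def PF (O : Subring ℍ[ℚ,a,b]) (F : TF) : Prop :=
  ∃ f1 f2 f3 : grossL O, B3 f1 f2 f3 ∧ CR F (f1 : ℍ[ℚ,a,b]) f2 f3

section moves

variable {O : Subring ℍ[ℚ,a,b]} {F : TF}

theorem PF.rot (h : PF O F) : PF O ⟨F.b, F.c, F.a, F.v, F.w, F.u⟩ := by
  obtain ⟨f1, f2, f3, hB, hC⟩ := h
  exact ⟨f2, f3, f1, hB.rot, hC.rot⟩

theorem PF.add1 (h : PF O F) (m n : ℤ) : PF O (F.add1 m n) := by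
  obtain ⟨f1, f2, f3, hB, hC⟩ := h
  exact ⟨_, _, _, hB.add1 m n, hC.add1 m n⟩

theorem PF.add3 (h : PF O F) (m : ℤ) : PF O (F.add3 m) := by
  obtain ⟨f1, f2, f3, hB, hC⟩ := h
  have hB' : B3 f1 f2 (m • f2 + f3) := by
    have := hB.change23 1 0 m 1 (by ring)
    simpa using this
  exact ⟨_, _, _, hB', hC.add3 m⟩

theorem PF.swap (h : PF O F) : PF O F.swap := by
  obtain ⟨f1, f2, f3, hB, hC⟩ := h
  exact ⟨_, _, _, hB.swap23.neg1.neg2.neg3, hC.refl⟩

end moves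

theorem no_enl2 (hab : a * b ≠ 0) {O : Subring ℍ[ℚ,a,b]} (hmax : IsMaxOrd O) {F : TF}
    (hF : PF O F) {l : ℕ} (hl : l.Prime) {a' b' w' : ℤ} (ha : F.a = l * a')
    (hb : F.b = l * b') (hw : F.w = l * w') : False := by
  obtain ⟨f1, f2, f3, hB, hC⟩ := hF
  have hO := mkOrd_of_B3 hab hmax.ord hB hC
  set g1 : ℍ[ℚ,a,b] := (f1 : ℍ[ℚ,a,b])
  set g2 : ℍ[ℚ,a,b] := (f2 : ℍ[ℚ,a,b])
  set g3 : ℍ[ℚ,a,b] := (f3 : ℍ[ℚ,a,b])
  have hl0 : (l : ℚ) ≠ 0 := by exact_mod_cast hl.ne_zero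
  have haq : (F.a : ℚ) = l * a' := by exact_mod_cast ha
  have hbq : (F.b : ℚ) = l * b' := by exact_mod_cast hb
  have hwq : (F.w : ℚ) = l * w' := by exact_mod_cast hw
  have h' : CR ⟨a', b', F.c * l, F.u, F.v, w'⟩ g1 g2 ((1 / l : ℚ) • g3) :=
    { re1 := hC.re1
      re2 := hC.re2
      re3 := by simp [hC.re3]
      ind := by
        intro x y z e
        obtain ⟨e1, e2, e3⟩ := hC.ind x y (z * (1 / l)) (by
          linear_combination (norm := module) (1 : ℚ) • e)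
        refine ⟨e1, e2, ?_⟩
        rcases mul_eq_zero.mp e3 with h | h
        · exact h
        · exact absurd h (one_div_ne_zero hl0)
      c23 := by
        rw [cr_smul_right, hC.c23, haq, hwq]
        match_scalars <;> field_simp
      c31 := by
        rw [cr_smul_left, hC.c31, hbq, hwq]
        match_scalars <;> field_simp
      c12 := by
        rw [hC.c12]
        match_scalars <;> push_cast <;> field_simp }
  have hel : ∀ t x y z : ℚ, el F g1 g2 g3 t x y z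
      = el ⟨a', b', F.c * l, F.u, F.v, w'⟩ g1 g2 ((1 / l : ℚ) • g3) t x y (l * z) := by
    intro t x y z
    simp only [el]
    rw [hwq]
    match_scalars <;> field_simp
  have hle : mkOrd hC ≤ mkOrd h' := by
    rintro _ ⟨t, x, y, z, rfl⟩
    exact ⟨t, x, y, l * z, by rw [hel]; push_cast; rfl⟩
  have hle' : O ≤ mkOrd h' := by rw [hO]; exact hle
  have heq := hmax.max _ ⟨mkOrd_finite h', by
    rw [← top_le_iff, ← hmax.ord.span]
    exact Submodule.span_mono hle'⟩ hle'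
  have hmem : el ⟨a', b', F.c * l, F.u, F.v, w'⟩ g1 g2 ((1 / l : ℚ) • g3) 0 0 0 1
      ∈ mkOrd h' := ⟨0, 0, 0, 1, by push_cast; rfl⟩
  rw [heq, hO] at hmem
  obtain ⟨t, x, y, z, e⟩ := hmem
  rw [hel] at e
  have h1 := (h'.el_inj e).2.2.2
  have h2 : (1 : ℤ) = l * z := by exact_mod_cast h1
  have h3 : (l : ℤ) ∣ 1 := ⟨z, h2⟩
  have h4 : l ∣ 1 := by exact_mod_cast h3
  exact hl.one_lt.ne' (Nat.dvd_one.mp h4)

theorem no_enl1 (hab : a * b ≠ 0) {O : Subring ℍ[ℚ,a,b]} (hmax : IsMaxOrd O) {F : TF}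
    (hF : PF O F) {l : ℕ} (hl : l.Prime) {a' v' w' : ℤ} (ha : F.a = l * (l * a'))
    (hv : F.v = l * v') (hw : F.w = l * w') : False := by
  obtain ⟨f1, f2, f3, hB, hC⟩ := hF
  have hO := mkOrd_of_B3 hab hmax.ord hB hC
  set g1 : ℍ[ℚ,a,b] := (f1 : ℍ[ℚ,a,b])
  set g2 : ℍ[ℚ,a,b] := (f2 : ℍ[ℚ,a,b])
  set g3 : ℍ[ℚ,a,b] := (f3 : ℍ[ℚ,a,b])
  have hl0 : (l : ℚ) ≠ 0 := by exact_mod_cast hl.ne_zero
  have haq : (F.a : ℚ) = l * (l * a') := by exact_mod_cast ha
  have hvq : (F.v : ℚ) = l * v' := by exact_mod_cast hv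
  have hwq : (F.w : ℚ) = l * w' := by exact_mod_cast hw
  have h' : CR ⟨a', F.b, F.c, F.u, v', w'⟩ g1 ((1 / l : ℚ) • g2) ((1 / l : ℚ) • g3) :=
    { re1 := hC.re1
      re2 := by simp [hC.re2]
      re3 := by simp [hC.re3]
      ind := by
        intro x y z e
        obtain ⟨e1, e2, e3⟩ := hC.ind x (y * (1 / l)) (z * (1 / l)) (by
          linear_combination (norm := module) (1 : ℚ) • e)
        refine ⟨e1, ?_, ?_⟩
        · rcases mul_eq_zero.mp e2 with h | h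
          · exact h
          · exact absurd h (one_div_ne_zero hl0)
        · rcases mul_eq_zero.mp e3 with h | h
          · exact h
          · exact absurd h (one_div_ne_zero hl0)
      c23 := by
        rw [cr_smul_right, cr_smul_left, hC.c23, haq, hwq, hvq]
        match_scalars <;> field_simp
      c31 := by
        rw [cr_smul_left, hC.c31, hwq]
        match_scalars <;> field_simp
      c12 := by
        rw [cr_smul_right, hC.c12, hvq]
        match_scalars <;> field_simp }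
  have hel : ∀ t x y z : ℚ, el F g1 g2 g3 t x y z
      = el ⟨a', F.b, F.c, F.u, v', w'⟩ g1 ((1 / l : ℚ) • g2) ((1 / l : ℚ) • g3)
        t x (l * y) (l * z) := by
    intro t x y z
    simp only [el]
    rw [hwq, hvq]
    match_scalars <;> field_simp
  have hle : mkOrd hC ≤ mkOrd h' := by
    rintro _ ⟨t, x, y, z, rfl⟩
    exact ⟨t, x, l * y, l * z, by rw [hel]; push_cast; rfl⟩
  have hle' : O ≤ mkOrd h' := by rw [hO]; exact hle
  have heq := hmax.max _ ⟨mkOrd_finite h', by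
    rw [← top_le_iff, ← hmax.ord.span]
    exact Submodule.span_mono hle'⟩ hle'
  have hmem : el ⟨a', F.b, F.c, F.u, v', w'⟩ g1 ((1 / l : ℚ) • g2) ((1 / l : ℚ) • g3) 0 0 0 1
      ∈ mkOrd h' := ⟨0, 0, 0, 1, by push_cast; rfl⟩
  rw [heq, hO] at hmem
  obtain ⟨t, x, y, z, e⟩ := hmem
  rw [hel] at e
  have h1 := (h'.el_inj e).2.2.2
  have h2 : (1 : ℤ) = l * z := by exact_mod_cast h1
  have h3 : (l : ℤ) ∣ 1 := ⟨z, h2⟩
  have h4 : l ∣ 1 := by exact_mod_cast h3
  exact hl.one_lt.ne' (Nat.dvd_one.mp h4)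

end Pool.Agent.Lib.MP_1c9ad1_nt
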