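import Pool.Agent.Lib.MP_1c9ad1_nt.Quat10

/-!
# Maximal orders: the half discriminant is `± p`
-/

namespace Pool.Agent.Lib.MP_1c9ad1_nt

open Quaternion Module

/-- existence of a radical vector modulo `2` -/
theorem radical_two : ∀ a b c u v w : ZMod 2,
    4 * a * b * c + u * v * w - a * u ^ 2 - b * v ^ 2 - c * w ^ 2 = 0 →
    ∃ x y z : ZMod 2, ¬ (x = 0 ∧ y = 0 ∧ z = 0) ∧
      2 * a * x + w * y + v * z = 0 ∧ w * x + 2 * b * y + u * z = 0 ∧
      v * x + u * y + 2 * c * z = 0 ∧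
      a * x ^ 2 + b * y ^ 2 + c * z ^ 2 + u * y * z + v * x * z + w * x * y = 0 := by
  decide

/-- existence of a radical vector modulo a prime dividing the half discriminant -/
theorem radical (l : ℕ) [hl : Fact l.Prime] (a b c u v w : ZMod l)
    (hN : 4 * a * b * c + u * v * w - a * u ^ 2 - b * v ^ 2 - c * w ^ 2 = 0) :
    ∃ x y z : ZMod l, ¬ (x = 0 ∧ y = 0 ∧ z = 0) ∧
      2 * a * x + w * y + v * z = 0 ∧ w * x + 2 * b * y + u * z = 0 ∧
      v * x + u * y + 2 * c * z = 0 ∧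
      a * x ^ 2 + b * y ^ 2 + c * z ^ 2 + u * y * z + v * x * z + w * x * y = 0 := by
  rcases hl.out.eq_two_or_odd with rfl | hodd
  · exact radical_two a b c u v w hN
  · have h2 : (2 : ZMod l) ≠ 0 := by
      intro h
      have h3 : ((2 : ℕ) : ZMod l) = 0 := by exact_mod_cast h
      rw [ZMod.natCast_eq_zero_iff] at h3
      have := (Nat.prime_dvd_prime_iff_eq hl.out Nat.prime_two).mp h3
      omega
    have hdet : Matrix.det !![2 * a, w, v; w, 2 * b, u; v, u, 2 * c] = 0 := by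
      rw [Matrix.det_fin_three]
      simp only [Matrix.of_apply, Matrix.cons_val', Matrix.cons_val_zero, Matrix.cons_val_one,
        Matrix.cons_val_fin_one, Matrix.cons_val]
      linear_combination 2 * hN
    obtain ⟨r, hr, hr0⟩ := Matrix.exists_mulVec_eq_zero_iff.mpr hdet
    have e0 := congrFun hr0 0
    have e1 := congrFun hr0 1
    have e2 := congrFun hr0 2
    simp [Matrix.mulVec, dotProduct, Fin.sum_univ_three] at e0 e1 e2
    refine ⟨r 0, r 1, r 2, ?_, e0, e1, e2, ?_⟩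
    · rintro ⟨h0, h1, h2⟩
      apply hr
      funext j
      fin_cases j
      · exact h0
      · exact h1
      · exact h2
    · have h4 : 2 * (a * r 0 ^ 2 + b * r 1 ^ 2 + c * r 2 ^ 2 + u * r 1 * r 2 + v * r 0 * r 2
          + w * r 0 * r 1) = 0 := by
        linear_combination r 0 * e0 + r 1 * e1 + r 2 * e2
      exact (mul_eq_zero.mp h4).resolve_left h2

theorem aniso_two : ∀ b c u : ZMod 2,
    (∀ y z : ZMod 2, b * y ^ 2 + u * y * z + c * z ^ 2 = 0 → y = 0 ∧ z = 0) →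
    4 * b * c - u ^ 2 ≠ 0 := by
  decide

theorem aniso_disc (l : ℕ) [hl : Fact l.Prime] (b c u : ZMod l)
    (h : ∀ y z : ZMod l, b * y ^ 2 + u * y * z + c * z ^ 2 = 0 → y = 0 ∧ z = 0) :
    4 * b * c - u ^ 2 ≠ 0 := by
  rcases hl.out.eq_two_or_odd with rfl | hodd
  · exact aniso_two b c u h
  · have h2 : (2 : ZMod l) ≠ 0 := by
      intro h
      have h3 : ((2 : ℕ) : ZMod l) = 0 := by exact_mod_cast h
      rw [ZMod.natCast_eq_zero_iff] at h3
      have := (Nat.prime_dvd_prime_iff_eq hl.out Nat.prime_two).mp h3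
      omega
    intro h0
    have h3 := (h (-u) (2 * b) (by linear_combination b * h0)).2
    have hb : b = 0 := (mul_eq_zero.mp h3).resolve_left h2
    have h4 := (h 1 0 (by rw [hb]; ring)).1
    exact one_ne_zero h4

variable {a b : ℚ}

/-- normalise the radical to the first basis vector -/
theorem PF.adapt_aux {O : Subring ℍ[ℚ,a,b]} {F : TF} (hF : PF O F) (l : ℕ)
    [hl : Fact l.Prime] {x y z : ZMod l} (hx : x ≠ 0)
    (h1 : 2 * (F.a : ZMod l) * x + F.w * y + F.v * z = 0)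
    (h2 : (F.w : ZMod l) * x + 2 * F.b * y + F.u * z = 0)
    (h3 : (F.v : ZMod l) * x + F.u * y + 2 * F.c * z = 0)
    (h4 : (F.a : ZMod l) * x ^ 2 + F.b * y ^ 2 + F.c * z ^ 2 + F.u * y * z + F.v * x * z
      + F.w * x * y = 0) :
    ∃ F' : TF, PF O F' ∧ F'.N = F.N ∧ (l : ℤ) ∣ F'.a ∧ (l : ℤ) ∣ F'.v ∧ (l : ℤ) ∣ F'.w := by
  obtain ⟨m, hm⟩ := ZMod.intCast_surjective (-(y / x))
  obtain ⟨n, hn⟩ := ZMod.intCast_surjective (-(z / x))
  have ym : y = -(m : ZMod l) * x := by rw [hm]; field_simp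
  have zn : z = -(n : ZMod l) * x := by rw [hn]; field_simp
  subst ym zn
  have hx2 : x ^ 2 ≠ 0 := pow_ne_zero 2 hx
  refine ⟨F.add1 m n, hF.add1 m n, by simp only [TF.N, TF.add1]; ring, ?_, ?_, ?_⟩
  · rw [← ZMod.intCast_zmod_eq_zero_iff_dvd]
    simp only [TF.add1]
    push_cast
    have : x ^ 2 * ((F.a : ZMod l) - F.w * m - F.v * n + F.b * m ^ 2 + F.c * n ^ 2
        + F.u * m * n) = 0 := by linear_combination h4
    exact (mul_eq_zero.mp this).resolve_left hx2
  · rw [← ZMod.intCast_zmod_eq_zero_iff_dvd]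
    simp only [TF.add1]
    push_cast
    have : x * ((F.v : ZMod l) - F.u * m - 2 * F.c * n) = 0 := by linear_combination h3
    exact (mul_eq_zero.mp this).resolve_left hx
  · rw [← ZMod.intCast_zmod_eq_zero_iff_dvd]
    simp only [TF.add1]
    push_cast
    have : x * ((F.w : ZMod l) - 2 * F.b * m - F.u * n) = 0 := by linear_combination h2
    exact (mul_eq_zero.mp this).resolve_left hx

theorem PF.adapt {O : Subring ℍ[ℚ,a,b]} {F : TF} (hF : PF O F) (l : ℕ)
    [hl : Fact l.Prime] (hN : (l : ℤ) ∣ F.N) :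
    ∃ F' : TF, PF O F' ∧ F'.N = F.N ∧ (l : ℤ) ∣ F'.a ∧ (l : ℤ) ∣ F'.v ∧ (l : ℤ) ∣ F'.w := by
  rw [← ZMod.intCast_zmod_eq_zero_iff_dvd] at hN
  have hN' : 4 * (F.a : ZMod l) * F.b * F.c + F.u * F.v * F.w - F.a * F.u ^ 2
      - F.b * F.v ^ 2 - F.c * F.w ^ 2 = 0 := by
    rw [← hN]; simp only [TF.N]; push_cast; ring
  obtain ⟨x, y, z, hne, h1, h2, h3, h4⟩ := radical l _ _ _ _ _ _ hN'
  by_cases hx : x = 0
  · by_cases hy : y = 0
    · have hz : z ≠ 0 := fun h => hne ⟨hx, hy, h⟩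
      obtain ⟨F', k1, k2, k3⟩ := hF.rot.rot.adapt_aux l (x := z) (y := x) (z := y) hz
        (by linear_combination h3) (by linear_combination h1) (by linear_combination h2)
        (by linear_combination h4)
      exact ⟨F', k1, by rw [k2]; simp only [TF.N]; ring, k3⟩
    · obtain ⟨F', k1, k2, k3⟩ := hF.rot.adapt_aux l (x := y) (y := z) (z := x) hy
        (by linear_combination h2) (by linear_combination h3) (by linear_combination h1)
        (by linear_combination h4)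
      exact ⟨F', k1, by rw [k2]; simp only [TF.N]; ring, k3⟩
  · exact hF.adapt_aux l hx h1 h2 h3 h4

/-- local analysis of a maximal order at a prime dividing the half discriminant -/
theorem IsMaxOrd.local_prime (hab : a * b ≠ 0) {O : Subring ℍ[ℚ,a,b]} (hmax : IsMaxOrd O)
    {F : TF} (hF : PF O F) (l : ℕ) [hl : Fact l.Prime] (hN : (l : ℤ) ∣ F.N) :
    IsDiv ℚ_[l] (a : ℚ_[l]) (b : ℚ_[l]) ∧ ¬ (l : ℤ) * l ∣ F.N := by
  obtain ⟨F', hF', hNN, ⟨a', ha⟩, ⟨v', hv⟩, ⟨w', hw⟩⟩ := hF.adapt l hN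
  rw [← hNN]
  have ha' : ¬ (l : ℤ) ∣ a' := by
    rintro ⟨a'', rfl⟩
    exact no_enl1 hab hmax hF' hl.out ha hv hw
  have han : ∀ y z : ZMod l, (F'.b : ZMod l) * y ^ 2 + F'.u * y * z + F'.c * z ^ 2 = 0 →
      y = 0 ∧ z = 0 := by
    intro y z h
    by_contra hne
    by_cases hy : y = 0
    · have hz : z ≠ 0 := fun h => hne ⟨hy, h⟩
      subst hy
      have hc : (F'.c : ZMod l) = 0 := by
        have : z ^ 2 * (F'.c : ZMod l) = 0 := by linear_combination h
        exact (mul_eq_zero.mp this).resolve_left (pow_ne_zero 2 hz)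
      rw [ZMod.intCast_zmod_eq_zero_iff_dvd] at hc
      obtain ⟨c', hc⟩ := hc
      exact no_enl2 hab hmax hF'.swap hl.out (a' := a') (b' := c') (w' := v') ha hc hv
    · obtain ⟨m, hm⟩ := ZMod.intCast_surjective (-(z / y))
      have zm : z = -(m : ZMod l) * y := by rw [hm]; field_simp
      subst zm
      have hb : (((F'.add3 m).b : ℤ) : ZMod l) = 0 := by
        simp only [TF.add3]
        push_cast
        have : y ^ 2 * ((F'.b : ZMod l) - F'.u * m + F'.c * m ^ 2) = 0 := by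
          linear_combination h
        exact (mul_eq_zero.mp this).resolve_left (pow_ne_zero 2 hy)
      rw [ZMod.intCast_zmod_eq_zero_iff_dvd] at hb
      obtain ⟨b', hb⟩ := hb
      exact no_enl2 hab hmax (hF'.add3 m) hl.out (a' := a') (b' := b') (w' := w' - v' * m) ha hb
        (by simp only [TF.add3]; rw [hw, hv]; ring)
  obtain ⟨f1, f2, f3, hB, hC⟩ := hF'
  refine ⟨isDiv_of_aniso hab hC ha ha' hv hw han, ?_⟩
  intro hdvd
  have hdisc := aniso_disc l _ _ _ han
  have hl0 : (l : ℤ) ≠ 0 := by exact_mod_cast hl.out.ne_zero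
  have e1 : F'.N = (l : ℤ) * (a' * (4 * F'.b * F'.c - F'.u ^ 2)
      + l * (F'.u * v' * w' - F'.b * v' ^ 2 - F'.c * w' ^ 2)) := by
    simp only [TF.N]; rw [ha, hv, hw]; ring
  rw [e1] at hdvd
  have e2 := (mul_dvd_mul_iff_left hl0).mp hdvd
  have e3 : (l : ℤ) ∣ a' * (4 * F'.b * F'.c - F'.u ^ 2) := by
    have := (dvd_add_left (dvd_mul_right (l : ℤ)
      (F'.u * v' * w' - F'.b * v' ^ 2 - F'.c * w' ^ 2))).mp e2
    exact this
  have hlp : Prime (l : ℤ) := Nat.prime_iff_prime_int.mp hl.out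
  rcases hlp.dvd_or_dvd e3 with h | h
  · exact ha' h
  · apply hdisc
    rw [← ZMod.intCast_zmod_eq_zero_iff_dvd] at h
    push_cast at h
    exact h

/-- the half discriminant of a maximal order -/
theorem IsMaxOrd.N_eq (hab : a * b ≠ 0) {O : Subring ℍ[ℚ,a,b]} (hmax : IsMaxOrd O)
    {F : TF} (hF : PF O F) (p : ℕ) [hp : Fact p.Prime]
    (hdiv : IsDiv ℚ_[p] (a : ℚ_[p]) (b : ℚ_[p]))
    (hram : ∀ (l : ℕ) [Fact l.Prime], IsDiv ℚ_[l] (a : ℚ_[l]) (b : ℚ_[l]) → l = p) :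
    F.N.natAbs = p := by
  have hpN : (p : ℤ) ∣ F.N := by
    obtain ⟨f1, f2, f3, hB, hC⟩ := hF
    exact dvd_N_of_isDiv hab hC hdiv
  have hN0 : F.N ≠ 0 := by
    obtain ⟨f1, f2, f3, hB, hC⟩ := hF
    intro h
    have h1 := hC.trip
    rw [h] at h1
    exact T_ne hab hC.re1 hC.re2 hC.re3 hC.ind (by rw [h1]; simp)
  obtain ⟨k, hk⟩ := Int.natCast_dvd.mp hpN
  have hk1 : k = 1 := by
    by_contra hne
    obtain ⟨l, hl, hlk⟩ := Nat.exists_prime_and_dvd hne
    have : Fact l.Prime := ⟨hl⟩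
    have hlN : (l : ℤ) ∣ F.N := by
      rw [Int.natCast_dvd, hk]
      exact hlk.mul_left p
    have h1 := hmax.local_prime hab hF l hlN
    have h2 := hram l h1.1
    subst h2
    apply h1.2
    have : (l : ℤ) * l = ((l * l : ℕ) : ℤ) := by push_cast; ring
    rw [this, Int.natCast_dvd, hk]
    exact mul_dvd_mul_left l hlk
  rw [hk, hk1, mul_one]

end Pool.Agent.Lib.MP_1c9ad1_nt
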