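import Pool.Agent.Lib.MP_1c9ad1_nt.Quat11

/-!
# Triples with the same form are conjugate
-/

namespace Pool.Agent.Lib.MP_1c9ad1_nt

open Quaternion Module

variable {a b : ℚ} {F : TF} {f1 f2 f3 f1' f2' f3' : ℍ[ℚ,a,b]}

theorem CR.el_surj (hab : a * b ≠ 0) (hC : CR F f1 f2 f3) (s : ℍ[ℚ,a,b]) :
    ∃ t x y z : ℚ, s = el F f1 f2 f3 t x y z := by
  have r1 := hC.re1
  have r2 := hC.re2
  have r3 := hC.re3
  have hT := T_ne hab r1 r2 r3 hC.ind
  rw [ip_cr_det _ _ _ r1 r2 r3] at hT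
  set M := !![f1.imI, f1.imJ, f1.imK; f2.imI, f2.imJ, f2.imK; f3.imI, f3.imJ, f3.imK] with hM
  have hdet : M.det ≠ 0 := by
    have hne := right_ne_zero_of_mul hT
    rw [hM, Matrix.det_fin_three]
    simp only [Matrix.of_apply, Matrix.cons_val', Matrix.cons_val_zero, Matrix.cons_val_one,
      Matrix.cons_val_fin_one, Matrix.cons_val]
    intro h0
    apply hne
    linarith
  have hu : IsUnit M.det := isUnit_iff_ne_zero.mpr hdet
  let r : Fin 3 → ℚ := Matrix.vecMul ![s.imI, s.imJ, s.imK] M⁻¹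
  have hr : Matrix.vecMul r M = ![s.imI, s.imJ, s.imK] := by
    simp only [r]
    rw [Matrix.vecMul_vecMul, Matrix.nonsing_inv_mul _ hu, Matrix.vecMul_one]
  have e1 := congrFun hr 0
  have e2 := congrFun hr 1
  have e3 := congrFun hr 2
  simp [Matrix.vecMul, dotProduct, Fin.sum_univ_three, hM] at e1 e2 e3
  refine ⟨s.re - (F.u * (2 * r 0) + F.v * (2 * r 1) + F.w * (2 * r 2)) / 2, 2 * r 0, 2 * r 1,
    2 * r 2, ?_⟩
  ext <;> simp [el, r1, r2, r3] <;> linarith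

theorem conj_of_same (hab : a * b ≠ 0) (hC : CR F f1 f2 f3) (hC' : CR F f1' f2' f3')
    (hnr : ∀ x : ℍ[ℚ,a,b], x ≠ 0 → nr x ≠ 0) :
    ∃ c : (ℍ[ℚ,a,b])ˣ, ∀ x : ℍ[ℚ,a,b],
      x ∈ mkOrd hC' ↔ (c : ℍ[ℚ,a,b]) * x * ((c⁻¹ : (ℍ[ℚ,a,b])ˣ) : ℍ[ℚ,a,b]) ∈ mkOrd hC := by
  have ha : a ≠ 0 := left_ne_zero_of_mul hab
  have hb : b ≠ 0 := right_ne_zero_of_mul hab
  choose T X Y Z hs using hC.el_surj hab
  let φ : ℍ[ℚ,a,b] → ℍ[ℚ,a,b] := fun s => el F f1' f2' f3' (T s) (X s) (Y s) (Z s)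
  have hφ : ∀ t x y z : ℚ, φ (el F f1 f2 f3 t x y z) = el F f1' f2' f3' t x y z := by
    intro t x y z
    obtain ⟨e1, e2, e3, e4⟩ := hC.el_inj (hs (el F f1 f2 f3 t x y z))
    simp only [φ]
    rw [← e1, ← e2, ← e3, ← e4]
  have hmul : ∀ s s', φ (s * s') = φ s * φ s' := by
    intro s s'
    have e : s * s' = el F f1 f2 f3 (T s) (X s) (Y s) (Z s)
        * el F f1 f2 f3 (T s') (X s') (Y s') (Z s') := by rw [← hs s, ← hs s']
    rw [e, hC.el_mul, hφ, ← hC'.el_mul]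
  have hadd : ∀ s s', φ (s + s') = φ s + φ s' := by
    intro s s'
    have e : s + s' = el F f1 f2 f3 (T s) (X s) (Y s) (Z s)
        + el F f1 f2 f3 (T s') (X s') (Y s') (Z s') := by rw [← hs s, ← hs s']
    rw [e, el_add, hφ, ← el_add]
  have hsmul : ∀ (r : ℚ) s, φ (r • s) = r • φ s := by
    intro r s
    have e : r • s = r • el F f1 f2 f3 (T s) (X s) (Y s) (Z s) := by rw [← hs s]
    rw [e, el_smul, hφ, ← el_smul]
  have hone : φ 1 = 1 := by
    have e : (1 : ℍ[ℚ,a,b]) = el F f1 f2 f3 1 0 0 0 := el_one.symm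
    conv_lhs => rw [e]
    rw [hφ, el_one]
  let I : ℍ[ℚ,a,b] := ⟨0, 1, 0, 0⟩
  let J : ℍ[ℚ,a,b] := ⟨0, 0, 1, 0⟩
  let K : ℍ[ℚ,a,b] := ⟨0, 0, 0, 1⟩
  have tII : I * I = a • (1 : ℍ[ℚ,a,b]) := by ext <;> simp [I]
  have tJJ : J * J = b • (1 : ℍ[ℚ,a,b]) := by ext <;> simp [J]
  have tIJ : I * J = K := by ext <;> simp [I, J, K]
  have tJI : J * I = (-1 : ℚ) • K := by ext <;> simp [I, J, K]
  have tIK : I * K = a • J := by ext <;> simp [I, J, K]
  have tKI : K * I = (-a) • J := by ext <;> simp [I, J, K]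
  have tJK : J * K = (-b) • I := by ext <;> simp [I, J, K]
  have tKJ : K * J = b • I := by ext <;> simp [I, J, K]
  have sII : φ I * φ I = a • (1 : ℍ[ℚ,a,b]) := by rw [← hmul, tII, hsmul, hone]
  have sJJ : φ J * φ J = b • (1 : ℍ[ℚ,a,b]) := by rw [← hmul, tJJ, hsmul, hone]
  have sIJ : φ I * φ J = φ K := by rw [← hmul, tIJ]
  have sJI : φ J * φ I = (-1 : ℚ) • φ K := by rw [← hmul, tJI, hsmul]
  have sKI : φ K * φ I = (-a) • φ J := by rw [← hmul, tKI, hsmul]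
  have sKJ : φ K * φ J = b • φ I := by rw [← hmul, tKJ, hsmul]
  have lII : ∀ y, I * (I * y) = a • y := by
    intro y; rw [← mul_assoc, tII, smul_mul_assoc, one_mul]
  have lIJ : ∀ y, I * (J * y) = K * y := by intro y; rw [← mul_assoc, tIJ]
  have lIK : ∀ y, I * (K * y) = a • (J * y) := by
    intro y; rw [← mul_assoc, tIK, smul_mul_assoc]
  have lJI : ∀ y, J * (I * y) = (-1 : ℚ) • (K * y) := by
    intro y; rw [← mul_assoc, tJI, smul_mul_assoc]
  have lJJ : ∀ y, J * (J * y) = b • y := by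
    intro y; rw [← mul_assoc, tJJ, smul_mul_assoc, one_mul]
  have lJK : ∀ y, J * (K * y) = (-b) • (I * y) := by
    intro y; rw [← mul_assoc, tJK, smul_mul_assoc]
  let C : ℍ[ℚ,a,b] → ℍ[ℚ,a,b] := fun x => x + (1 / a) • (I * x * φ I) + (1 / b) • (J * x * φ J)
    - (1 / (a * b)) • (K * x * φ K)
  have hCI : ∀ x, I * C x = C x * φ I := by
    intro x
    simp only [C, mul_add, mul_sub, add_mul, sub_mul, mul_smul_comm, smul_mul_assoc, mul_assoc,
      lII, lIJ, lIK, sII, sJI, sKI, mul_one]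
    match_scalars <;> field_simp
  have hCJ : ∀ x, J * C x = C x * φ J := by
    intro x
    simp only [C, mul_add, mul_sub, add_mul, sub_mul, mul_smul_comm, smul_mul_assoc, mul_assoc,
      lJI, lJJ, lJK, sIJ, sJJ, sKJ, mul_one]
    match_scalars <;> field_simp
  have hsum : C 1 + (1 / a) • (I * C I) + (1 / b) • (J * C J) - (1 / (a * b)) • (K * C K)
      = (4 : ℚ) • (1 : ℍ[ℚ,a,b]) := by
    simp only [C, I, J, K]
    ext <;> simp <;> field_simp <;> ring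
  obtain ⟨x0, hx0⟩ : ∃ x, C x ≠ 0 := by
    by_contra hcon
    push Not at hcon
    rw [hcon, hcon, hcon, hcon] at hsum
    have := congrArg QuaternionAlgebra.re hsum
    simp at this
  set c0 := C x0 with hc0
  have hI := hCI x0
  have hJ := hCJ x0
  rw [← hc0] at hI hJ
  have hK : K * c0 = c0 * φ K :=
    calc K * c0 = I * J * c0 := by rw [tIJ]
      _ = I * (c0 * φ J) := by rw [mul_assoc, hJ]
      _ = c0 * φ I * φ J := by rw [← mul_assoc, hI]
      _ = c0 * φ K := by rw [mul_assoc, sIJ]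
  have hall : ∀ s, s * c0 = c0 * φ s := by
    intro s
    have e : s = s.re • (1 : ℍ[ℚ,a,b]) + s.imI • I + s.imJ • J + s.imK • K := by
      ext <;> simp [I, J, K]
    have e2 : φ s = s.re • (1 : ℍ[ℚ,a,b]) + s.imI • φ I + s.imJ • φ J + s.imK • φ K := by
      conv_lhs => rw [e]
      rw [hadd, hadd, hadd, hsmul, hsmul, hsmul, hsmul, hone]
    rw [e2]
    conv_lhs => rw [e]
    simp only [add_mul, mul_add, smul_mul_assoc, mul_smul_comm, one_mul, mul_one, hI, hJ, hK]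
  have hunit : IsUnit c0 := by
    apply isUnit_of_nr_ne
    have := hnr c0 hx0
    rwa [nr_eq] at this
  obtain ⟨c, hc⟩ := hunit
  refine ⟨c, ?_⟩
  have hcon : ∀ s, (c : ℍ[ℚ,a,b]) * φ s * ((c⁻¹ : (ℍ[ℚ,a,b])ˣ) : ℍ[ℚ,a,b]) = s := by
    intro s
    rw [hc, ← hall s, ← hc, mul_assoc, Units.mul_inv, mul_one]
  intro x
  rw [mem_mkOrd, mem_mkOrd]
  constructor
  · rintro ⟨t, x, y, z, rfl⟩
    refine ⟨t, x, y, z, ?_⟩
    rw [← hφ, hcon]
  · rintro ⟨t, x', y, z, e⟩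
    refine ⟨t, x', y, z, ?_⟩
    have e1 := hcon (el F f1 f2 f3 t x' y z)
    rw [hφ] at e1
    have e2 := (Units.mul_left_inj c⁻¹).mp (e.trans e1.symm)
    exact (Units.mul_right_inj c).mp e2

end Pool.Agent.Lib.MP_1c9ad1_nt
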