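import Pool.Agent.Lib.MP_1c9ad1_nt.Quat12
import Pool.Agent.Lib.MP_1c9ad1_nt.Main3

/-!
# The Gross lattice of a maximal order and the main theorem
-/

namespace Pool.Agent.Lib.MP_1c9ad1_nt

open Quaternion Module

variable {a b : ℚ}

theorem neg_of_real (h : IsDiv ℝ (a : ℝ) (b : ℝ)) : a < 0 ∧ b < 0 := by
  constructor
  · by_contra hcon
    push Not at hcon
    have h0 : (0 : ℝ) ≤ a := by exact_mod_cast hcon
    let x : ℍ[ℝ,(a : ℝ),(b : ℝ)] := ⟨Real.sqrt a, 1, 0, 0⟩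
    have hx : x ≠ 0 := by
      intro hx
      have := congrArg QuaternionAlgebra.imI hx
      simp [x] at this
    apply nr_ne_of_isUnit x (h x hx)
    simp only [x]
    rw [Real.sq_sqrt h0]; ring
  · by_contra hcon
    push Not at hcon
    have h0 : (0 : ℝ) ≤ b := by exact_mod_cast hcon
    let x : ℍ[ℝ,(a : ℝ),(b : ℝ)] := ⟨Real.sqrt b, 0, 1, 0⟩
    have hx : x ≠ 0 := by
      intro hx
      have := congrArg QuaternionAlgebra.imJ hx
      simp [x] at this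
    apply nr_ne_of_isUnit x (h x hx)
    simp only [x]
    rw [Real.sq_sqrt h0]; ring

theorem nr_pos (ha : a < 0) (hb : b < 0) {x : ℍ[ℚ,a,b]} (hx : x ≠ 0) : 0 < nr x := by
  rw [nr_eq]
  have hab : 0 < a * b := mul_pos_of_neg_of_neg ha hb
  have h0 := sq_nonneg x.re
  have h1 : 0 ≤ -a * x.imI ^ 2 := mul_nonneg (by linarith) (sq_nonneg _)
  have h2 : 0 ≤ -b * x.imJ ^ 2 := mul_nonneg (by linarith) (sq_nonneg _)
  have h3 : 0 ≤ a * b * x.imK ^ 2 := mul_nonneg hab.le (sq_nonneg _)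
  rcases eq_or_lt_of_le (show 0 ≤ x.re ^ 2 - a * x.imI ^ 2 - b * x.imJ ^ 2
      + a * b * x.imK ^ 2 by linarith) with h | h
  · exfalso
    apply hx
    have e0 : x.re ^ 2 = 0 := by linarith
    have e1 : -a * x.imI ^ 2 = 0 := by linarith
    have e2 : -b * x.imJ ^ 2 = 0 := by linarith
    have e3 : a * b * x.imK ^ 2 = 0 := by linarith
    ext
    · simpa using e0
    · simpa [ha.ne] using e1
    · simpa [hb.ne] using e2
    · simpa [ha.ne, hb.ne] using e3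
  · exact h

/-- the integral norm form on the Gross lattice -/
noncomputable def qO (O : Subring ℍ[ℚ,a,b]) (h : grossL O) : ℤ := ⌊nr (h : ℍ[ℚ,a,b])⌋

theorem qO_cast (hab : a * b ≠ 0) {O : Subring ℍ[ℚ,a,b]} (hO : IsOrd O) (h : grossL O) :
    (qO O h : ℚ) = nr (h : ℍ[ℚ,a,b]) := by
  have := hO.fin
  obtain ⟨f1, f2, f3, hB⟩ := exists_B3 O hO.span
  obtain ⟨F, hC, -⟩ := exists_CR hab O hB
  obtain ⟨x, y, z, rfl⟩ := hB.1 h
  have h1 := hC.nr_form x y z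
  have h2 : (((x • f1 + y • f2 + z • f3 : grossL O)) : ℍ[ℚ,a,b])
      = x • (f1 : ℍ[ℚ,a,b]) + y • (f2 : ℍ[ℚ,a,b]) + z • (f3 : ℍ[ℚ,a,b]) := rfl
  rw [qO, h2, h1, Int.floor_intCast]

/-- the Gross lattice of a maximal order -/
theorem IsMaxOrd.gr (hneg : a < 0 ∧ b < 0) {O : Subring ℍ[ℚ,a,b]} (hmax : IsMaxOrd O)
    (p : ℕ) [hp : Fact p.Prime] (hdiv : IsDiv ℚ_[p] (a : ℚ_[p]) (b : ℚ_[p]))
    (hram : ∀ (l : ℕ) [Fact l.Prime], IsDiv ℚ_[l] (a : ℚ_[l]) (b : ℚ_[l]) → l = p) :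
    Gr p (grossL O) (qO O) := by
  have hab : a * b ≠ 0 := mul_ne_zero hneg.1.ne hneg.2.ne
  have := hmax.ord.fin
  refine ⟨exists_B3 O hmax.ord.span, ?_, ?_⟩
  · intro f1 f2 f3 hB
    obtain ⟨F, hC, -⟩ := exists_CR hab O hB
    have hN := hmax.N_eq hab (F := F) ⟨f1, f2, f3, hB, hC⟩ p hdiv hram
    have hq : ∀ x y z : ℤ, qO O (x • f1 + y • f2 + z • f3) = F.Q x y z := by
      intro x y z
      have h1 := qO_cast hab hmax.ord (x • f1 + y • f2 + z • f3)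
      have h2 : (((x • f1 + y • f2 + z • f3 : grossL O)) : ℍ[ℚ,a,b])
        = x • (f1 : ℍ[ℚ,a,b]) + y • (f2 : ℍ[ℚ,a,b]) + z • (f3 : ℍ[ℚ,a,b]) := rfl
      rw [h2, hC.nr_form] at h1
      exact_mod_cast h1
    rcases Int.natAbs_eq F.N with h | h
    · exact ⟨F, by rw [h, hN], hq⟩
    · refine ⟨⟨-F.a, -F.b, -F.c, -F.u, -F.v, -F.w⟩, ?_, ?_⟩
      · have : (⟨-F.a, -F.b, -F.c, -F.u, -F.v, -F.w⟩ : TF).N = -F.N := by
          simp only [TF.N]; ring
        rw [this, h, hN]; ring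
      · intro x y z
        rw [hq]
        simp only [TF.Q]; ring
  · intro v hv
    have h1 := qO_cast hab hmax.ord v
    have h2 : (v : ℍ[ℚ,a,b]) ≠ 0 := by
      intro h; apply hv; exact Subtype.ext h
    have h3 := nr_pos hneg.1 hneg.2 h2
    rw [← h1] at h3
    exact_mod_cast h3

/-- the form determines the coefficients up to sign -/
theorem TF.eq_or_neg {F F' : TF} (hQ : ∀ x y z : ℤ, F.Q x y z = F'.Q x y z)
    (hN : F.N = F'.N ∨ F.N = -F'.N) (hN0 : F'.N ≠ 0) :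
    F = F' ∨ F = ⟨-F'.a, -F'.b, -F'.c, -F'.u, -F'.v, -F'.w⟩ := by
  have A11 := hQ 1 0 0
  have A22 := hQ 0 1 0
  have A33 := hQ 0 0 1
  have B12 := hQ 1 1 0
  have B13 := hQ 1 0 1
  have B23 := hQ 0 1 1
  simp only [TF.Q] at A11 A22 A33 B12 B13 B23
  have a11 : 4 * F.b * F.c - F.u ^ 2 = 4 * F'.b * F'.c - F'.u ^ 2 := by linarith
  have a22 : 4 * F.a * F.c - F.v ^ 2 = 4 * F'.a * F'.c - F'.v ^ 2 := by linarith
  have a33 : 4 * F.a * F.b - F.w ^ 2 = 4 * F'.a * F'.b - F'.w ^ 2 := by linarith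
  have a12 : F.u * F.v - 2 * F.c * F.w = F'.u * F'.v - 2 * F'.c * F'.w := by linarith
  have a13 : F.u * F.w - 2 * F.b * F.v = F'.u * F'.w - 2 * F'.b * F'.v := by linarith
  have a23 : F.v * F.w - 2 * F.a * F.u = F'.v * F'.w - 2 * F'.a * F'.u := by linarith
  have ida : ∀ G : TF, 4 * (G.N * G.a) = (4 * G.a * G.c - G.v ^ 2) * (4 * G.a * G.b - G.w ^ 2)
      - (G.v * G.w - 2 * G.a * G.u) ^ 2 := by intro G; simp only [TF.N]; ring
  have idb : ∀ G : TF, 4 * (G.N * G.b) = (4 * G.b * G.c - G.u ^ 2) * (4 * G.a * G.b - G.w ^ 2)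
      - (G.u * G.w - 2 * G.b * G.v) ^ 2 := by intro G; simp only [TF.N]; ring
  have idc : ∀ G : TF, 4 * (G.N * G.c) = (4 * G.b * G.c - G.u ^ 2) * (4 * G.a * G.c - G.v ^ 2)
      - (G.u * G.v - 2 * G.c * G.w) ^ 2 := by intro G; simp only [TF.N]; ring
  have idw : ∀ G : TF, 2 * (G.N * G.w) = (G.u * G.w - 2 * G.b * G.v) * (G.v * G.w - 2 * G.a * G.u)
      - (G.u * G.v - 2 * G.c * G.w) * (4 * G.a * G.b - G.w ^ 2) := by
    intro G; simp only [TF.N]; ring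
  have idv : ∀ G : TF, 2 * (G.N * G.v) = (G.u * G.v - 2 * G.c * G.w) * (G.v * G.w - 2 * G.a * G.u)
      - (G.u * G.w - 2 * G.b * G.v) * (4 * G.a * G.c - G.v ^ 2) := by
    intro G; simp only [TF.N]; ring
  have idu : ∀ G : TF, 2 * (G.N * G.u) = (G.u * G.v - 2 * G.c * G.w) * (G.u * G.w - 2 * G.b * G.v)
      - (G.v * G.w - 2 * G.a * G.u) * (4 * G.b * G.c - G.u ^ 2) := by
    intro G; simp only [TF.N]; ring
  have ka : F.N * F.a = F'.N * F'.a := by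
    have h1 := ida F
    have h2 := ida F'
    rw [a22, a33, a23, ← h2] at h1
    linarith
  have kb : F.N * F.b = F'.N * F'.b := by
    have h1 := idb F
    have h2 := idb F'
    rw [a11, a33, a13, ← h2] at h1
    linarith
  have kc : F.N * F.c = F'.N * F'.c := by
    have h1 := idc F
    have h2 := idc F'
    rw [a11, a22, a12, ← h2] at h1
    linarith
  have kw : F.N * F.w = F'.N * F'.w := by
    have h1 := idw F
    have h2 := idw F'
    rw [a12, a13, a23, a33, ← h2] at h1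
    linarith
  have kv : F.N * F.v = F'.N * F'.v := by
    have h1 := idv F
    have h2 := idv F'
    rw [a12, a13, a23, a22, ← h2] at h1
    linarith
  have ku : F.N * F.u = F'.N * F'.u := by
    have h1 := idu F
    have h2 := idu F'
    rw [a12, a13, a23, a11, ← h2] at h1
    linarith
  rcases hN with h | h
  · left
    rw [h] at ka kb kc kw kv ku
    ext
    · exact mul_left_cancel₀ hN0 ka
    · exact mul_left_cancel₀ hN0 kb
    · exact mul_left_cancel₀ hN0 kc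
    · exact mul_left_cancel₀ hN0 ku
    · exact mul_left_cancel₀ hN0 kv
    · exact mul_left_cancel₀ hN0 kw
  · right
    rw [h] at ka kb kc kw kv ku
    ext
    · exact mul_left_cancel₀ hN0 (by linarith)
    · exact mul_left_cancel₀ hN0 (by linarith)
    · exact mul_left_cancel₀ hN0 (by linarith)
    · exact mul_left_cancel₀ hN0 (by linarith)
    · exact mul_left_cancel₀ hN0 (by linarith)
    · exact mul_left_cancel₀ hN0 (by linarith)

/-- Main theorem: domination of the primitive representation numbers up to `2p` forces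
conjugacy. -/
theorem conj_of_dom (hneg : a < 0 ∧ b < 0) {O O' : Subring ℍ[ℚ,a,b]} (hmax : IsMaxOrd O)
    (hmax' : IsMaxOrd O') (p : ℕ) [hp : Fact p.Prime]
    (hdiv : IsDiv ℚ_[p] (a : ℚ_[p]) (b : ℚ_[p]))
    (hram : ∀ (l : ℕ) [Fact l.Prime], IsDiv ℚ_[l] (a : ℚ_[l]) (b : ℚ_[l]) → l = p)
    (dom : ∀ n : ℤ, 1 ≤ n → n ≤ 2 * p → cnt (qO O') n ≤ cnt (qO O) n) :
    ∃ c : (ℍ[ℚ,a,b])ˣ, ∀ x : ℍ[ℚ,a,b],
      x ∈ O' ↔ (c : ℍ[ℚ,a,b]) * x * ((c⁻¹ : (ℍ[ℚ,a,b])ˣ) : ℍ[ℚ,a,b]) ∈ O := by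
  have hab : a * b ≠ 0 := mul_ne_zero hneg.1.ne hneg.2.ne
  have hG := hmax.gr hneg p hdiv hram
  have hG' := hmax'.gr hneg p hdiv hram
  have := hmax.ord.fin
  have := hmax'.ord.fin
  obtain ⟨v1, v2, v3, v1', v2', v3', hB, hB', hq⟩ := hG.isometric_of_dom hp.out hG' dom
  obtain ⟨F, hC, hO⟩ := exists_CR hab O hB
  obtain ⟨F', hC', hO'⟩ := exists_CR hab O' hB'
  have hN := hmax.N_eq hab (F := F) ⟨v1, v2, v3, hB, hC⟩ p hdiv hram
  have hN' := hmax'.N_eq hab (F := F') ⟨v1', v2', v3', hB', hC'⟩ p hdiv hram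
  have hQ : ∀ x y z : ℤ, F.Q x y z = F'.Q x y z := by
    intro x y z
    have h1 := hq x y z
    have h2 := qO_cast hab hmax.ord (x • v1 + y • v2 + z • v3)
    have h3 := qO_cast hab hmax'.ord (x • v1' + y • v2' + z • v3')
    have h4 : (((x • v1 + y • v2 + z • v3 : grossL O)) : ℍ[ℚ,a,b])
        = x • (v1 : ℍ[ℚ,a,b]) + y • (v2 : ℍ[ℚ,a,b]) + z • (v3 : ℍ[ℚ,a,b]) := rfl
    have h5 : (((x • v1' + y • v2' + z • v3' : grossL O')) : ℍ[ℚ,a,b])
        = x • (v1' : ℍ[ℚ,a,b]) + y • (v2' : ℍ[ℚ,a,b]) + z • (v3' : ℍ[ℚ,a,b]) := rfl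
    rw [h4, hC.nr_form] at h2
    rw [h5, hC'.nr_form, ← h1, h2] at h3
    exact_mod_cast h3
  have hN0 : F'.N ≠ 0 := by
    intro h
    rw [h] at hN'
    simp only [Int.natAbs_zero] at hN'
    exact hp.out.ne_zero hN'.symm
  have hNN : F.N = F'.N ∨ F.N = -F'.N := Int.natAbs_eq_natAbs_iff.mp (hN.trans hN'.symm)
  have hnr : ∀ x : ℍ[ℚ,a,b], x ≠ 0 → nr x ≠ 0 := fun x hx => (nr_pos hneg.1 hneg.2 hx).ne'
  rcases TF.eq_or_neg hQ hNN hN0 with h | h
  · subst h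
    obtain ⟨c, hc⟩ := conj_of_same hab hC hC' hnr
    refine ⟨c, ?_⟩
    intro x
    have h1 := hc x
    rw [← hO, ← hO'] at h1
    exact h1
  · subst h
    have hB'' : B3 (-v1') (-v2') (-v3') := hB'.neg1.neg2.neg3
    have hC'' := hC'.neg
    have hO'' := mkOrd_of_B3 hab hmax'.ord hB'' hC''
    obtain ⟨c, hc⟩ := conj_of_same hab hC hC'' hnr
    refine ⟨c, ?_⟩
    intro x
    have h1 := hc x
    rw [← hO, ← hO''] at h1
    exact h1

end Pool.Agent.Lib.MP_1c9ad1_nt
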