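import Pool.Agent.Lib.MP_1c9ad1_nt.Quat1

/-!
# Triples with an integral symmetric multiplication matrix
-/

namespace Pool.Agent.Lib.MP_1c9ad1_nt

set_option linter.unusedSimpArgs false

open Quaternion

variable {a b : ℚ}

/-- rational linear independence of three elements -/
def Ind (f1 f2 f3 : ℍ[ℚ,a,b]) : Prop :=
  ∀ x y z : ℚ, x • f1 + y • f2 + z • f3 = 0 → x = 0 ∧ y = 0 ∧ z = 0

/-- cross product relations given by an integral ternary form -/
structure CR (F : TF) (f1 f2 f3 : ℍ[ℚ,a,b]) : Prop where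
  re1 : f1.re = 0
  re2 : f2.re = 0
  re3 : f3.re = 0
  ind : Ind f1 f2 f3
  c23 : cr f2 f3 = -((2 * F.a : ℚ) • f1 + (F.w : ℚ) • f2 + (F.v : ℚ) • f3)
  c31 : cr f3 f1 = -((F.w : ℚ) • f1 + (2 * F.b : ℚ) • f2 + (F.u : ℚ) • f3)
  c12 : cr f1 f2 = -((F.v : ℚ) • f1 + (F.u : ℚ) • f2 + (2 * F.c : ℚ) • f3)

namespace CR

variable {F : TF} {f1 f2 f3 : ℍ[ℚ,a,b]}

theorem c32 (h : CR F f1 f2 f3) :
    cr f3 f2 = (2 * F.a : ℚ) • f1 + (F.w : ℚ) • f2 + (F.v : ℚ) • f3 := by
  rw [cr_comm, h.c23, neg_neg]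

theorem c13 (h : CR F f1 f2 f3) :
    cr f1 f3 = (F.w : ℚ) • f1 + (2 * F.b : ℚ) • f2 + (F.u : ℚ) • f3 := by
  rw [cr_comm, h.c31, neg_neg]

theorem c21 (h : CR F f1 f2 f3) :
    cr f2 f1 = (F.v : ℚ) • f1 + (F.u : ℚ) • f2 + (2 * F.c : ℚ) • f3 := by
  rw [cr_comm, h.c12, neg_neg]

theorem g1 (h : CR F f1 f2 f3) :
    ip f1 f1 = 4 * F.b * F.c - F.u ^ 2 ∧ ip f1 f2 = F.u * F.v - 2 * F.c * F.w := by
  have e := triple f1 f1 f2 h.re1 h.re1 h.re2
  rw [h.c12, cr_neg_right, cr_add_right, cr_add_right, cr_smul_right, cr_smul_right,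
    cr_smul_right, cr_self, h.c12, h.c13] at e
  have := h.ind (ip f1 f2 - (F.u * F.v - 2 * F.c * F.w))
    ((4 * F.b * F.c - F.u ^ 2) - ip f1 f1) 0 (by
      linear_combination (norm := module) (-1 : ℚ) • e)
  constructor <;> linarith [this.1, this.2.1]

theorem g13 (h : CR F f1 f2 f3) :
    ip f3 f3 = 4 * F.a * F.b - F.w ^ 2 ∧ ip f1 f3 = F.u * F.w - 2 * F.b * F.v := by
  have e := triple f3 f3 f1 h.re3 h.re3 h.re1
  rw [h.c31, cr_neg_right, cr_add_right, cr_add_right, cr_smul_right, cr_smul_right,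
    cr_smul_right, cr_self, h.c31, h.c32] at e
  have := h.ind ((4 * F.a * F.b - F.w ^ 2) - ip f3 f3) 0
    (ip f3 f1 - (F.u * F.w - 2 * F.b * F.v)) (by
      linear_combination (norm := module) (-1 : ℚ) • e)
  rw [ip_comm f1 f3]
  constructor <;> linarith [this.1, this.2.2]

theorem g23 (h : CR F f1 f2 f3) :
    ip f2 f2 = 4 * F.a * F.c - F.v ^ 2 ∧ ip f2 f3 = F.v * F.w - 2 * F.a * F.u := by
  have e := triple f2 f2 f3 h.re2 h.re2 h.re3
  rw [h.c23, cr_neg_right, cr_add_right, cr_add_right, cr_smul_right, cr_smul_right,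
    cr_smul_right, cr_self, h.c23, h.c21] at e
  have := h.ind 0 (ip f2 f3 - (F.v * F.w - 2 * F.a * F.u))
    ((4 * F.a * F.c - F.v ^ 2) - ip f2 f2) (by
      linear_combination (norm := module) (-1 : ℚ) • e)
  constructor <;> linarith [this.2.1, this.2.2]

/-- the triple product is `-2N` -/
theorem trip (h : CR F f1 f2 f3) : ip f1 (cr f2 f3) = -2 * F.N := by
  rw [h.c23, ip_neg_right, ip_add_right, ip_add_right, ip_smul_right, ip_smul_right,
    ip_smul_right, h.g1.1, h.g1.2, h.g13.2]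
  simp only [TF.N]; push_cast; ring

/-- value of the norm form -/
theorem nr_form (h : CR F f1 f2 f3) (x y z : ℤ) :
    nr (x • f1 + y • f2 + z • f3) = F.Q x y z := by
  have e : x • f1 + y • f2 + z • f3 = (x : ℚ) • f1 + (y : ℚ) • f2 + (z : ℚ) • f3 := by
    simp only [Int.cast_smul_eq_zsmul]
  rw [e, ← ip_self]
  simp only [ip_add_left, ip_add_right, ip_smul_left, ip_smul_right]
  rw [ip_comm f2 f1, ip_comm f3 f1, ip_comm f3 f2, h.g1.1, h.g1.2, h.g13.1, h.g13.2, h.g23.1,
    h.g23.2]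
  simp only [TF.Q]; push_cast; ring

/-- cyclic rotation -/
theorem rot (h : CR F f1 f2 f3) : CR ⟨F.b, F.c, F.a, F.v, F.w, F.u⟩ f2 f3 f1 where
  re1 := h.re2
  re2 := h.re3
  re3 := h.re1
  ind := by
    intro x y z e
    obtain ⟨h1, h2, h3⟩ := h.ind z x y (by rw [← e]; module)
    exact ⟨h2, h3, h1⟩
  c23 := by rw [h.c31]; module
  c31 := by rw [h.c12]; module
  c12 := by rw [h.c23]; module

/-- reflection -/
theorem refl (h : CR F f1 f2 f3) : CR F.swap (-f1) (-f3) (-f2) where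
  re1 := by simp [h.re1]
  re2 := by simp [h.re3]
  re3 := by simp [h.re2]
  ind := by
    intro x y z e
    obtain ⟨h1, h2, h3⟩ := h.ind x z y (by
      linear_combination (norm := module) (-1 : ℚ) • e)
    exact ⟨h1, h3, h2⟩
  c23 := by
    rw [cr_neg_left, cr_neg_right, neg_neg, h.c32]; simp only [TF.swap]; module
  c31 := by
    rw [cr_neg_left, cr_neg_right, neg_neg, h.c21]; simp only [TF.swap]; module
  c12 := by
    rw [cr_neg_left, cr_neg_right, neg_neg, h.c13]; simp only [TF.swap]; module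

/-- changing all signs -/
theorem neg (h : CR F f1 f2 f3) :
    CR ⟨-F.a, -F.b, -F.c, -F.u, -F.v, -F.w⟩ (-f1) (-f2) (-f3) where
  re1 := by simp [h.re1]
  re2 := by simp [h.re2]
  re3 := by simp [h.re3]
  ind := by
    intro x y z e
    exact h.ind x y z (by linear_combination (norm := module) (-1 : ℚ) • e)
  c23 := by
    rw [cr_neg_left, cr_neg_right, neg_neg, h.c23]; push_cast; module
  c31 := by
    rw [cr_neg_left, cr_neg_right, neg_neg, h.c31]; push_cast; module
  c12 := by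
    rw [cr_neg_left, cr_neg_right, neg_neg, h.c12]; push_cast; module

theorem add1 (h : CR F f1 f2 f3) (m n : ℤ) :
    CR (F.add1 m n) f1 (m • f1 + f2) (n • f1 + f3) where
  re1 := h.re1
  re2 := by simp [h.re1, h.re2]
  re3 := by simp [h.re1, h.re3]
  ind := by
    intro x y z e
    simp only [← Int.cast_smul_eq_zsmul ℚ] at e
    obtain ⟨h1, h2, h3⟩ := h.ind (x + y * m + z * n) y z (by
      linear_combination (norm := module) e)
    refine ⟨?_, h2, h3⟩
    rw [h2, h3] at h1; linarith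
  c23 := by
    simp only [← Int.cast_smul_eq_zsmul ℚ, cr_add_left, cr_add_right, cr_smul_left,
      cr_smul_right, cr_self, h.c13, h.c21, h.c23, TF.add1]
    push_cast; module
  c31 := by
    simp only [← Int.cast_smul_eq_zsmul ℚ, cr_add_left, cr_add_right, cr_smul_left,
      cr_smul_right, cr_self, h.c31, TF.add1]
    push_cast; module
  c12 := by
    simp only [← Int.cast_smul_eq_zsmul ℚ, cr_add_left, cr_add_right, cr_smul_left,
      cr_smul_right, cr_self, h.c12, TF.add1]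
    push_cast; module

theorem add3 (h : CR F f1 f2 f3) (m : ℤ) :
    CR (F.add3 m) f1 f2 (m • f2 + f3) where
  re1 := h.re1
  re2 := h.re2
  re3 := by simp [h.re2, h.re3]
  ind := by
    intro x y z e
    simp only [← Int.cast_smul_eq_zsmul ℚ] at e
    obtain ⟨h1, h2, h3⟩ := h.ind x (y + z * m) z (by
      linear_combination (norm := module) e)
    refine ⟨h1, ?_, h3⟩
    rw [h3] at h2; linarith
  c23 := by
    simp only [← Int.cast_smul_eq_zsmul ℚ, cr_add_left, cr_add_right, cr_smul_left,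
      cr_smul_right, cr_self, h.c23, TF.add3]
    push_cast; module
  c31 := by
    simp only [← Int.cast_smul_eq_zsmul ℚ, cr_add_left, cr_add_right, cr_smul_left,
      cr_smul_right, cr_self, h.c31, h.c21, TF.add3]
    push_cast; module
  c12 := by
    rw [h.c12]
    simp only [← Int.cast_smul_eq_zsmul ℚ, TF.add3]
    push_cast; module

end CR

end Pool.Agent.Lib.MP_1c9ad1_nt
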