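import Pool.Agent.Lib.MP_1c9ad1_nt.Quat2
import Mathlib.RingTheory.Finiteness.Basic
import Mathlib.LinearAlgebra.FreeModule.PID

/-!
# The order attached to a triple
-/

namespace Pool.Agent.Lib.MP_1c9ad1_nt

open Quaternion

variable {a b : ℚ}

/-- elements in terms of the good basis `1, (f1+u)/2, (f2+v)/2, (f3+w)/2`. -/
def el (F : TF) (f1 f2 f3 : ℍ[ℚ,a,b]) (t x y z : ℚ) : ℍ[ℚ,a,b] :=
  (t + (F.u * x + F.v * y + F.w * z) / 2) • (1 : ℍ[ℚ,a,b]) + (x / 2) • f1 + (y / 2) • f2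
    + (z / 2) • f3

theorem mul_eq' (x y : ℍ[ℚ,a,b]) (hx : x.re = 0) (hy : y.re = 0) :
    x * y = (-(ip x y) : ℚ) • 1 + cr x y := by
  rw [mul_eq_ip_cr _ _ hx hy, ← QuaternionAlgebra.coe_mul_eq_smul, mul_one]

namespace CR

variable {F : TF} {f1 f2 f3 : ℍ[ℚ,a,b]}

theorem ff11 (h : CR F f1 f2 f3) : f1 * f1 = (-(4 * F.b * F.c - F.u ^ 2) : ℚ) • 1 := by
  rw [mul_eq' _ _ h.re1 h.re1, h.g1.1, cr_self, add_zero]

theorem ff22 (h : CR F f1 f2 f3) : f2 * f2 = (-(4 * F.a * F.c - F.v ^ 2) : ℚ) • 1 := by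
  rw [mul_eq' _ _ h.re2 h.re2, h.g23.1, cr_self, add_zero]

theorem ff33 (h : CR F f1 f2 f3) : f3 * f3 = (-(4 * F.a * F.b - F.w ^ 2) : ℚ) • 1 := by
  rw [mul_eq' _ _ h.re3 h.re3, h.g13.1, cr_self, add_zero]

theorem ff12 (h : CR F f1 f2 f3) : f1 * f2 = (-(F.u * F.v - 2 * F.c * F.w) : ℚ) • 1
    + -((F.v : ℚ) • f1 + (F.u : ℚ) • f2 + (2 * F.c : ℚ) • f3) := by
  rw [mul_eq' _ _ h.re1 h.re2, h.g1.2, h.c12]

theorem ff21 (h : CR F f1 f2 f3) : f2 * f1 = (-(F.u * F.v - 2 * F.c * F.w) : ℚ) • 1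
    + ((F.v : ℚ) • f1 + (F.u : ℚ) • f2 + (2 * F.c : ℚ) • f3) := by
  rw [mul_eq' _ _ h.re2 h.re1, ip_comm, h.g1.2, h.c21]

theorem ff13 (h : CR F f1 f2 f3) : f1 * f3 = (-(F.u * F.w - 2 * F.b * F.v) : ℚ) • 1
    + ((F.w : ℚ) • f1 + (2 * F.b : ℚ) • f2 + (F.u : ℚ) • f3) := by
  rw [mul_eq' _ _ h.re1 h.re3, h.g13.2, h.c13]

theorem ff31 (h : CR F f1 f2 f3) : f3 * f1 = (-(F.u * F.w - 2 * F.b * F.v) : ℚ) • 1
    + -((F.w : ℚ) • f1 + (2 * F.b : ℚ) • f2 + (F.u : ℚ) • f3) := by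
  rw [mul_eq' _ _ h.re3 h.re1, ip_comm, h.g13.2, h.c31]

theorem ff23 (h : CR F f1 f2 f3) : f2 * f3 = (-(F.v * F.w - 2 * F.a * F.u) : ℚ) • 1
    + -((2 * F.a : ℚ) • f1 + (F.w : ℚ) • f2 + (F.v : ℚ) • f3) := by
  rw [mul_eq' _ _ h.re2 h.re3, h.g23.2, h.c23]

theorem ff32 (h : CR F f1 f2 f3) : f3 * f2 = (-(F.v * F.w - 2 * F.a * F.u) : ℚ) • 1
    + ((2 * F.a : ℚ) • f1 + (F.w : ℚ) • f2 + (F.v : ℚ) • f3) := by
  rw [mul_eq' _ _ h.re3 h.re2, ip_comm, h.g23.2, h.c32]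

theorem el_mul (h : CR F f1 f2 f3) (t x y z t' x' y' z' : ℚ) :
    el F f1 f2 f3 t x y z * el F f1 f2 f3 t' x' y' z' =
    el F f1 f2 f3
      (t * t' - F.b * F.c * x * x' - F.a * F.c * y * y' - F.a * F.b * z * z'
        + F.a * F.u * y * z' + F.b * F.v * z * x' + F.c * F.w * x * y'
        - F.v * F.w * z * y' - F.u * F.w * x * z' - F.u * F.v * y * x')
      (t * x' + x * t' + F.u * x * x' - F.a * y * z' + F.a * z * y' + F.w * x * z' + F.v * y * x')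
      (t * y' + y * t' + F.v * y * y' - F.b * z * x' + F.b * x * z' + F.w * z * y' + F.u * y * x')
      (t * z' + z * t' + F.w * z * z' - F.c * x * y' + F.c * y * x' + F.v * z * y'
        + F.u * x * z') := by
  simp only [el, mul_add, add_mul, smul_mul_assoc, mul_smul_comm, h.ff11, h.ff12, h.ff13,
    h.ff21, h.ff22, h.ff23, h.ff31, h.ff32, h.ff33, one_mul, mul_one]
  module

end CR

variable {F : TF} {f1 f2 f3 : ℍ[ℚ,a,b]}

theorem el_one : el F f1 f2 f3 1 0 0 0 = 1 := by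
  simp [el]

theorem el_add (t x y z t' x' y' z' : ℚ) :
    el F f1 f2 f3 t x y z + el F f1 f2 f3 t' x' y' z'
      = el F f1 f2 f3 (t + t') (x + x') (y + y') (z + z') := by
  simp only [el]; module

theorem el_neg (t x y z : ℚ) :
    -el F f1 f2 f3 t x y z = el F f1 f2 f3 (-t) (-x) (-y) (-z) := by
  simp only [el]; module

theorem el_smul (r t x y z : ℚ) :
    r • el F f1 f2 f3 t x y z = el F f1 f2 f3 (r * t) (r * x) (r * y) (r * z) := by
  simp only [el]; module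

theorem CR.el_sub_star (h : CR F f1 f2 f3) (t x y z : ℚ) :
    el F f1 f2 f3 t x y z - star (el F f1 f2 f3 t x y z) = x • f1 + y • f2 + z • f3 := by
  have h1 := h.re1
  have h2 := h.re2
  have h3 := h.re3
  ext <;> simp [el, h1, h2, h3] <;> ring

theorem CR.tr_el (h : CR F f1 f2 f3) (t x y z : ℚ) :
    tr (el F f1 f2 f3 t x y z) = 2 * t + F.u * x + F.v * y + F.w * z := by
  have h1 := h.re1
  have h2 := h.re2
  have h3 := h.re3
  rw [tr_eq]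
  simp [el, h1, h2, h3]; ring

theorem CR.nr_el (h : CR F f1 f2 f3) (t x y z : ℚ) :
    nr (el F f1 f2 f3 t x y z) = t ^ 2 + F.u * t * x + F.v * t * y + F.w * t * z
      + F.b * F.c * x ^ 2 + F.a * F.c * y ^ 2 + F.a * F.b * z ^ 2
      + (F.u * F.v - F.c * F.w) * x * y + (F.u * F.w - F.b * F.v) * x * z
      + (F.v * F.w - F.a * F.u) * y * z := by
  have h1 := h.re1
  have h2 := h.re2
  have h3 := h.re3
  have e1 : ip f1 (1 : ℍ[ℚ,a,b]) = 0 := by simp [ip, h1]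
  have e2 : ip f2 (1 : ℍ[ℚ,a,b]) = 0 := by simp [ip, h2]
  have e3 : ip f3 (1 : ℍ[ℚ,a,b]) = 0 := by simp [ip, h3]
  have e4 : ip (1 : ℍ[ℚ,a,b]) 1 = 1 := by simp [ip]
  rw [← ip_self]
  simp only [el, ip_add_left, ip_add_right, ip_smul_left, ip_smul_right]
  rw [ip_comm f2 f1, ip_comm f3 f1, ip_comm f3 f2, ip_comm 1 f1, ip_comm 1 f2, ip_comm 1 f3,
    e1, e2, e3, e4, h.g1.1, h.g1.2, h.g13.1, h.g13.2, h.g23.1, h.g23.2]
  ring

/-- the order `ℤ + ℤ i + ℤ j + ℤ k` -/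
def mkOrd (h : CR F f1 f2 f3) : Subring ℍ[ℚ,a,b] where
  carrier := {s | ∃ t x y z : ℤ, s = el F f1 f2 f3 t x y z}
  mul_mem' := by
    rintro _ _ ⟨t, x, y, z, rfl⟩ ⟨t', x', y', z', rfl⟩
    rw [h.el_mul]
    exact ⟨t * t' - F.b * F.c * x * x' - F.a * F.c * y * y' - F.a * F.b * z * z'
        + F.a * F.u * y * z' + F.b * F.v * z * x' + F.c * F.w * x * y'
        - F.v * F.w * z * y' - F.u * F.w * x * z' - F.u * F.v * y * x',
        t * x' + x * t' + F.u * x * x' - F.a * y * z' + F.a * z * y' + F.w * x * z' + F.v * y * x',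
        t * y' + y * t' + F.v * y * y' - F.b * z * x' + F.b * x * z' + F.w * z * y' + F.u * y * x',
        t * z' + z * t' + F.w * z * z' - F.c * x * y' + F.c * y * x' + F.v * z * y'
          + F.u * x * z', by push_cast; rfl⟩
  one_mem' := ⟨1, 0, 0, 0, by push_cast; exact el_one.symm⟩
  add_mem' := by
    rintro _ _ ⟨t, x, y, z, rfl⟩ ⟨t', x', y', z', rfl⟩
    exact ⟨t + t', x + x', y + y', z + z', by rw [el_add]; push_cast; rfl⟩
  zero_mem' := ⟨0, 0, 0, 0, by simp [el]⟩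
  neg_mem' := by
    rintro _ ⟨t, x, y, z, rfl⟩
    exact ⟨-t, -x, -y, -z, by rw [el_neg]; push_cast; rfl⟩

theorem mem_mkOrd (h : CR F f1 f2 f3) (s : ℍ[ℚ,a,b]) :
    s ∈ mkOrd h ↔ ∃ t x y z : ℤ, s = el F f1 f2 f3 t x y z := Iff.rfl

instance mkOrd_finite (h : CR F f1 f2 f3) : Module.Finite ℤ (mkOrd h) := by
  let φ : (Fin 4 → ℤ) →ₗ[ℤ] (mkOrd h) :=
    { toFun := fun c => ⟨el F f1 f2 f3 (c 0) (c 1) (c 2) (c 3), ⟨c 0, c 1, c 2, c 3, rfl⟩⟩
      map_add' := by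
        intro c c'
        apply Subtype.ext
        simp only [Pi.add_apply, Subring.coe_add, el_add]
        push_cast; rfl
      map_smul' := by
        intro m c
        apply Subtype.ext
        simp only [Pi.smul_apply, smul_eq_mul, eq_intCast, Int.cast_id]
        change _ = (m : ℤ) • (el F f1 f2 f3 (c 0) (c 1) (c 2) (c 3))
        rw [← Int.cast_smul_eq_zsmul ℚ, el_smul]
        push_cast; rfl }
  refine Module.Finite.of_surjective φ ?_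
  rintro ⟨_, t, x, y, z, rfl⟩
  refine ⟨![t, x, y, z], ?_⟩
  apply Subtype.ext
  simp [φ]

end Pool.Agent.Lib.MP_1c9ad1_nt
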