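import Pool.Agent.Lib.MP_1c9ad1_nt.Quat3
import Mathlib.RingTheory.Polynomial.GaussLemma
import Mathlib.RingTheory.Polynomial.RationalRoot
import Mathlib.RingTheory.Localization.Rat

/-!
# Integrality of the reduced trace and norm on an order
-/

namespace Pool.Agent.Lib.MP_1c9ad1_nt

open Quaternion Polynomial

variable {a b : ℚ}

theorem integral_of_mem (O : Subring ℍ[ℚ,a,b]) [Module.Finite ℤ O] {x : ℍ[ℚ,a,b]} (hx : x ∈ O) :
    IsIntegral ℤ x := by
  have h : IsIntegral ℤ (⟨x, hx⟩ : O) := Algebra.IsIntegral.isIntegral _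
  exact h.map (RingHom.toIntAlgHom O.subtype)

theorem quad_eq (x : ℍ[ℚ,a,b]) : x * x = (tr x) • x - (nr x) • 1 := by
  ext <;> simp [tr_eq, nr_eq] <;> ring

theorem tr_nr_int {x : ℍ[ℚ,a,b]} (hx : IsIntegral ℤ x) : ∃ t n : ℤ, tr x = t ∧ nr x = n := by
  by_cases him : x.imI = 0 ∧ x.imJ = 0 ∧ x.imK = 0
  · obtain ⟨h1, h2, h3⟩ := him
    have e : x = algebraMap ℚ ℍ[ℚ,a,b] x.re := by
      ext <;> simp [h1, h2, h3]
    rw [e, isIntegral_algebraMap_iff QuaternionAlgebra.algebraMap_injective,
      IsIntegrallyClosed.isIntegral_iff] at hx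
    obtain ⟨m, hm⟩ := hx
    refine ⟨2 * m, m ^ 2, ?_, ?_⟩
    · rw [tr_eq, ← hm]; simp
    · rw [nr_eq, h1, h2, h3, ← hm]; simp
  · obtain ⟨f, hf, hfx⟩ := hx
    set g : ℚ[X] := X ^ 2 - C (tr x) * X + C (nr x) with hg
    have hdeg : (- C (tr x) * X + C (nr x)).degree < ((2 : ℕ) : WithBot ℕ) := by
      refine lt_of_le_of_lt (b := ((1 : ℕ) : WithBot ℕ)) ?_ (by norm_num)
      compute_degree
      norm_num
    have hgm : g.Monic := by
      have : g = X ^ 2 + (- C (tr x) * X + C (nr x)) := by rw [hg]; ring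
      rw [this]
      exact monic_X_pow_add hdeg
    have hgdeg : g.natDegree = 2 := by
      rw [hg]; compute_degree!
    have hgx : aeval x g = 0 := by
      have h1 : (algebraMap ℚ ℍ[ℚ,a,b]) (tr x) * x = (tr x) • x := (Algebra.smul_def _ _).symm
      have h2 : (algebraMap ℚ ℍ[ℚ,a,b]) (nr x) = (nr x) • 1 := by
        rw [Algebra.smul_def, mul_one]
      rw [hg, map_add, map_sub, map_mul, map_pow, aeval_X, aeval_C, aeval_C, pow_two, quad_eq,
        h1, h2]
      abel
    have hf' : aeval x (f.map (algebraMap ℤ ℚ)) = 0 := by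
      rw [aeval_map_algebraMap ℚ x f]
      exact hfx
    have hdvd : g ∣ f.map (algebraMap ℤ ℚ) := by
      set P := f.map (algebraMap ℤ ℚ) with hP
      rw [← modByMonic_eq_zero_iff_dvd hgm]
      set r := P %ₘ g with hr
      have hrx : aeval x r = 0 := by
        have h1 := modByMonic_add_div P g
        have h2 := congrArg (aeval x) h1
        rw [map_add, map_mul, hgx, zero_mul, add_zero, hf'] at h2
        exact h2
      have hrd : r.natDegree ≤ 1 := by
        have := natDegree_modByMonic_lt P hgm (by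
          intro h1
          rw [h1] at hgdeg
          simp at hgdeg)
        rw [← hr] at this
        omega
      have hre := eq_X_add_C_of_natDegree_le_one hrd
      have hx1 : (r.coeff 1) • x + (r.coeff 0) • (1 : ℍ[ℚ,a,b]) = 0 := by
        rw [hre] at hrx
        rw [map_add, map_mul, aeval_C, aeval_C, aeval_X, ← Algebra.smul_def,
          Algebra.algebraMap_eq_smul_one] at hrx
        exact hrx
      have c1 : r.coeff 1 = 0 := by
        by_contra hne
        apply him
        have e1 := congrArg QuaternionAlgebra.imI hx1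
        have e2 := congrArg QuaternionAlgebra.imJ hx1
        have e3 := congrArg QuaternionAlgebra.imK hx1
        simp [hne] at e1 e2 e3
        exact ⟨e1, e2, e3⟩
      have c0 : r.coeff 0 = 0 := by
        have e0 := congrArg QuaternionAlgebra.re hx1
        simpa [c1] using e0
      rw [hre, c1, c0]; simp
    obtain ⟨g', hg'⟩ := IsIntegrallyClosed.eq_map_mul_C_of_dvd ℚ hf hdvd
    rw [hgm.leadingCoeff, C_1, mul_one] at hg'
    refine ⟨-g'.coeff 1, g'.coeff 0, ?_, ?_⟩
    · have := congrArg (fun P => P.coeff 1) hg'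
      simp only [coeff_map] at this
      rw [hg] at this
      simp at this
      push_cast
      linarith
    · have := congrArg (fun P => P.coeff 0) hg'
      simp only [coeff_map] at this
      rw [hg] at this
      simp at this
      linarith

end Pool.Agent.Lib.MP_1c9ad1_nt
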