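import Pool.Agent.Lib.MP_1c9ad1_nt.Quat4
import Mathlib.LinearAlgebra.Dimension.Localization
import Mathlib.LinearAlgebra.FiniteDimensional.Lemmas
import Mathlib.LinearAlgebra.Matrix.ToLinearEquiv

/-!
# The Gross lattice of an order
-/

namespace Pool.Agent.Lib.MP_1c9ad1_nt

open Quaternion Module

variable {a b : ℚ}

/-- the Gross lattice `{x - x̄ : x ∈ O} = {2 x - Tr x : x ∈ O}`. -/
def grossL (O : Subring ℍ[ℚ,a,b]) : AddSubgroup ℍ[ℚ,a,b] where
  carrier := {h | ∃ x ∈ O, h = x - star x}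
  add_mem' := by
    rintro _ _ ⟨x, hx, rfl⟩ ⟨y, hy, rfl⟩
    exact ⟨x + y, O.add_mem hx hy, by rw [star_add]; abel⟩
  zero_mem' := ⟨0, O.zero_mem, by simp⟩
  neg_mem' := by
    rintro _ ⟨x, hx, rfl⟩
    exact ⟨-x, O.neg_mem hx, by rw [star_neg]; abel⟩

theorem mem_grossL {O : Subring ℍ[ℚ,a,b]} {h : ℍ[ℚ,a,b]} :
    h ∈ grossL O ↔ ∃ x ∈ O, h = x - star x := Iff.rfl

theorem grossL_re {O : Subring ℍ[ℚ,a,b]} {h : ℍ[ℚ,a,b]} (hh : h ∈ grossL O) : h.re = 0 := by
  obtain ⟨x, _, rfl⟩ := hh
  simp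

/-- a lattice basis is linearly independent over `ℚ`. -/
theorem ind_of_B3 {O : Subring ℍ[ℚ,a,b]} {f1 f2 f3 : grossL O} (h : B3 f1 f2 f3) :
    Ind (f1 : ℍ[ℚ,a,b]) f2 f3 := by
  intro x y z e
  have hx : (x.den : ℚ) ≠ 0 := by exact_mod_cast x.den_ne_zero
  have hy : (y.den : ℚ) ≠ 0 := by exact_mod_cast y.den_ne_zero
  have hz : (z.den : ℚ) ≠ 0 := by exact_mod_cast z.den_ne_zero
  have h1 : (x.num * y.den * z.den : ℤ) • f1 + (y.num * x.den * z.den : ℤ) • f2
      + (z.num * x.den * y.den : ℤ) • f3 = 0 := by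
    apply Subtype.ext
    push_cast
    simp only [← Int.cast_smul_eq_zsmul ℚ]
    push_cast
    have ex : x * x.den = x.num := Rat.mul_den_eq_num x
    have ey : y * y.den = y.num := Rat.mul_den_eq_num y
    have ez : z * z.den = z.num := Rat.mul_den_eq_num z
    rw [← ex, ← ey, ← ez]
    have : ((x.den : ℚ) * y.den * z.den) • (x • (f1 : ℍ[ℚ,a,b]) + y • (f2 : ℍ[ℚ,a,b])
      + z • (f3 : ℍ[ℚ,a,b])) = 0 := by rw [e, smul_zero]
    rw [← this]
    module
  obtain ⟨a1, a2, a3⟩ := h.2 _ _ _ h1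
  have k1 : (x.num : ℚ) * y.den * z.den = 0 := by exact_mod_cast a1
  have k2 : (y.num : ℚ) * x.den * z.den = 0 := by exact_mod_cast a2
  have k3 : (z.num : ℚ) * x.den * y.den = 0 := by exact_mod_cast a3
  simp only [mul_eq_zero, hx, hy, hz, or_false] at k1 k2 k3
  refine ⟨?_, ?_, ?_⟩
  · exact Rat.num_eq_zero.mp (by exact_mod_cast k1)
  · exact Rat.num_eq_zero.mp (by exact_mod_cast k2)
  · exact Rat.num_eq_zero.mp (by exact_mod_cast k3)

/-- existence of a basis of the Gross lattice -/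
theorem exists_B3 (O : Subring ℍ[ℚ,a,b]) [hfin : Module.Finite ℤ O]
    (hspan : Submodule.span ℚ (O : Set ℍ[ℚ,a,b]) = ⊤) :
    ∃ f1 f2 f3 : grossL O, B3 f1 f2 f3 := by
  -- finiteness
  have hfinL : Module.Finite ℤ (grossL O) := by
    let φ : O →+ grossL O :=
      { toFun := fun x => ⟨x - star (x : ℍ[ℚ,a,b]), x, x.2, rfl⟩
        map_zero' := by apply Subtype.ext; simp
        map_add' := by
          intro x y
          apply Subtype.ext
          simp only [Subring.coe_add, star_add, AddSubgroup.coe_add]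
          abel }
    refine Module.Finite.of_surjective φ.toIntLinearMap ?_
    rintro ⟨_, x, hx, rfl⟩
    exact ⟨⟨x, hx⟩, rfl⟩
  have htf0 : Module.IsTorsionFree ℤ ℍ[ℚ,a,b] := Module.IsTorsionFree.trans_faithfulSMul ℤ ℚ _
  have htf : Module.IsTorsionFree ℤ (grossL O) :=
    Function.Injective.moduleIsTorsionFree (Subtype.val : grossL O → ℍ[ℚ,a,b])
      Subtype.val_injective (fun _ _ => rfl)
  have hfree : Module.Free ℤ (grossL O) := inferInstance
  let B := Module.Free.chooseBasis ℤ (grossL O)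
  let v : Module.Free.ChooseBasisIndex ℤ (grossL O) → ℍ[ℚ,a,b] := fun i => (B i : ℍ[ℚ,a,b])
  have hli : LinearIndependent ℚ v := by
    rw [← LinearIndependent.iff_fractionRing (R := ℤ)]
    have h1 := B.linearIndependent.map' (grossL O).subtype.toIntLinearMap (by
      rw [LinearMap.ker_eq_bot]
      exact Subtype.val_injective)
    exact h1
  -- the trace-zero subspace
  let W : Submodule ℚ ℍ[ℚ,a,b] := LinearMap.ker (QuaternionAlgebra.reₗ a (0:ℚ) b)
  have hW : finrank ℚ W = 3 := by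
    have h1 := LinearMap.finrank_range_add_finrank_ker (QuaternionAlgebra.reₗ a (0:ℚ) b)
    have h2 : LinearMap.range (QuaternionAlgebra.reₗ a (0:ℚ) b) = ⊤ := by
      rw [LinearMap.range_eq_top]
      intro r
      exact ⟨(r : ℍ[ℚ,a,b]), rfl⟩
    rw [h2, finrank_top, Module.finrank_self, QuaternionAlgebra.finrank_eq_four] at h1
    change finrank ℚ (LinearMap.ker (QuaternionAlgebra.reₗ a (0:ℚ) b)) = 3
    omega
  have hspanW : Submodule.span ℚ (Set.range v) = W := by
    apply le_antisymm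
    · rw [Submodule.span_le]
      rintro _ ⟨i, rfl⟩
      exact grossL_re (B i).2
    · -- image of δ
      let δ : ℍ[ℚ,a,b] →ₗ[ℚ] ℍ[ℚ,a,b] :=
        { toFun := fun x => x - star x
          map_add' := by intro x y; rw [star_add]; abel
          map_smul' := by
            intro r x
            rw [QuaternionAlgebra.star_smul']
            simp only [RingHom.id_apply]
            module }
      have hL : ∀ h ∈ grossL O, h ∈ Submodule.span ℚ (Set.range v) := by
        intro h hh
        have h1 := B.sum_repr ⟨h, hh⟩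
        have h2 := congrArg (fun t : grossL O => (t : ℍ[ℚ,a,b])) h1
        simp only [AddSubgroup.val_finsetSum] at h2
        rw [← h2]
        apply Submodule.sum_mem
        intro i _
        rw [AddSubgroup.coe_zsmul, ← Int.cast_smul_eq_zsmul ℚ]
        exact Submodule.smul_mem _ _ (Submodule.subset_span ⟨i, rfl⟩)
      have hδ : Submodule.map δ ⊤ ≤ Submodule.span ℚ (Set.range v) := by
        rw [← hspan, Submodule.map_span, Submodule.span_le]
        rintro _ ⟨x, hx, rfl⟩
        exact hL _ ⟨x, hx, rfl⟩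
      intro w hw
      apply hδ
      refine ⟨(1 / 2 : ℚ) • w, trivial, ?_⟩
      have hwre : w.re = 0 := hw
      change (1 / 2 : ℚ) • w - star ((1 / 2 : ℚ) • w) = w
      ext <;> simp [hwre] <;> ring
  have hcard : Fintype.card (Module.Free.ChooseBasisIndex ℤ (grossL O)) = 3 := by
    rw [← hW, ← hspanW]
    exact (finrank_span_eq_card hli).symm
  let e : Module.Free.ChooseBasisIndex ℤ (grossL O) ≃ Fin 3 := Fintype.equivFinOfCardEq hcard
  let B' := B.reindex e
  refine ⟨B' 0, B' 1, B' 2, ?_, ?_⟩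
  · intro w
    refine ⟨B'.repr w 0, B'.repr w 1, B'.repr w 2, ?_⟩
    have := B'.sum_repr w
    rw [Fin.sum_univ_three] at this
    exact this.symm
  · intro x y z h
    have h1 := B'.linearIndependent
    rw [Fintype.linearIndependent_iff] at h1
    have h2 := h1 ![x, y, z] (by rw [Fin.sum_univ_three]; simpa using h)
    exact ⟨h2 0, h2 1, h2 2⟩

end Pool.Agent.Lib.MP_1c9ad1_nt
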