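import Pool.Agent.Lib.MP_1c9ad1_nt.Quat5

/-!
# Every basis of the Gross lattice of an order comes from an integral ternary form
-/

namespace Pool.Agent.Lib.MP_1c9ad1_nt

open Quaternion Module

variable {a b : ℚ}

theorem rat_mem (O : Subring ℍ[ℚ,a,b]) [Module.Finite ℤ O] {r : ℚ}
    (hr : (r : ℍ[ℚ,a,b]) ∈ O) : ∃ m : ℤ, r = m := by
  have hx := integral_of_mem O hr
  have e : (r : ℍ[ℚ,a,b]) = algebraMap ℚ ℍ[ℚ,a,b] r := rfl
  rw [e, isIntegral_algebraMap_iff QuaternionAlgebra.algebraMap_injective,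
    IsIntegrallyClosed.isIntegral_iff] at hx
  obtain ⟨m, hm⟩ := hx
  exact ⟨m, by rw [← hm]; simp⟩

theorem cr_eq (x y : ℍ[ℚ,a,b]) : cr (x - star x) (y - star y)
    = (2 : ℚ) • (x * y - star (x * y)) - (tr x) • (y - star y) - (tr y) • (x - star x) := by
  ext <;> simp [cr, tr_eq] <;> ring

theorem jacobi (x y z : ℍ[ℚ,a,b]) : cr x (cr y z) + cr y (cr z x) + cr z (cr x y) = 0 := by
  ext <;> simp [cr] <;> ring

theorem T_ne {f1 f2 f3 : ℍ[ℚ,a,b]} (hab : a * b ≠ 0) (h1 : f1.re = 0) (h2 : f2.re = 0)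
    (h3 : f3.re = 0) (hi : Ind f1 f2 f3) : ip f1 (cr f2 f3) ≠ 0 := by
  rw [ip_cr_det _ _ _ h1 h2 h3]
  intro h0
  have hdet : Matrix.det !![f1.imI, f1.imJ, f1.imK; f2.imI, f2.imJ, f2.imK;
      f3.imI, f3.imJ, f3.imK] = 0 := by
    rcases mul_eq_zero.mp h0 with h | h
    · exact absurd h hab
    · simp [Matrix.det_fin_three]
      linarith
  obtain ⟨v, hv, hv0⟩ := Matrix.exists_vecMul_eq_zero_iff.mpr hdet
  have e0 := congrFun hv0 0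
  have e1 := congrFun hv0 1
  have e2 := congrFun hv0 2
  simp [Matrix.vecMul, dotProduct, Fin.sum_univ_three] at e0 e1 e2
  obtain ⟨a1, a2, a3⟩ := hi (v 0) (v 1) (v 2) (by
    ext
    · simp [h1, h2, h3]
    · simpa using e0
    · simpa using e1
    · simpa using e2)
  apply hv
  ext i
  fin_cases i
  · exact a1
  · exact a2
  · exact a3

theorem sym_of_jacobi {f1 f2 f3 : ℍ[ℚ,a,b]} {A B C w v u w' v' u' : ℚ}
    (hT : ip f1 (cr f2 f3) ≠ 0) (h1 : f1.re = 0) (h2 : f2.re = 0) (h3 : f3.re = 0)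
    (c23 : cr f2 f3 = -(A • f1 + w • f2 + v • f3))
    (c31 : cr f3 f1 = -(w' • f1 + B • f2 + u • f3))
    (c12 : cr f1 f2 = -(v' • f1 + u' • f2 + C • f3)) : w = w' ∧ v = v' ∧ u = u' := by
  have hJ := jacobi f1 f2 f3
  have d1 : cr f1 (cr f2 f3) = -(w • cr f1 f2 + v • cr f1 f3) := by
    rw [c23, cr_neg_right, cr_add_right, cr_add_right, cr_smul_right, cr_smul_right,
      cr_smul_right, cr_self, smul_zero, zero_add]
  have d2 : cr f2 (cr f3 f1) = -(w' • cr f2 f1 + u • cr f2 f3) := by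
    rw [c31, cr_neg_right, cr_add_right, cr_add_right, cr_smul_right, cr_smul_right,
      cr_smul_right, cr_self, smul_zero, add_zero]
  have d3 : cr f3 (cr f1 f2) = -(v' • cr f3 f1 + u' • cr f3 f2) := by
    rw [c12, cr_neg_right, cr_add_right, cr_add_right, cr_smul_right, cr_smul_right,
      cr_smul_right, cr_self, smul_zero, add_zero]
  have e : (w' - w) • cr f1 f2 + (v - v') • cr f3 f1 + (u' - u) • cr f2 f3 = 0 := by
    rw [d1, d2, d3, cr_comm f1 f3, cr_comm f2 f1, cr_comm f3 f2] at hJ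
    linear_combination (norm := module) hJ
  have hT2 : ip f2 (cr f3 f1) = ip f1 (cr f2 f3) := (ip_cr_cyc f1 f2 f3 h1 h2 h3).symm
  have hT3 : ip f3 (cr f1 f2) = ip f1 (cr f2 f3) := by
    rw [← ip_cr_cyc f2 f3 f1 h2 h3 h1, hT2]
  have z1 : ∀ x y : ℍ[ℚ,a,b], ip x (cr y x) = 0 := by
    intro x y
    rw [cr_comm, ip_neg_right, ip_cr_self_left, neg_zero]
  have e1 := congrArg (ip f1) e
  have e2 := congrArg (ip f2) e
  have e3 := congrArg (ip f3) e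
  have z0 : ∀ x : ℍ[ℚ,a,b], ip x 0 = 0 := by intro x; simp [ip]
  rw [z0] at e1 e2 e3
  simp only [ip_add_right, ip_smul_right, ip_cr_self_left, z1, hT2, hT3, mul_zero, zero_add,
    add_zero] at e1 e2 e3
  refine ⟨?_, ?_, ?_⟩
  · rcases mul_eq_zero.mp e3 with h | h
    · linarith
    · exact absurd h hT
  · rcases mul_eq_zero.mp e2 with h | h
    · linarith
    · exact absurd h hT
  · rcases mul_eq_zero.mp e1 with h | h
    · linarith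
    · exact absurd h hT

/-- Every basis of the Gross lattice comes from an integral ternary form. -/
theorem exists_CR (hab : a * b ≠ 0) (O : Subring ℍ[ℚ,a,b]) [Module.Finite ℤ O]
    {f1 f2 f3 : grossL O} (h : B3 f1 f2 f3) :
    ∃ F : TF, ∃ hC : CR F (f1 : ℍ[ℚ,a,b]) f2 f3, O = mkOrd hC := by
  have hI := ind_of_B3 h
  have r1 := grossL_re f1.2
  have r2 := grossL_re f2.2
  have r3 := grossL_re f3.2
  have hT := T_ne hab r1 r2 r3 hI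
  obtain ⟨x1, hx1, e1⟩ := f1.2
  obtain ⟨x2, hx2, e2⟩ := f2.2
  obtain ⟨x3, hx3, e3⟩ := f3.2
  obtain ⟨n1, _, hn1, _⟩ := tr_nr_int (integral_of_mem O hx1)
  obtain ⟨n2, _, hn2, _⟩ := tr_nr_int (integral_of_mem O hx2)
  obtain ⟨n3, _, hn3, _⟩ := tr_nr_int (integral_of_mem O hx3)
  have key : ∀ x y : ℍ[ℚ,a,b], x ∈ O → y ∈ O → ∃ α β γ : ℤ,
      x * y - star (x * y) = (α : ℚ) • (f1 : ℍ[ℚ,a,b]) + (β : ℚ) • (f2 : ℍ[ℚ,a,b])
        + (γ : ℚ) • (f3 : ℍ[ℚ,a,b]) := by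
    intro x y hx hy
    have hm : x * y - star (x * y) ∈ grossL O := ⟨x * y, O.mul_mem hx hy, rfl⟩
    obtain ⟨α, β, γ, he⟩ := h.1 ⟨_, hm⟩
    refine ⟨α, β, γ, ?_⟩
    have := congrArg (fun t : grossL O => (t : ℍ[ℚ,a,b])) he
    simp only [AddSubgroup.coe_add, AddSubgroup.coe_zsmul] at this
    rw [this]
    simp only [Int.cast_smul_eq_zsmul]
  obtain ⟨α1, α2, α3, hα⟩ := key x2 x3 hx2 hx3
  obtain ⟨β1, β2, β3, hβ⟩ := key x3 x1 hx3 hx1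
  obtain ⟨γ1, γ2, γ3, hγ⟩ := key x1 x2 hx1 hx2
  have c23 : cr (f2 : ℍ[ℚ,a,b]) f3 = -((2 * (-α1) : ℚ) • (f1 : ℍ[ℚ,a,b])
      + ((n3 - 2 * α2 : ℚ)) • (f2 : ℍ[ℚ,a,b]) + ((n2 - 2 * α3 : ℚ)) • (f3 : ℍ[ℚ,a,b])) := by
    have := cr_eq x2 x3
    rw [← e2, ← e3, hα, hn2, hn3] at this
    rw [this]; module
  have c31 : cr (f3 : ℍ[ℚ,a,b]) f1 = -((n3 - 2 * β1 : ℚ) • (f1 : ℍ[ℚ,a,b])
      + ((2 * (-β2) : ℚ)) • (f2 : ℍ[ℚ,a,b]) + ((n1 - 2 * β3 : ℚ)) • (f3 : ℍ[ℚ,a,b])) := by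
    have := cr_eq x3 x1
    rw [← e3, ← e1, hβ, hn3, hn1] at this
    rw [this]; module
  have c12 : cr (f1 : ℍ[ℚ,a,b]) f2 = -((n2 - 2 * γ1 : ℚ) • (f1 : ℍ[ℚ,a,b])
      + ((n1 - 2 * γ2 : ℚ)) • (f2 : ℍ[ℚ,a,b]) + ((2 * (-γ3) : ℚ)) • (f3 : ℍ[ℚ,a,b])) := by
    have := cr_eq x1 x2
    rw [← e1, ← e2, hγ, hn1, hn2] at this
    rw [this]; module
  obtain ⟨hw, hv, hu⟩ := sym_of_jacobi hT r1 r2 r3 c23 c31 c12
  let F : TF := ⟨-α1, -β2, -γ3, n1 - 2 * β3, n2 - 2 * α3, n3 - 2 * α2⟩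
  have hC : CR F (f1 : ℍ[ℚ,a,b]) f2 f3 :=
    { re1 := r1
      re2 := r2
      re3 := r3
      ind := hI
      c23 := by rw [c23]; simp only [F]; push_cast; rfl
      c31 := by rw [c31, ← hw]; simp only [F]; push_cast; rfl
      c12 := by rw [c12, ← hu, ← hv]; simp only [F]; push_cast; rfl }
  refine ⟨F, hC, ?_⟩
  -- the generators lie in `O`
  have g1 : el F (f1 : ℍ[ℚ,a,b]) f2 f3 0 1 0 0 ∈ O := by
    have : el F (f1 : ℍ[ℚ,a,b]) f2 f3 0 1 0 0 = x1 + ((-β3 : ℤ) : ℍ[ℚ,a,b]) := by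
      rw [e1, e2, e3]
      have ht : (2 : ℚ) * x1.re = n1 := by rw [← tr_eq]; exact hn1
      simp only [el, F]
      ext <;> simp <;> linarith
    rw [this]
    exact O.add_mem hx1 (intCast_mem O _)
  have g2 : el F (f1 : ℍ[ℚ,a,b]) f2 f3 0 0 1 0 ∈ O := by
    have : el F (f1 : ℍ[ℚ,a,b]) f2 f3 0 0 1 0 = x2 + ((-α3 : ℤ) : ℍ[ℚ,a,b]) := by
      rw [e1, e2, e3]
      have ht : (2 : ℚ) * x2.re = n2 := by rw [← tr_eq]; exact hn2
      simp only [el, F]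
      ext <;> simp <;> linarith
    rw [this]
    exact O.add_mem hx2 (intCast_mem O _)
  have g3 : el F (f1 : ℍ[ℚ,a,b]) f2 f3 0 0 0 1 ∈ O := by
    have : el F (f1 : ℍ[ℚ,a,b]) f2 f3 0 0 0 1 = x3 + ((-α2 : ℤ) : ℍ[ℚ,a,b]) := by
      rw [e1, e2, e3]
      have ht : (2 : ℚ) * x3.re = n3 := by rw [← tr_eq]; exact hn3
      simp only [el, F]
      ext <;> simp <;> linarith
    rw [this]
    exact O.add_mem hx3 (intCast_mem O _)
  have hgen : ∀ x y z : ℤ, el F (f1 : ℍ[ℚ,a,b]) f2 f3 0 x y z ∈ O := by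
    intro x y z
    have : el F (f1 : ℍ[ℚ,a,b]) f2 f3 0 x y z
        = (x : ℤ) • el F (f1 : ℍ[ℚ,a,b]) f2 f3 0 1 0 0
          + (y : ℤ) • el F (f1 : ℍ[ℚ,a,b]) f2 f3 0 0 1 0
          + (z : ℤ) • el F (f1 : ℍ[ℚ,a,b]) f2 f3 0 0 0 1 := by
      simp only [← Int.cast_smul_eq_zsmul ℚ, el]; module
    rw [this]
    exact O.add_mem (O.add_mem (O.zsmul_mem g1 _) (O.zsmul_mem g2 _)) (O.zsmul_mem g3 _)
  ext s
  rw [mem_mkOrd]
  constructor
  · intro hs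
    have hm : s - star s ∈ grossL O := ⟨s, hs, rfl⟩
    obtain ⟨x, y, z, he⟩ := h.1 ⟨_, hm⟩
    have he' : s - star s = (x : ℚ) • (f1 : ℍ[ℚ,a,b]) + (y : ℚ) • (f2 : ℍ[ℚ,a,b])
        + (z : ℚ) • (f3 : ℍ[ℚ,a,b]) := by
      have := congrArg (fun t : grossL O => (t : ℍ[ℚ,a,b])) he
      simp only [AddSubgroup.coe_add, AddSubgroup.coe_zsmul] at this
      rw [this]
      simp only [Int.cast_smul_eq_zsmul]
    have hsub := hC.el_sub_star 0 x y z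
    rw [← he'] at hsub
    -- the difference is rational
    have hre : s - el F (f1 : ℍ[ℚ,a,b]) f2 f3 0 x y z
        = ((s - el F (f1 : ℍ[ℚ,a,b]) f2 f3 0 x y z).re : ℍ[ℚ,a,b]) := by
      have i1 := congrArg QuaternionAlgebra.imI hsub
      have i2 := congrArg QuaternionAlgebra.imJ hsub
      have i3 := congrArg QuaternionAlgebra.imK hsub
      simp at i1 i2 i3
      ext <;> simp <;> linarith
    have hmem : s - el F (f1 : ℍ[ℚ,a,b]) f2 f3 0 x y z ∈ O := O.sub_mem hs (hgen x y z)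
    rw [hre] at hmem
    obtain ⟨m, hm⟩ := rat_mem O hmem
    refine ⟨m, x, y, z, ?_⟩
    rw [hm] at hre
    have e4 : el F (f1 : ℍ[ℚ,a,b]) f2 f3 m x y z
        = (m : ℚ) • (1 : ℍ[ℚ,a,b]) + el F (f1 : ℍ[ℚ,a,b]) f2 f3 0 x y z := by
      simp only [el]; module
    rw [e4, ← QuaternionAlgebra.coe_mul_eq_smul, mul_one, ← hre]
    abel
  · rintro ⟨t, x, y, z, rfl⟩
    have e4 : el F (f1 : ℍ[ℚ,a,b]) f2 f3 t x y z
        = ((t : ℤ) : ℍ[ℚ,a,b]) + el F (f1 : ℍ[ℚ,a,b]) f2 f3 0 x y z := by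
      have : ((t : ℤ) : ℍ[ℚ,a,b]) = (t : ℚ) • (1 : ℍ[ℚ,a,b]) := by
        rw [← QuaternionAlgebra.coe_mul_eq_smul, mul_one]; rfl
      rw [this]
      simp only [el]; module
    rw [e4]
    exact O.add_mem (intCast_mem O _) (hgen x y z)

end Pool.Agent.Lib.MP_1c9ad1_nt
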