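import Pool.Agent.Lib.MP_1c9ad1_nt.Quat6
import Mathlib.NumberTheory.Padics.Hensel
import Mathlib.NumberTheory.Padics.RingHoms
import Mathlib.FieldTheory.ChevalleyWarning
import Mathlib.LinearAlgebra.Matrix.Nondegenerate

/-!
# Base change of the norm form and local computations
-/

namespace Pool.Agent.Lib.MP_1c9ad1_nt

open Quaternion Module

/-- every nonzero element is invertible -/
def IsDiv (K : Type*) [Field K] (a b : K) : Prop := ∀ x : ℍ[K,a,b], x ≠ 0 → IsUnit x

section general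

variable {K : Type*} [Field K] {a b : K}

theorem mul_star_K (x : ℍ[K,a,b]) :
    x * star x = ⟨x.re ^ 2 - a * x.imI ^ 2 - b * x.imJ ^ 2 + a * b * x.imK ^ 2, 0, 0, 0⟩ := by
  ext <;> simp <;> ring

theorem star_mul_K (x : ℍ[K,a,b]) :
    star x * x = ⟨x.re ^ 2 - a * x.imI ^ 2 - b * x.imJ ^ 2 + a * b * x.imK ^ 2, 0, 0, 0⟩ := by
  ext <;> simp <;> ring

theorem isUnit_of_nr_ne (x : ℍ[K,a,b])
    (h : x.re ^ 2 - a * x.imI ^ 2 - b * x.imJ ^ 2 + a * b * x.imK ^ 2 ≠ 0) : IsUnit x := by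
  set n := x.re ^ 2 - a * x.imI ^ 2 - b * x.imJ ^ 2 + a * b * x.imK ^ 2 with hn
  refine ⟨⟨x, n⁻¹ • star x, ?_, ?_⟩, rfl⟩
  · rw [mul_smul_comm, mul_star_K, ← hn]
    ext <;> simp [h]
  · rw [smul_mul_assoc, star_mul_K, ← hn]
    ext <;> simp [h]

theorem nr_ne_of_isUnit (x : ℍ[K,a,b]) (hx : IsUnit x) :
    x.re ^ 2 - a * x.imI ^ 2 - b * x.imJ ^ 2 + a * b * x.imK ^ 2 ≠ 0 := by
  intro h
  have h1 : star x * x = 0 := by
    rw [star_mul_K, h]; rfl
  have h2 : star x = 0 := by
    obtain ⟨u, rfl⟩ := hx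
    exact (Units.mul_left_eq_zero u).mp h1
  have h3 : x = 0 := by
    have := congrArg star h2
    simpa using this
  exact hx.ne_zero h3

end general

/-- the quaternary norm form -/
def qF {R : Type*} [CommRing R] (F : TF) (t x y z : R) : R :=
  t ^ 2 + F.u * t * x + F.v * t * y + F.w * t * z
      + F.b * F.c * x ^ 2 + F.a * F.c * y ^ 2 + F.a * F.b * z ^ 2
      + (F.u * F.v - F.c * F.w) * x * y + (F.u * F.w - F.b * F.v) * x * z
      + (F.v * F.w - F.a * F.u) * y * z

section base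

variable {a b : ℚ} {F : TF} {f1 f2 f3 : ℍ[ℚ,a,b]} (K : Type*) [Field K] [CharZero K]

theorem base_zero (hab : a * b ≠ 0) (hC : CR F f1 f2 f3)
    (h : ∀ t x y z : K, qF F t x y z = 0 → t = 0 ∧ x = 0 ∧ y = 0 ∧ z = 0) :
    IsDiv K (a : K) (b : K) := by
  have r1 := hC.re1
  have r2 := hC.re2
  have r3 := hC.re3
  have hT := T_ne hab r1 r2 r3 hC.ind
  rw [ip_cr_det _ _ _ r1 r2 r3] at hT
  have hdet : Matrix.det !![(f1.imI : K), f1.imJ, f1.imK; (f2.imI : K), f2.imJ, f2.imK;
      (f3.imI : K), f3.imJ, f3.imK] ≠ 0 := by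
    have hne := right_ne_zero_of_mul hT
    rw [Matrix.det_fin_three]
    simp only [Matrix.of_apply, Matrix.cons_val', Matrix.cons_val_zero, Matrix.cons_val_one,
      Matrix.cons_val_fin_one, Matrix.cons_val]
    have : ((f1.imI * (f2.imJ * f3.imK - f2.imK * f3.imJ) - f1.imJ * (f2.imI * f3.imK
      - f2.imK * f3.imI) + f1.imK * (f2.imI * f3.imJ - f2.imJ * f3.imI) : ℚ) : K) ≠ 0 := by
      exact_mod_cast hne
    push_cast at this
    intro h0
    apply this
    rw [← h0]; ring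
  intro ξ hξ
  apply isUnit_of_nr_ne
  intro hn
  set M := !![(f1.imI : K), f1.imJ, f1.imK; (f2.imI : K), f2.imJ, f2.imK;
      (f3.imI : K), f3.imJ, f3.imK] with hM
  have hu : IsUnit M.det := isUnit_iff_ne_zero.mpr hdet
  let s : Fin 3 → K := Matrix.vecMul ![ξ.imI, ξ.imJ, ξ.imK] M⁻¹
  have hs : Matrix.vecMul s M = ![ξ.imI, ξ.imJ, ξ.imK] := by
    simp only [s]
    rw [Matrix.vecMul_vecMul, Matrix.nonsing_inv_mul _ hu, Matrix.vecMul_one]
  have e1 := congrFun hs 0
  have e2 := congrFun hs 1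
  have e3 := congrFun hs 2
  simp [Matrix.vecMul, dotProduct, Fin.sum_univ_three, hM] at e1 e2 e3
  set x := s 0
  set y := s 1
  set z := s 2
  -- Gram relations over K
  have g11 : (-(a:K) * f1.imI ^ 2 - b * f1.imJ ^ 2 + a * b * f1.imK ^ 2)
      = 4 * F.b * F.c - F.u ^ 2 := by
    have := hC.g1.1
    simp [ip, r1] at this
    have h2 := congrArg (Rat.cast : ℚ → K) this
    push_cast at h2
    linear_combination h2
  have g22 : (-(a:K) * f2.imI ^ 2 - b * f2.imJ ^ 2 + a * b * f2.imK ^ 2)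
      = 4 * F.a * F.c - F.v ^ 2 := by
    have := hC.g23.1
    simp [ip, r2] at this
    have h2 := congrArg (Rat.cast : ℚ → K) this
    push_cast at h2
    linear_combination h2
  have g33 : (-(a:K) * f3.imI ^ 2 - b * f3.imJ ^ 2 + a * b * f3.imK ^ 2)
      = 4 * F.a * F.b - F.w ^ 2 := by
    have := hC.g13.1
    simp [ip, r3] at this
    have h2 := congrArg (Rat.cast : ℚ → K) this
    push_cast at h2
    linear_combination h2
  have g12 : (-(a:K) * f1.imI * f2.imI - b * f1.imJ * f2.imJ + a * b * f1.imK * f2.imK)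
      = F.u * F.v - 2 * F.c * F.w := by
    have := hC.g1.2
    simp [ip, r1, r2] at this
    have h2 := congrArg (Rat.cast : ℚ → K) this
    push_cast at h2
    linear_combination h2
  have g13 : (-(a:K) * f1.imI * f3.imI - b * f1.imJ * f3.imJ + a * b * f1.imK * f3.imK)
      = F.u * F.w - 2 * F.b * F.v := by
    have := hC.g13.2
    simp [ip, r1, r3] at this
    have h2 := congrArg (Rat.cast : ℚ → K) this
    push_cast at h2
    linear_combination h2
  have g23 : (-(a:K) * f2.imI * f3.imI - b * f2.imJ * f3.imJ + a * b * f2.imK * f3.imK)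
      = F.v * F.w - 2 * F.a * F.u := by
    have := hC.g23.2
    simp [ip, r2, r3] at this
    have h2 := congrArg (Rat.cast : ℚ → K) this
    push_cast at h2
    linear_combination h2
  have hq : qF F (ξ.re - (F.u * x + F.v * y + F.w * z)) (2 * x) (2 * y) (2 * z) = 0 := by
    refine Eq.trans ?_ hn
    rw [← e1, ← e2, ← e3]
    simp only [qF]
    linear_combination (-x ^ 2) * g11 - y ^ 2 * g22 - z ^ 2 * g33 - 2 * x * y * g12
      - 2 * x * z * g13 - 2 * y * z * g23
  obtain ⟨h0, h1, h2, h3⟩ := h _ _ _ _ hq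
  have two : (2 : K) ≠ 0 := two_ne_zero
  have hx : x = 0 := by simpa [two] using h1
  have hy : y = 0 := by simpa [two] using h2
  have hz : z = 0 := by simpa [two] using h3
  apply hξ
  rw [hx, hy, hz] at h0 e1 e2 e3
  ext
  · simpa using h0
  · simpa using e1.symm
  · simpa using e2.symm
  · simpa using e3.symm

theorem base_nonzero (hab : a * b ≠ 0) (hC : CR F f1 f2 f3) (hdiv : IsDiv K (a : K) (b : K))
    (t x y z : K) (hq : qF F t x y z = 0) : t = 0 ∧ x = 0 ∧ y = 0 ∧ z = 0 := by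
  have r1 := hC.re1
  have r2 := hC.re2
  have r3 := hC.re3
  have hT := T_ne hab r1 r2 r3 hC.ind
  rw [ip_cr_det _ _ _ r1 r2 r3] at hT
  have hdet : Matrix.det !![(f1.imI : K), f1.imJ, f1.imK; (f2.imI : K), f2.imJ, f2.imK;
      (f3.imI : K), f3.imJ, f3.imK] ≠ 0 := by
    have hne := right_ne_zero_of_mul hT
    rw [Matrix.det_fin_three]
    simp only [Matrix.of_apply, Matrix.cons_val', Matrix.cons_val_zero, Matrix.cons_val_one,
      Matrix.cons_val_fin_one, Matrix.cons_val]
    have : ((f1.imI * (f2.imJ * f3.imK - f2.imK * f3.imJ) - f1.imJ * (f2.imI * f3.imK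
      - f2.imK * f3.imI) + f1.imK * (f2.imI * f3.imJ - f2.imJ * f3.imI) : ℚ) : K) ≠ 0 := by
      exact_mod_cast hne
    push_cast at this
    intro h0
    apply this
    rw [← h0]; ring
  let ξ : ℍ[K,(a : K),(b : K)] := ⟨t + (F.u * x + F.v * y + F.w * z) / 2,
    (x * f1.imI + y * f2.imI + z * f3.imI) / 2, (x * f1.imJ + y * f2.imJ + z * f3.imJ) / 2,
    (x * f1.imK + y * f2.imK + z * f3.imK) / 2⟩
  have g11 : (-(a:K) * f1.imI ^ 2 - b * f1.imJ ^ 2 + a * b * f1.imK ^ 2)
      = 4 * F.b * F.c - F.u ^ 2 := by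
    have := hC.g1.1
    simp [ip, r1] at this
    have h2 := congrArg (Rat.cast : ℚ → K) this
    push_cast at h2
    linear_combination h2
  have g22 : (-(a:K) * f2.imI ^ 2 - b * f2.imJ ^ 2 + a * b * f2.imK ^ 2)
      = 4 * F.a * F.c - F.v ^ 2 := by
    have := hC.g23.1
    simp [ip, r2] at this
    have h2 := congrArg (Rat.cast : ℚ → K) this
    push_cast at h2
    linear_combination h2
  have g33 : (-(a:K) * f3.imI ^ 2 - b * f3.imJ ^ 2 + a * b * f3.imK ^ 2)
      = 4 * F.a * F.b - F.w ^ 2 := by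
    have := hC.g13.1
    simp [ip, r3] at this
    have h2 := congrArg (Rat.cast : ℚ → K) this
    push_cast at h2
    linear_combination h2
  have g12 : (-(a:K) * f1.imI * f2.imI - b * f1.imJ * f2.imJ + a * b * f1.imK * f2.imK)
      = F.u * F.v - 2 * F.c * F.w := by
    have := hC.g1.2
    simp [ip, r1, r2] at this
    have h2 := congrArg (Rat.cast : ℚ → K) this
    push_cast at h2
    linear_combination h2
  have g13 : (-(a:K) * f1.imI * f3.imI - b * f1.imJ * f3.imJ + a * b * f1.imK * f3.imK)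
      = F.u * F.w - 2 * F.b * F.v := by
    have := hC.g13.2
    simp [ip, r1, r3] at this
    have h2 := congrArg (Rat.cast : ℚ → K) this
    push_cast at h2
    linear_combination h2
  have g23 : (-(a:K) * f2.imI * f3.imI - b * f2.imJ * f3.imJ + a * b * f2.imK * f3.imK)
      = F.v * F.w - 2 * F.a * F.u := by
    have := hC.g23.2
    simp [ip, r2, r3] at this
    have h2 := congrArg (Rat.cast : ℚ → K) this
    push_cast at h2
    linear_combination h2
  have hnr : ξ.re ^ 2 - (a:K) * ξ.imI ^ 2 - b * ξ.imJ ^ 2 + a * b * ξ.imK ^ 2 = 0 := by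
    refine Eq.trans ?_ hq
    simp only [qF, ξ]
    linear_combination x ^ 2 / 4 * g11 + y ^ 2 / 4 * g22 + z ^ 2 / 4 * g33 + x * y / 2 * g12
      + x * z / 2 * g13 + y * z / 2 * g23
  have hξ : ξ = 0 := by
    by_contra hne
    exact nr_ne_of_isUnit ξ (hdiv ξ hne) hnr
  have i0 := congrArg QuaternionAlgebra.re hξ
  have i1 := congrArg QuaternionAlgebra.imI hξ
  have i2 := congrArg QuaternionAlgebra.imJ hξ
  have i3 := congrArg QuaternionAlgebra.imK hξ
  have two : (2 : K) ≠ 0 := two_ne_zero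
  simp only [ξ, QuaternionAlgebra.re_zero, QuaternionAlgebra.imI_zero,
    QuaternionAlgebra.imJ_zero, QuaternionAlgebra.imK_zero, div_eq_zero_iff, two,
    or_false] at i0 i1 i2 i3
  have hv := Matrix.eq_zero_of_vecMul_eq_zero hdet (v := ![x, y, z]) (by
    ext i
    fin_cases i
    · simpa [Matrix.vecMul, dotProduct, Fin.sum_univ_three] using i1
    · simpa [Matrix.vecMul, dotProduct, Fin.sum_univ_three] using i2
    · simpa [Matrix.vecMul, dotProduct, Fin.sum_univ_three] using i3)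
  have hx : x = 0 := congrFun hv 0
  have hy : y = 0 := congrFun hv 1
  have hz : z = 0 := congrFun hv 2
  subst hx hy hz
  simp only [mul_zero, add_zero, zero_div] at i0
  exact ⟨i0, rfl, rfl, rfl⟩

end base

end Pool.Agent.Lib.MP_1c9ad1_nt
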