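import Pool.Agent.Lib.MP_1c9ad1_nt.Quat7

/-!
# Local lemmas: anisotropic primes and primes of good reduction
-/

namespace Pool.Agent.Lib.MP_1c9ad1_nt

open Quaternion Module

variable {l : ℕ} [hl : Fact l.Prime]

theorem toZMod_eq_zero_iff (x : ℤ_[l]) : PadicInt.toZMod x = 0 ↔ (l : ℤ_[l]) ∣ x := by
  rw [← RingHom.mem_ker, PadicInt.ker_toZMod, PadicInt.maximalIdeal_eq_span_p,
    Ideal.mem_span_singleton]

/-- the local anisotropy statement over `ℤ_l` -/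
theorem aniso_int {F : TF} {a' v' w' : ℤ} (ha : F.a = l * a') (ha' : ¬ (l : ℤ) ∣ a')
    (hv : F.v = l * v') (hw : F.w = l * w')
    (han : ∀ y z : ZMod l, (F.b : ZMod l) * y ^ 2 + F.u * y * z + F.c * z ^ 2 = 0 →
      y = 0 ∧ z = 0)
    {t x y z : ℤ_[l]} (hq : qF F t x y z = 0) :
    (l : ℤ_[l]) ∣ t ∧ (l : ℤ_[l]) ∣ x ∧ (l : ℤ_[l]) ∣ y ∧ (l : ℤ_[l]) ∣ z := by
  have hl0 : ((l : ℤ) : ZMod l) = 0 := by simp
  have hlne : (l : ℤ_[l]) ≠ 0 := by
    exact_mod_cast hl.out.ne_zero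
  have hb : (F.b : ZMod l) ≠ 0 := by
    intro hb
    have := (han 1 0 (by rw [hb]; ring)).1
    exact one_ne_zero this
  have ha'0 : (a' : ZMod l) ≠ 0 := by
    rwa [Ne, ZMod.intCast_zmod_eq_zero_iff_dvd]
  -- first step
  have h1 := congrArg (PadicInt.toZMod (p := l)) hq
  simp only [qF, map_add, map_mul, map_sub, map_pow, map_intCast, map_zero] at h1
  rw [ha, hv, hw] at h1
  push_cast at h1
  simp only [CharP.cast_eq_zero, zero_mul, mul_zero, add_zero, sub_zero] at h1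
  obtain ⟨k1, k2⟩ := han (PadicInt.toZMod t) (F.b * PadicInt.toZMod x) (by
    linear_combination (F.b : ZMod l) * h1)
  have k3 : PadicInt.toZMod x = 0 := (mul_eq_zero.mp k2).resolve_left hb
  rw [toZMod_eq_zero_iff] at k1 k3
  obtain ⟨t', rfl⟩ := k1
  obtain ⟨x', rfl⟩ := k3
  -- second step
  have h2 : (l : ℤ_[l]) * ((l : ℤ_[l]) * (t' ^ 2 + F.u * t' * x' + F.b * F.c * x' ^ 2
      + v' * t' * y + w' * t' * z + (F.u * v' - F.c * w') * x' * y
      + (F.u * w' - F.b * v') * x' * z + v' * w' * y * z)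
      + a' * (F.c * y ^ 2 + F.b * z ^ 2 - F.u * y * z)) = 0 := by
    rw [← hq]
    simp only [qF]
    rw [ha, hv, hw]
    push_cast
    ring
  have h3 := (mul_eq_zero.mp h2).resolve_left hlne
  have h4 := congrArg (PadicInt.toZMod (p := l)) h3
  simp only [map_add, map_mul, map_sub, map_pow, map_intCast, map_zero, map_natCast,
    CharP.cast_eq_zero, zero_mul, zero_add] at h4
  have h5 := (mul_eq_zero.mp h4).resolve_left ha'0
  obtain ⟨m1, m2⟩ := han (PadicInt.toZMod z) (-PadicInt.toZMod y) (by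
    linear_combination h5)
  rw [neg_eq_zero] at m2
  rw [toZMod_eq_zero_iff] at m1 m2
  exact ⟨dvd_mul_right _ _, dvd_mul_right _ _, m2, m1⟩

theorem isDiv_of_aniso {a b : ℚ} {F : TF} {f1 f2 f3 : ℍ[ℚ,a,b]} (hab : a * b ≠ 0)
    (hC : CR F f1 f2 f3) {a' v' w' : ℤ} (ha : F.a = l * a') (ha' : ¬ (l : ℤ) ∣ a')
    (hv : F.v = l * v') (hw : F.w = l * w')
    (han : ∀ y z : ZMod l, (F.b : ZMod l) * y ^ 2 + F.u * y * z + F.c * z ^ 2 = 0 →
      y = 0 ∧ z = 0) : IsDiv ℚ_[l] (a : ℚ_[l]) (b : ℚ_[l]) := by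
  refine base_zero ℚ_[l] hab hC ?_
  intro t x y z hq
  by_contra hcon
  let s : Fin 4 → ℚ_[l] := ![t, x, y, z]
  obtain ⟨i, hi⟩ := Finite.exists_max (fun j => ‖s j‖)
  have hsi : s i ≠ 0 := by
    intro h0
    have hall : ∀ j, s j = 0 := by
      intro j
      have := hi j
      rw [h0, norm_zero] at this
      exact norm_le_zero_iff.mp this
    exact hcon ⟨hall 0, hall 1, hall 2, hall 3⟩
  have hle : ∀ j, ‖s j / s i‖ ≤ 1 := by
    intro j
    rw [norm_div]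
    exact div_le_one_of_le₀ (hi j) (norm_nonneg _)
  let r : Fin 4 → ℤ_[l] := fun j => ⟨s j / s i, hle j⟩
  have hr : ∀ j, ((r j : ℤ_[l]) : ℚ_[l]) = s j / s i := fun j => rfl
  have hqr : qF F (r 0) (r 1) (r 2) (r 3) = 0 := by
    have h1 : ((qF F (r 0) (r 1) (r 2) (r 3) : ℤ_[l]) : ℚ_[l]) = 0 := by
      simp only [qF]
      push_cast
      rw [hr, hr, hr, hr]
      have h2 : qF F (s 0) (s 1) (s 2) (s 3) = 0 := hq
      simp only [qF] at h2
      have h3 : (s i) ^ 2 ≠ 0 := pow_ne_zero 2 hsi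
      field_simp
      linear_combination h2
    exact PadicInt.coe_eq_zero.mp h1
  obtain ⟨d0, d1, d2, d3⟩ := aniso_int ha ha' hv hw han hqr
  have hri : r i = 1 := by
    apply Subtype.ext
    rw [hr, div_self hsi]
    rfl
  have hdi : (l : ℤ_[l]) ∣ r i := by
    fin_cases i
    · exact d0
    · exact d1
    · exact d2
    · exact d3
  rw [hri] at hdi
  have := isUnit_of_dvd_one hdi
  exact (PadicInt.prime_p (p := l)).not_isUnit this

/-- Hensel for quadratic polynomials -/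
theorem hensel_quad {A B C : ℤ_[l]} (hA : (l : ℤ_[l]) ∣ A) (hB : ¬ (l : ℤ_[l]) ∣ B) :
    ∃ T : ℤ_[l], A + B * T + C * T ^ 2 = 0 ∧ (l : ℤ_[l]) ∣ T := by
  let P : Polynomial ℤ_[l] := Polynomial.C A + Polynomial.C B * Polynomial.X
    + Polynomial.C C * Polynomial.X ^ 2
  have hBn : ‖B‖ = 1 := by
    rcases lt_or_eq_of_le (PadicInt.norm_le_one B) with h | h
    · exact absurd (PadicInt.norm_lt_one_iff_dvd B |>.mp h) hB
    · exact h
  have hAn : ‖A‖ < 1 := (PadicInt.norm_lt_one_iff_dvd A).mpr hA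
  have h0 : P.aeval (0 : ℤ_[l]) = A := by simp [P]
  have h1 : P.derivative.aeval (0 : ℤ_[l]) = B := by simp [P]
  obtain ⟨z, hz, hz2, -⟩ := hensels_lemma (p := l) (F := P) (a := (0 : ℤ_[l])) (by
    rw [h0, h1, hBn]; simpa using hAn)
  refine ⟨z, ?_, ?_⟩
  · simpa [P] using hz
  · rw [h1, hBn, sub_zero] at hz2
    exact (PadicInt.norm_lt_one_iff_dvd z).mp hz2

open MvPolynomial in
theorem cw_zero (F : TF) : ∃ s : Fin 4 → ZMod l, s ≠ 0 ∧ qF F (s 0) (s 1) (s 2) (s 3) = 0 := by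
  let f : MvPolynomial (Fin 4) (ZMod l) := qF F (X 0) (X 1) (X 2) (X 3)
  have hterm : ∀ (n : ℤ) (i j : Fin 4),
      (((n : ℤ) : MvPolynomial (Fin 4) (ZMod l)) * X i * X j).totalDegree ≤ 2 := by
    intro n i j
    have h1 : ((n : ℤ) : MvPolynomial (Fin 4) (ZMod l)) = C (n : ZMod l) := by simp
    rw [h1]
    refine (totalDegree_mul _ _).trans ?_
    have h2 := totalDegree_mul (C (n : ZMod l)) (X i : MvPolynomial (Fin 4) (ZMod l))
    have h3 : (X i : MvPolynomial (Fin 4) (ZMod l)).totalDegree = 1 := totalDegree_X i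
    have h4 : (X j : MvPolynomial (Fin 4) (ZMod l)).totalDegree = 1 := totalDegree_X j
    rw [totalDegree_C, h3] at h2
    omega
  have hf : f = ((1 : ℤ) : MvPolynomial (Fin 4) (ZMod l)) * X 0 * X 0
      + ((F.u : ℤ) : MvPolynomial (Fin 4) (ZMod l)) * X 0 * X 1
      + ((F.v : ℤ) : MvPolynomial (Fin 4) (ZMod l)) * X 0 * X 2
      + ((F.w : ℤ) : MvPolynomial (Fin 4) (ZMod l)) * X 0 * X 3
      + ((F.b * F.c : ℤ) : MvPolynomial (Fin 4) (ZMod l)) * X 1 * X 1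
      + ((F.a * F.c : ℤ) : MvPolynomial (Fin 4) (ZMod l)) * X 2 * X 2
      + ((F.a * F.b : ℤ) : MvPolynomial (Fin 4) (ZMod l)) * X 3 * X 3
      + ((F.u * F.v - F.c * F.w : ℤ) : MvPolynomial (Fin 4) (ZMod l)) * X 1 * X 2
      + ((F.u * F.w - F.b * F.v : ℤ) : MvPolynomial (Fin 4) (ZMod l)) * X 1 * X 3
      + ((F.v * F.w - F.a * F.u : ℤ) : MvPolynomial (Fin 4) (ZMod l)) * X 2 * X 3 := by
    simp only [f, qF]; push_cast; ring
  have hdeg : f.totalDegree ≤ 2 := by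
    rw [hf]
    have hadd : ∀ P Q : MvPolynomial (Fin 4) (ZMod l), P.totalDegree ≤ 2 → Q.totalDegree ≤ 2 →
        (P + Q).totalDegree ≤ 2 := fun P Q hP hQ => (totalDegree_add P Q).trans (max_le hP hQ)
    exact hadd _ _ (hadd _ _ (hadd _ _ (hadd _ _ (hadd _ _ (hadd _ _ (hadd _ _ (hadd _ _
      (hadd _ _ (hterm _ _ _) (hterm _ _ _)) (hterm _ _ _)) (hterm _ _ _)) (hterm _ _ _))
      (hterm _ _ _)) (hterm _ _ _)) (hterm _ _ _)) (hterm _ _ _)) (hterm _ _ _)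
  have heval : ∀ s : Fin 4 → ZMod l, eval s f = qF F (s 0) (s 1) (s 2) (s 3) := by
    intro s
    simp [f, qF]
  have hdvd := char_dvd_card_solutions l (K := ZMod l) (f := f) (by
    rw [Fintype.card_fin]; omega)
  by_contra hcon
  push Not at hcon
  have hcard : Fintype.card { s : Fin 4 → ZMod l // eval s f = 0 } = 1 := by
    rw [Fintype.card_eq_one_iff]
    refine ⟨⟨0, by rw [heval]; simp [qF]⟩, ?_⟩
    rintro ⟨s, hs⟩
    apply Subtype.ext
    by_contra hne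
    rw [heval] at hs
    exact hcon s hne hs
  rw [hcard, Nat.dvd_one] at hdvd
  exact hl.out.one_lt.ne' hdvd

end Pool.Agent.Lib.MP_1c9ad1_nt
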