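import Pool.Agent.Lib.MP_1c9ad1_nt.Quat8

/-!
# At a ramified prime the half discriminant is divisible by the prime
-/

namespace Pool.Agent.Lib.MP_1c9ad1_nt

open Quaternion Module

variable {l : ℕ} [hl : Fact l.Prime]

theorem dvd_N_of_isDiv {a b : ℚ} {F : TF} {f1 f2 f3 : ℍ[ℚ,a,b]} (hab : a * b ≠ 0)
    (hC : CR F f1 f2 f3) (hdiv : IsDiv ℚ_[l] (a : ℚ_[l]) (b : ℚ_[l])) : (l : ℤ) ∣ F.N := by
  by_contra hN
  have hN0 : (F.N : ZMod l) ≠ 0 := by
    rwa [Ne, ZMod.intCast_zmod_eq_zero_iff_dvd]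
  obtain ⟨s, hs, hq⟩ := cw_zero (l := l) F
  have hint : ∀ t x y z : ℤ_[l], qF F t x y z = 0 → t = 0 ∧ x = 0 ∧ y = 0 ∧ z = 0 := by
    intro t x y z h
    have h1 : qF F (t : ℚ_[l]) x y z = 0 := by
      have := congrArg (fun r : ℤ_[l] => (r : ℚ_[l])) h
      simp only [qF] at this ⊢
      push_cast at this
      exact this
    obtain ⟨a1, a2, a3, a4⟩ := base_nonzero ℚ_[l] hab hC hdiv _ _ _ _ h1
    exact ⟨PadicInt.coe_eq_zero.mp a1, PadicInt.coe_eq_zero.mp a2, PadicInt.coe_eq_zero.mp a3,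
      PadicInt.coe_eq_zero.mp a4⟩
  have hlift : ∀ r : ZMod l, ∃ r' : ℤ_[l], PadicInt.toZMod r' = r :=
    fun r => ⟨(r.val : ℤ_[l]), by rw [map_natCast, ZMod.natCast_zmod_val]⟩
  obtain ⟨t, ht⟩ := hlift (s 0)
  obtain ⟨x, hx⟩ := hlift (s 1)
  obtain ⟨y, hy⟩ := hlift (s 2)
  obtain ⟨z, hz⟩ := hlift (s 3)
  have hA : (l : ℤ_[l]) ∣ qF F t x y z := by
    rw [← toZMod_eq_zero_iff]
    simp only [qF, map_add, map_mul, map_sub, map_pow, map_intCast]
    rw [ht, hx, hy, hz]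
    exact hq
  have hfin : ¬ (PadicInt.toZMod t = 0 ∧ PadicInt.toZMod x = 0 ∧ PadicInt.toZMod y = 0
      ∧ PadicInt.toZMod z = 0) := by
    rintro ⟨h0, h1, h2, h3⟩
    rw [ht] at h0
    rw [hx] at h1
    rw [hy] at h2
    rw [hz] at h3
    apply hs
    funext j
    fin_cases j
    · exact h0
    · exact h1
    · exact h2
    · exact h3
  have hneg : ∀ w T : ℤ_[l], (l : ℤ_[l]) ∣ T → w + T = 0 → PadicInt.toZMod w = 0 := by
    intro w T hT h
    rw [toZMod_eq_zero_iff]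
    have : w = -T := by linear_combination h
    rw [this]
    exact (dvd_neg).mpr hT
  have e0 : 2 * s 0 + F.u * s 1 + F.v * s 2 + F.w * s 3 = 0 := by
    by_contra h0
    have hB : ¬ (l : ℤ_[l]) ∣ (2 * t + F.u * x + F.v * y + F.w * z) := by
      rw [← toZMod_eq_zero_iff]
      simp only [map_add, map_mul, map_intCast, map_ofNat]
      rw [ht, hx, hy, hz]
      exact h0
    obtain ⟨T, hT, hTd⟩ := hensel_quad (C := 1) hA hB
    obtain ⟨b0, b1, b2, b3⟩ := hint (t + T) x y z (by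
      rw [← hT]; simp only [qF]; ring)
    apply hfin
    exact ⟨hneg _ _ hTd b0, by rw [b1, map_zero], by rw [b2, map_zero], by rw [b3, map_zero]⟩
  have e1 : F.u * s 0 + 2 * F.b * F.c * s 1 + (F.u * F.v - F.c * F.w) * s 2
      + (F.u * F.w - F.b * F.v) * s 3 = 0 := by
    by_contra h0
    have hB : ¬ (l : ℤ_[l]) ∣ (F.u * t + 2 * F.b * F.c * x + (F.u * F.v - F.c * F.w) * y
      + (F.u * F.w - F.b * F.v) * z) := by
      rw [← toZMod_eq_zero_iff]
      simp only [map_add, map_mul, map_sub, map_intCast, map_ofNat]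
      rw [ht, hx, hy, hz]
      exact h0
    obtain ⟨T, hT, hTd⟩ := hensel_quad (C := F.b * F.c) hA hB
    obtain ⟨b0, b1, b2, b3⟩ := hint t (x + T) y z (by
      rw [← hT]; simp only [qF]; ring)
    apply hfin
    exact ⟨by rw [b0, map_zero], hneg _ _ hTd b1, by rw [b2, map_zero], by rw [b3, map_zero]⟩
  have e2 : F.v * s 0 + (F.u * F.v - F.c * F.w) * s 1 + 2 * F.a * F.c * s 2
      + (F.v * F.w - F.a * F.u) * s 3 = 0 := by
    by_contra h0
    have hB : ¬ (l : ℤ_[l]) ∣ (F.v * t + (F.u * F.v - F.c * F.w) * x + 2 * F.a * F.c * y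
      + (F.v * F.w - F.a * F.u) * z) := by
      rw [← toZMod_eq_zero_iff]
      simp only [map_add, map_mul, map_sub, map_intCast, map_ofNat]
      rw [ht, hx, hy, hz]
      exact h0
    obtain ⟨T, hT, hTd⟩ := hensel_quad (C := F.a * F.c) hA hB
    obtain ⟨b0, b1, b2, b3⟩ := hint t x (y + T) z (by
      rw [← hT]; simp only [qF]; ring)
    apply hfin
    exact ⟨by rw [b0, map_zero], by rw [b1, map_zero], hneg _ _ hTd b2, by rw [b3, map_zero]⟩
  have e3 : F.w * s 0 + (F.u * F.w - F.b * F.v) * s 1 + (F.v * F.w - F.a * F.u) * s 2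
      + 2 * F.a * F.b * s 3 = 0 := by
    by_contra h0
    have hB : ¬ (l : ℤ_[l]) ∣ (F.w * t + (F.u * F.w - F.b * F.v) * x
      + (F.v * F.w - F.a * F.u) * y + 2 * F.a * F.b * z) := by
      rw [← toZMod_eq_zero_iff]
      simp only [map_add, map_mul, map_sub, map_intCast, map_ofNat]
      rw [ht, hx, hy, hz]
      exact h0
    obtain ⟨T, hT, hTd⟩ := hensel_quad (C := F.a * F.b) hA hB
    obtain ⟨b0, b1, b2, b3⟩ := hint t x y (z + T) (by
      rw [← hT]; simp only [qF]; ring)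
    apply hfin
    exact ⟨by rw [b0, map_zero], by rw [b1, map_zero], by rw [b2, map_zero], hneg _ _ hTd b3⟩
  have hNe : (F.N : ZMod l) = 4 * F.a * F.b * F.c + F.u * F.v * F.w - F.a * F.u ^ 2
      - F.b * F.v ^ 2 - F.c * F.w ^ 2 := by
    simp only [TF.N]; push_cast; ring
  have k1 : (F.N : ZMod l) * s 1 = 0 := by
    rw [hNe]
    linear_combination 2 * F.a * e1 + F.w * e2 + F.v * e3 - (F.a * F.u + F.v * F.w) * e0
  have k2 : (F.N : ZMod l) * s 2 = 0 := by
    rw [hNe]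
    linear_combination F.w * e1 + 2 * F.b * e2 + F.u * e3 - (F.b * F.v + F.u * F.w) * e0
  have k3 : (F.N : ZMod l) * s 3 = 0 := by
    rw [hNe]
    linear_combination F.v * e1 + F.u * e2 + 2 * F.c * e3 - (F.c * F.w + F.u * F.v) * e0
  have z1 := (mul_eq_zero.mp k1).resolve_left hN0
  have z2 := (mul_eq_zero.mp k2).resolve_left hN0
  have z3 := (mul_eq_zero.mp k3).resolve_left hN0
  rw [z1, z2, z3] at e0 e1 e2 e3
  have k0 : (F.N : ZMod l) * s 0 = 0 := by
    rw [hNe]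
    linear_combination 2 * F.a * F.b * F.c * e0 + F.v * F.w * e1 - F.a * F.u * e1
      - F.b * F.v * e2 - F.c * F.w * e3
  have z0 := (mul_eq_zero.mp k0).resolve_left hN0
  apply hs
  funext j
  fin_cases j
  · exact z0
  · exact z1
  · exact z2
  · exact z3

end Pool.Agent.Lib.MP_1c9ad1_nt
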